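import Pool.Agent.Q160.FT.Scale
import Mathlib.MeasureTheory.Integral.RieszMarkovKakutani.Real

/-!
Compactness, and the quantitative flatness theorem.
-/

set_option autoImplicit false

namespace Pool.Agent.Q160.FT

open MeasureTheory Set Filter Topology Metric Pool.Agent.TH337.VF
open scoped ENNReal NNReal RealInnerProductSpace CompactlySupported

variable {N m : ℕ}

/-- vague compactness along ultrafilters -/
lemma exists_vague {ι : Type*} (l : Ultrafilter ι) (μ : ι → Measure (E N))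
    (hfin : ∀ j, IsFiniteMeasure (μ j))
    (hb : ∀ ρ : ℝ, ∃ C : ℝ, ∀ᶠ j in (l : Filter ι), (μ j).real (ball 0 ρ) ≤ C) :
    ∃ ν : Measure (E N), IsFiniteMeasureOnCompacts ν ∧ VC (l : Filter ι) μ ν := by
  have hL : ∀ g : C_c(E N, ℝ), ∃ x : ℝ, Tendsto (fun j => ∫ x, g x ∂(μ j)) l (𝓝 x) := by
    intro g
    obtain ⟨M, hM⟩ := g.continuous.bounded_above_of_compact_support g.hasCompactSupport
    have hM0 : 0 ≤ M := (norm_nonneg _).trans (hM 0)
    obtain ⟨ρ, hρ, hsub⟩ := exists_rad g.hasCompactSupport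
    obtain ⟨C, hC⟩ := hb ρ
    have h1 : ∀ᶠ j in (l : Filter ι), ∫ x, g x ∂(μ j) ∈ Icc (-(M * C)) (M * C) := by
      filter_upwards [hC] with j hj
      rw [mem_Icc, ← abs_le]
      have h2 : ∫ x, g x ∂(μ j) = ∫ x in ball 0 ρ, g x ∂(μ j) := by
        symm
        apply setIntegral_eq_integral_of_forall_compl_eq_zero
        intro x hx
        apply image_eq_zero_of_notMem_tsupport
        exact fun h => hx (hsub h)
      rw [h2]
      have h3 := norm_setIntegral_le_of_norm_le_const (μ := μ j) (s := ball (0 : E N) ρ)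
        (f := fun x => g x) (C := M) (measure_lt_top _ _) (fun x _ => hM x)
      rw [Real.norm_eq_abs] at h3
      exact h3.trans (mul_le_mul_of_nonneg_left hj hM0)
    obtain ⟨x, -, hx⟩ := (isCompact_Icc (a := -(M * C)) (b := M * C)).ultrafilter_le_nhds'
      (l.map fun j => ∫ x, g x ∂(μ j)) h1
    exact ⟨x, hx⟩
  choose Λ hΛ using hL
  let Λ' : C_c(E N, ℝ) →ₚ[ℝ] ℝ :=
  { toFun := Λ
    map_add' g g' := by
      have : Tendsto (fun j => ∫ x, g x + g' x ∂(μ j)) l (𝓝 (Λ g + Λ g')) := by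
        convert! (hΛ g).add (hΛ g')
        rw [integral_add]
        · exact g.continuous.integrable_of_hasCompactSupport g.hasCompactSupport
        · exact g'.continuous.integrable_of_hasCompactSupport g'.hasCompactSupport
      exact tendsto_nhds_unique (hΛ (g + g')) this
    map_smul' c g := by
      have : Tendsto (fun j => ∫ x, c • g x ∂(μ j)) l (𝓝 (c • Λ g)) := by
        convert! (hΛ g).const_smul c
        rw [integral_smul]
      exact tendsto_nhds_unique (hΛ (c • g)) this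
    monotone' g g' hgg' := by
      apply le_of_tendsto_of_tendsto' (hΛ g) (hΛ g') (fun j ↦ ?_)
      apply integral_mono _ _ hgg'
      · exact g.continuous.integrable_of_hasCompactSupport g.hasCompactSupport
      · exact g'.continuous.integrable_of_hasCompactSupport g'.hasCompactSupport }
  refine ⟨RealRMK.rieszMeasure Λ', inferInstance, ?_⟩
  intro f hf hc
  have h1 := hΛ ⟨⟨f, hf⟩, hc⟩
  have h2 : ∫ x, f x ∂(RealRMK.rieszMeasure Λ') = Λ ⟨⟨f, hf⟩, hc⟩ :=
    RealRMK.integral_rieszMeasure Λ' ⟨⟨f, hf⟩, hc⟩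
  rw [h2]
  exact h1

theorem Sit.main {ι : Type*} {l : Filter ι} [l.NeBot] {κ : ℝ} {μ : ι → Measure (E N)}
    {P : ι → E N → E N →L[ℝ] E N} {L : ι → ℝ} {G : ι → Set (E N)} {ν : Measure (E N)}
    (h : Sit l m κ μ P L G ν) (hm : 1 ≤ m) {c : ℝ} (hc : 0 < c)
    (hG : ∃ᶠ j in l, c ≤ (μ j).real (G j ∩ closedBall 0 1)) :
    ∃ (Li : E m →ₗᵢ[ℝ] E N) (c : ℝ≥0), (c : ℝ) * (volume : Measure (E m)).real (ball 0 1) = κ ∧
      (∀ a, Li a ∈ WS l μ P) ∧ ν = (c : ℝ≥0∞) • (volume : Measure (E m)).map Li := by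
  have := h.locfin
  have hSg := h.pos hc hG
  have h0 := h.zero_mem
  have hsubW := h.Sg_sub hm h0
  exact flat (m := m) (κ := κ) (ν := ν) h.W
    (fun e he => h.map_eq he) (fun s hs => h.upper 0 hs) (fun s hs => h0 s hs)
    (fun h3 => hSg (measure_mono_null hsubW h3))

end Pool.Agent.Q160.FT
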