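import Pool.Agent.Q160.FT.Vague

/-!
The defect of the monotonicity formula tends to zero around the points of `Sg`.
-/

set_option autoImplicit false

namespace Pool.Agent.Q160.FT

open MeasureTheory Set Filter Topology Metric Pool.Agent.TH337.VF
open scoped ENNReal RealInnerProductSpace

variable {N : ℕ}

variable {ι : Type*} {l : Filter ι} [l.NeBot] {m : ℕ} {κ : ℝ} {μ : ι → Measure (E N)}
  {P : ι → E N → E N →L[ℝ] E N} {L : ι → ℝ} {G : ι → Set (E N)} {ν : Measure (E N)}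

lemma wt0 (u : ℝ) : wt 0 u = (max 0 (1 - u)) ^ 2 := by simp [wt]

lemma wt0' (u : ℝ) : wt' 0 u = -(2 * max 0 (1 - u)) := by simp [wt']

lemma level {y : E N} {r t : ℝ} (hr : 0 < r) (ht : 0 ≤ t) :
    {x : E N | t < wt 0 (‖x - y‖ ^ 2 / r ^ 2)} = ball y (r * √(1 - √t)) := by
  ext x
  rw [mem_ofPred_eq, wt0, mem_ball, dist_eq_norm, ← Real.sqrt_lt_sqrt_iff ht,
    Real.sqrt_sq (le_max_left _ _), lt_max_iff, or_iff_right (not_lt.2 (Real.sqrt_nonneg t)),
    lt_sub_comm, div_lt_iff₀ (by positivity)]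
  have e : r * √(1 - √t) = √((1 - √t) * r ^ 2) := by
    rw [mul_comm, Real.sqrt_mul' _ (sq_nonneg r), Real.sqrt_sq hr.le]
  rw [e, Real.lt_sqrt (norm_nonneg _)]

lemma cont_wt (y : E N) (r : ℝ) : Continuous fun x : E N => wt 0 (‖x - y‖ ^ 2 / r ^ 2) :=
  (wt_Wt 0).contf.comp (by fun_prop)

lemma cont_wt' (y : E N) (r : ℝ) : Continuous fun x : E N => wt' 0 (‖x - y‖ ^ 2 / r ^ 2) :=
  (wt_Wt 0).cont.comp (by fun_prop)

lemma one_le_of_notMem {y x : E N} {r : ℝ} (hr : 0 < r) (hx : x ∉ closedBall y r) :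
    1 ≤ ‖x - y‖ ^ 2 / r ^ 2 := by
  rw [mem_closedBall, dist_eq_norm, not_le] at hx
  rw [one_le_div (by positivity)]
  exact pow_le_pow_left₀ hr.le hx.le 2

lemma supp_wt (y : E N) {r : ℝ} (hr : 0 < r) :
    HasCompactSupport fun x : E N => wt 0 (‖x - y‖ ^ 2 / r ^ 2) :=
  HasCompactSupport.intro (isCompact_closedBall y r) fun _ hx =>
    (wt_Wt 0).zero _ (one_le_of_notMem hr hx)

lemma Sit.I_eq (h : Sit l m κ μ P L G ν) (hm : 1 ≤ m) {y : E N} (hy : y ∈ Sg m κ ν) {r : ℝ}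
    (hr : 0 < r) : I (wt 0) ν y r = κ * (∫ t in Ioi (0:ℝ), (√(1 - √t)) ^ m) * r ^ m := by
  have := h.locfin
  have hint : Integrable (fun x : E N => wt 0 (‖x - y‖ ^ 2 / r ^ 2)) ν :=
    (cont_wt y r).integrable_of_hasCompactSupport (supp_wt y hr)
  unfold I
  rw [hint.integral_eq_integral_meas_lt (Eventually.of_forall fun x => by
    simp only [Pi.zero_apply, wt0]; positivity)]
  rw [mul_assoc, mul_comm _ (r ^ m), ← mul_assoc, ← integral_const_mul]
  apply setIntegral_congr_fun measurableSet_Ioi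
  intro t ht
  simp only
  rw [level hr (le_of_lt ht)]
  rcases (Real.sqrt_nonneg (1 - √t)).eq_or_lt with h0 | h0
  · rw [← h0, mul_zero, ball_zero, zero_pow (by omega)]
    simp
  · rw [h.ball_eq hy (by positivity), mul_pow]
    ring

lemma Sit.F_zero (h : Sit l m κ μ P L G ν) (hm : 1 ≤ m) {y : E N} (hy : y ∈ Sg m κ ν) {r : ℝ}
    (hr : 0 < r) :
    ∫ x, (m * wt 0 (‖x - y‖ ^ 2 / r ^ 2) +
      2 * (‖x - y‖ ^ 2 / r ^ 2) * wt' 0 (‖x - y‖ ^ 2 / r ^ 2)) ∂ν = 0 := by
  have := h.locfin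
  set C := ∫ t in Ioi (0:ℝ), (√(1 - √t)) ^ m with hC
  have hfin : IsFiniteMeasure (ν.restrict (closedBall y (2 * r))) :=
    ⟨by simpa using (isCompact_closedBall y (2 * r)).measure_lt_top⟩
  have h1 := hasDerivAt_I (wt_Wt 0) (ν.restrict (closedBall y (2 * r))) y hr
  have h2 : ∀ ρ : ℝ, 0 < ρ → ρ ≤ 2 * r →
      I (wt 0) (ν.restrict (closedBall y (2 * r))) y ρ = κ * C * ρ ^ m := by
    intro ρ hρ hρr
    rw [← h.I_eq hm hy hρ]
    unfold I
    apply setIntegral_eq_integral_of_forall_compl_eq_zero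
    intro x hx
    apply (wt_Wt 0).zero
    apply one_le_of_notMem hρ
    exact fun hx' => hx (closedBall_subset_closedBall hρr hx')
  have h3 : HasDerivAt (I (wt 0) (ν.restrict (closedBall y (2 * r))) y)
      (κ * C * (m * r ^ (m - 1))) r := by
    have h4 : HasDerivAt (fun ρ : ℝ => κ * C * ρ ^ m) (κ * C * (m * r ^ (m - 1))) r :=
      (hasDerivAt_pow m r).const_mul _
    apply h4.congr_of_eventuallyEq
    filter_upwards [Ioo_mem_nhds (show 0 < r from hr) (show r < 2 * r by linarith)] with ρ hρ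
    exact h2 ρ hρ.1 hρ.2.le
  have h5 := h1.2.unique h3
  have h6 : ∫ x, (m * wt 0 (‖x - y‖ ^ 2 / r ^ 2) +
      2 * (‖x - y‖ ^ 2 / r ^ 2) * wt' 0 (‖x - y‖ ^ 2 / r ^ 2)) ∂ν =
      ∫ x in closedBall y (2 * r), (m * wt 0 (‖x - y‖ ^ 2 / r ^ 2) +
      2 * (‖x - y‖ ^ 2 / r ^ 2) * wt' 0 (‖x - y‖ ^ 2 / r ^ 2)) ∂ν := by
    symm
    apply setIntegral_eq_integral_of_forall_compl_eq_zero
    intro x hx
    have h7 : 1 ≤ ‖x - y‖ ^ 2 / r ^ 2 := by
      apply one_le_of_notMem hr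
      exact fun hx' => hx (closedBall_subset_closedBall (by linarith) hx')
    rw [(wt_Wt 0).zero _ h7, (wt_Wt 0).zero' _ h7]
    ring
  rw [h6]
  have h8 : ∀ x : E N, (m * wt 0 (‖x - y‖ ^ 2 / r ^ 2) +
      2 * (‖x - y‖ ^ 2 / r ^ 2) * wt' 0 (‖x - y‖ ^ 2 / r ^ 2)) =
      m * wt 0 (‖x - y‖ ^ 2 / r ^ 2) -
      r * (wt' 0 (‖x - y‖ ^ 2 / r ^ 2) * (-2 * ‖x - y‖ ^ 2 / r ^ 3)) := by
    intro x
    field_simp
    ring
  simp_rw [h8]
  rw [integral_sub ((integrable_wt (wt_Wt 0) _ y r).const_mul _) (h1.1.const_mul _),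
    integral_const_mul, integral_const_mul, h5]
  have h9 := h2 r hr (by linarith)
  unfold I at h9
  rw [h9]
  have h10 : r ^ m = r * r ^ (m - 1) := by
    rw [← pow_succ', Nat.sub_add_cancel hm]
  rw [h10]
  ring

/-- the integrand of the defect -/
noncomputable def Df (P : E N → E N →L[ℝ] E N) (y : E N) (r : ℝ) (x : E N) : ℝ :=
  -2 * wt' 0 (‖x - y‖ ^ 2 / r ^ 2) * ((‖x - y‖ ^ 2 - ⟪x - y, P x (x - y)⟫) / r ^ 2)

lemma meas_app {P : E N → E N →L[ℝ] E N} (hP : Measurable P) {g : E N → E N}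
    (hg : Measurable g) : Measurable fun x => P x (g x) :=
  isBoundedBilinearMap_apply.continuous.measurable.comp (hP.prodMk hg)

/-- the exact identity -/
lemma test_eq {U : Set (E N)} {μ : Measure (E N)} [IsFiniteMeasure μ] {P : E N → E N →L[ℝ] E N}
    (hS : Stat m U μ P) (hU : MeasurableSet U) {y : E N} {r : ℝ} (hr : 0 < r)
    (hy : closedBall y r ⊆ U) :
    Integrable (Df P y r) μ ∧ ∫ x, Df P y r x ∂μ = -∫ x, (m * wt 0 (‖x - y‖ ^ 2 / r ^ 2) +
      2 * (‖x - y‖ ^ 2 / r ^ 2) * wt' 0 (‖x - y‖ ^ 2 / r ^ 2)) ∂μ := by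
  have hr2 : 0 < r ^ 2 := by positivity
  set g : ℝ → ℝ := fun s => wt 0 (s / r ^ 2) with hgdef
  set g' : ℝ → ℝ := fun s => wt' 0 (s / r ^ 2) / r ^ 2 with hg'def
  have hg : ∀ s, HasDerivAt g (g' s) s := by
    intro s
    have h1 : HasDerivAt (fun s : ℝ => s / r ^ 2) (1 / r ^ 2) s := (hasDerivAt_id s).div_const _
    have h2 := ((wt_Wt 0).der (s / r ^ 2)).comp s h1
    have e : g' s = wt' 0 (s / r ^ 2) * (1 / r ^ 2) := by
      simp only [hg'def]
      ring
    rw [e]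
    exact h2
  have hgc : ContDiff ℝ 1 g := (wt_Wt 0).contDiff.comp (contDiff_id.div_const _)
  have hX : ContDiff ℝ 1 (rad g y) :=
    (hgc.comp (contDiff_sq y)).smul (contDiff_id.sub contDiff_const)
  have hzero : ∀ x, x ∉ closedBall y r → rad g y x = 0 := by
    intro x hx
    simp [rad, hgdef, (wt_Wt 0).zero _ (one_le_of_notMem hr hx)]
  have hsub : tsupport (rad g y) ⊆ closedBall y r := by
    apply closure_minimal _ isClosed_closedBall
    intro x hx
    by_contra hc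
    exact hx (hzero x hc)
  have hcs : HasCompactSupport (rad g y) :=
    HasCompactSupport.intro (isCompact_closedBall y r) hzero
  have hstat := hS.stat (rad g y) hX hcs (hsub.trans hy)
  have hinner : Measurable fun x : E N => ⟪x - y, P x (x - y)⟫ :=
    (continuous_inner (𝕜 := ℝ) (E := E N)).measurable.comp ((measurable_id.sub_const y).prodMk
      (meas_app hS.meas (measurable_id.sub_const y)))
  -- bound
  have hD0 : ∀ x, 0 ≤ ‖x - y‖ ^ 2 - ⟪x - y, P x (x - y)⟫ := fun x =>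
    sub_nonneg.2 (inner_le_of_norm (hS.nrm x) _)
  have hD1 : ∀ x, ‖x - y‖ ^ 2 - ⟪x - y, P x (x - y)⟫ ≤ 2 * ‖x - y‖ ^ 2 := by
    intro x
    have h1 := abs_real_inner_le_norm (x - y) (P x (x - y))
    have h2 := (P x).le_opNorm (x - y)
    have h3 := hS.nrm x
    have h4 := norm_nonneg (x - y)
    have h5 := neg_le_of_abs_le h1
    nlinarith
  have hDint : Integrable (Df P y r) μ := by
    refine Integrable.of_bound (C := 8) ?_ ?_
    · apply Measurable.aestronglyMeasurable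
      unfold Df
      exact (measurable_const.mul (cont_wt' y r).measurable).mul
        ((((measurable_id.sub_const y).norm.pow_const 2).sub hinner).div_const _)
    · filter_upwards with x
      unfold Df
      by_cases hx : x ∈ closedBall y r
      · have h1 : ‖x - y‖ ^ 2 ≤ r ^ 2 := by
          rw [mem_closedBall, dist_eq_norm] at hx
          exact pow_le_pow_left₀ (norm_nonneg _) hx 2
        have h2 : (‖x - y‖ ^ 2 - ⟪x - y, P x (x - y)⟫) / r ^ 2 ≤ 2 := by
          rw [div_le_iff₀ hr2]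
          linarith [hD1 x]
        have h3 : 0 ≤ (‖x - y‖ ^ 2 - ⟪x - y, P x (x - y)⟫) / r ^ 2 :=
          div_nonneg (hD0 x) hr2.le
        have h4 : 0 ≤ max 0 (1 - ‖x - y‖ ^ 2 / r ^ 2) := le_max_left _ _
        have h5 : max 0 (1 - ‖x - y‖ ^ 2 / r ^ 2) ≤ 1 := by
          apply max_le (by norm_num)
          have : 0 ≤ ‖x - y‖ ^ 2 / r ^ 2 := by positivity
          linarith
        rw [wt0', Real.norm_eq_abs, abs_of_nonneg]
        · nlinarith
        · nlinarith [mul_nonneg h4 h3]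
      · rw [(wt_Wt 0).zero' _ (one_le_of_notMem hr hx)]
        norm_num
  refine ⟨hDint, ?_⟩
  have hF : Integrable (fun x : E N => (m * wt 0 (‖x - y‖ ^ 2 / r ^ 2) +
      2 * (‖x - y‖ ^ 2 / r ^ 2) * wt' 0 (‖x - y‖ ^ 2 / r ^ 2))) μ := by
    apply Continuous.integrable_of_hasCompactSupport
    · have h1 : Continuous fun x : E N => ‖x - y‖ ^ 2 / r ^ 2 := by fun_prop
      exact (continuous_const.mul (cont_wt y r)).add
        ((continuous_const.mul h1).mul (cont_wt' y r))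
    · apply HasCompactSupport.intro (isCompact_closedBall y r)
      intro x hx
      rw [(wt_Wt 0).zero _ (one_le_of_notMem hr hx), (wt_Wt 0).zero' _ (one_le_of_notMem hr hx)]
      ring
  have hsum : ∫ x, (Df P y r x + (m * wt 0 (‖x - y‖ ^ 2 / r ^ 2) +
      2 * (‖x - y‖ ^ 2 / r ^ 2) * wt' 0 (‖x - y‖ ^ 2 / r ^ 2))) ∂μ = 0 := by
    rw [← hstat]
    apply integral_congr_ae
    have htr := (ae_restrict_iff' hU).1 hS.tr
    filter_upwards [htr] with x hx
    rw [trc_rad hg y x (P x)]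
    unfold Df
    by_cases hxU : x ∈ U
    · rw [hx hxU]
      simp only [hgdef, hg'def]
      field_simp
      ring
    · have h1 : 1 ≤ ‖x - y‖ ^ 2 / r ^ 2 := one_le_of_notMem hr fun hc => hxU (hy hc)
      simp only [hgdef, hg'def]
      rw [(wt_Wt 0).zero _ h1, (wt_Wt 0).zero' _ h1]
      ring
  rw [integral_add hDint hF] at hsum
  linarith

lemma Sit.defect (h : Sit l m κ μ P L G ν) (hm : 1 ≤ m) {y : E N} (hy : y ∈ Sg m κ ν) {r : ℝ}
    (hr : 0 < r) : Tendsto (fun j => ∫ x, Df (P j) y r x ∂(μ j)) l (𝓝 0) := by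
  have := h.fin
  have h1 := h.vague (fun x : E N => (m * wt 0 (‖x - y‖ ^ 2 / r ^ 2) +
      2 * (‖x - y‖ ^ 2 / r ^ 2) * wt' 0 (‖x - y‖ ^ 2 / r ^ 2))) ?_ ?_
  · rw [h.F_zero hm hy hr] at h1
    have h2 := h1.neg
    rw [neg_zero] at h2
    apply h2.congr'
    filter_upwards [h.sub y r] with j hj
    exact (test_eq (h.stat j) measurableSet_ball hr hj).2.symm
  · have h1 : Continuous fun x : E N => ‖x - y‖ ^ 2 / r ^ 2 := by fun_prop
    exact (continuous_const.mul (cont_wt y r)).add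
      ((continuous_const.mul h1).mul (cont_wt' y r))
  · apply HasCompactSupport.intro (isCompact_closedBall y r)
    intro x hx
    rw [(wt_Wt 0).zero _ (one_le_of_notMem hr hx), (wt_Wt 0).zero' _ (one_le_of_notMem hr hx)]
    ring

/-- the quantity `‖v - P v‖²` -/
lemma sq_le {P : E N →L[ℝ] E N} (hP : ‖P‖ ≤ 1) (v : E N) :
    ‖v - P v‖ ^ 2 ≤ 2 * (‖v‖ ^ 2 - ⟪v, P v⟫) := by
  have h1 : ‖v - P v‖ ^ 2 = ‖v‖ ^ 2 - 2 * ⟪v, P v⟫ + ‖P v‖ ^ 2 := norm_sub_sq_real v (P v)
  have h2 := P.le_opNorm v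
  have h3 := norm_nonneg v
  have h4 := norm_nonneg (P v)
  have h5 : ‖P v‖ ≤ ‖v‖ := by nlinarith
  nlinarith

lemma int_sq {μ : Measure (E N)} [IsFiniteMeasure μ] {P : E N → E N →L[ℝ] E N}
    (hP : Measurable P) (hn : ∀ x, ‖P x‖ ≤ 1) (v : E N) (ρ : ℝ) :
    IntegrableOn (fun x => ‖v - P x v‖ ^ 2) (ball 0 ρ) μ := by
  refine Integrable.of_bound (C := (2 * ‖v‖) ^ 2) ?_ ?_
  · exact ((measurable_const.sub (meas_app hP measurable_const)).norm.pow_const
      2).aestronglyMeasurable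
  · filter_upwards with x
    rw [Real.norm_eq_abs, abs_of_nonneg (by positivity)]
    apply pow_le_pow_left₀ (norm_nonneg _)
    have h1 := norm_sub_le v (P x v)
    have h2 := (P x).le_opNorm v
    have h3 := hn x
    have h4 := norm_nonneg v
    nlinarith

lemma int_sq' {μ : Measure (E N)} [IsFiniteMeasure μ] {P : E N → E N →L[ℝ] E N}
    (hP : Measurable P) (hn : ∀ x, ‖P x‖ ≤ 1) (y z : E N) (ρ : ℝ) :
    IntegrableOn (fun x => ‖(x - y) - P x (x - y)‖ ^ 2) (ball z ρ) μ := by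
  refine Measure.integrableOn_of_bounded (M := (2 * (ρ + ‖z - y‖)) ^ 2)
    (measure_ne_top _ _) ?_ ?_
  · exact (((measurable_id.sub_const y).sub
      (meas_app hP (measurable_id.sub_const y))).norm.pow_const 2).aestronglyMeasurable
  · refine (ae_restrict_iff' measurableSet_ball).2 (Eventually.of_forall fun x hx => ?_)
    rw [mem_ball, dist_eq_norm] at hx
    rw [Real.norm_eq_abs, abs_of_nonneg (by positivity)]
    apply pow_le_pow_left₀ (norm_nonneg _)
    have h1 := norm_sub_le (x - y) (P x (x - y))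
    have h2 := (P x).le_opNorm (x - y)
    have h3 := hn x
    have h4 := norm_nonneg (x - y)
    have h5 : ‖x - y‖ ≤ ρ + ‖z - y‖ := by
      have : x - y = (x - z) + (z - y) := by abel
      rw [this]
      exact (norm_add_le _ _).trans (by linarith)
    nlinarith

lemma Sit.sq_tendsto (h : Sit l m κ μ P L G ν) (hm : 1 ≤ m) {y : E N} (hy : y ∈ Sg m κ ν)
    {ρ : ℝ} (hρ : 0 < ρ) :
    Tendsto (fun j => ∫ x in ball y ρ, ‖(x - y) - P j x (x - y)‖ ^ 2 ∂(μ j)) l (𝓝 0) := by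
  have := h.fin
  have h1 := (h.defect hm hy (show 0 < 2 * ρ by positivity)).const_mul (8 * ρ ^ 2 / 3)
  rw [mul_zero] at h1
  apply squeeze_zero' (Eventually.of_forall fun j => integral_nonneg fun x => by positivity) ?_ h1
  filter_upwards [h.sub y (2 * ρ)] with j hj
  have h2 := (test_eq (h.stat j) measurableSet_ball (show 0 < 2 * ρ by positivity) hj).1
  rw [← integral_const_mul]
  have h3 : ∀ x, 0 ≤ Df (P j) y (2 * ρ) x := by
    intro x
    unfold Df
    have h4 : 0 ≤ (‖x - y‖ ^ 2 - ⟪x - y, P j x (x - y)⟫) / (2 * ρ) ^ 2 :=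
      div_nonneg (sub_nonneg.2 (inner_le_of_norm ((h.stat j).nrm x) _)) (by positivity)
    have h5 : 0 ≤ max 0 (1 - ‖x - y‖ ^ 2 / (2 * ρ) ^ 2) := le_max_left _ _
    rw [wt0']
    nlinarith [mul_nonneg h5 h4]
  calc ∫ x in ball y ρ, ‖(x - y) - P j x (x - y)‖ ^ 2 ∂(μ j)
      ≤ ∫ x in ball y ρ, 8 * ρ ^ 2 / 3 * Df (P j) y (2 * ρ) x ∂(μ j) := by
        apply setIntegral_mono_on (int_sq' (h.stat j).meas (h.stat j).nrm y y ρ)
          (h2.const_mul _).integrableOn measurableSet_ball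
        intro x hx
        refine (sq_le ((h.stat j).nrm x) (x - y)).trans ?_
        unfold Df
        set A := ‖x - y‖ ^ 2 - ⟪x - y, P j x (x - y)⟫ with hA
        have hA0 : 0 ≤ A := sub_nonneg.2 (inner_le_of_norm ((h.stat j).nrm x) _)
        rw [mem_ball, dist_eq_norm] at hx
        have h6 : ‖x - y‖ ^ 2 / (2 * ρ) ^ 2 ≤ 1 / 4 := by
          rw [div_le_iff₀ (by positivity)]
          have := pow_le_pow_left₀ (norm_nonneg _) hx.le 2
          linarith
        have h7 : 3 / 4 ≤ max 0 (1 - ‖x - y‖ ^ 2 / (2 * ρ) ^ 2) :=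
          le_trans (by linarith) (le_max_right _ _)
        rw [wt0']
        have e : 8 * ρ ^ 2 / 3 * (-2 * -(2 * max 0 (1 - ‖x - y‖ ^ 2 / (2 * ρ) ^ 2)) *
            (A / (2 * ρ) ^ 2)) = 8 / 3 * max 0 (1 - ‖x - y‖ ^ 2 / (2 * ρ) ^ 2) * A := by
          field_simp
        rw [e]
        nlinarith
    _ ≤ ∫ x, 8 * ρ ^ 2 / 3 * Df (P j) y (2 * ρ) x ∂(μ j) :=
        setIntegral_le_integral (h2.const_mul _)
          (Eventually.of_forall fun x => mul_nonneg (by positivity) (h3 x))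

/-- the asymptotically tangential directions -/
def WS {ι : Type*} (l : Filter ι) (μ : ι → Measure (E N)) (P : ι → E N → E N →L[ℝ] E N) :
    Set (E N) :=
  {v | ∀ ρ : ℝ, 0 < ρ → Tendsto (fun j => ∫ x in ball 0 ρ, ‖v - P j x v‖ ^ 2 ∂(μ j))
    l (𝓝 0)}

lemma Sit.Sg_sub (h : Sit l m κ μ P L G ν) (hm : 1 ≤ m) (h0 : (0 : E N) ∈ Sg m κ ν) :
    Sg m κ ν ⊆ WS l μ P := by
  have := h.fin
  intro y hy ρ hρ
  have h1 := h.sq_tendsto hm h0 hρ
  have h2 := h.sq_tendsto hm hy (show 0 < ρ + ‖y‖ by positivity)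
  have h3 := (h1.const_mul 2).add (h2.const_mul 2)
  rw [mul_zero, add_zero] at h3
  apply squeeze_zero (fun j => integral_nonneg fun x => by positivity) ?_ h3
  intro j
  have i1 := int_sq' (μ := μ j) (h.stat j).meas (h.stat j).nrm (0 : E N) 0 ρ
  have i2 := int_sq' (μ := μ j) (h.stat j).meas (h.stat j).nrm y y (ρ + ‖y‖)
  have i3 := int_sq' (μ := μ j) (h.stat j).meas (h.stat j).nrm y 0 ρ
  have hsub : ball (0 : E N) ρ ⊆ ball y (ρ + ‖y‖) := by
    apply ball_subset_ball'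
    rw [dist_zero_left]
  have h4 : ∫ x in ball 0 ρ, ‖(x - y) - P j x (x - y)‖ ^ 2 ∂(μ j) ≤
      ∫ x in ball y (ρ + ‖y‖), ‖(x - y) - P j x (x - y)‖ ^ 2 ∂(μ j) :=
    setIntegral_mono_set i2 (Eventually.of_forall fun x => by positivity)
      (LE.le.eventuallyLE hsub)
  calc ∫ x in ball 0 ρ, ‖y - P j x y‖ ^ 2 ∂(μ j)
      ≤ ∫ x in ball 0 ρ, (2 * ‖(x - 0) - P j x (x - 0)‖ ^ 2 +
          2 * ‖(x - y) - P j x (x - y)‖ ^ 2) ∂(μ j) := by
        apply setIntegral_mono_on (int_sq (h.stat j).meas (h.stat j).nrm y ρ)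
          ((i1.const_mul 2).add (i3.const_mul 2)) measurableSet_ball
        intro x _
        have e : y - P j x y = ((x - 0) - P j x (x - 0)) - ((x - y) - P j x (x - y)) := by
          rw [sub_zero, map_sub]
          abel
        rw [e]
        change _ ≤ 2 * ‖(x - 0) - P j x (x - 0)‖ ^ 2 + 2 * ‖(x - y) - P j x (x - y)‖ ^ 2
        set a := (x - 0) - P j x (x - 0)
        set b := (x - y) - P j x (x - y)
        have h5 := norm_sub_le a b
        have h6 : ‖a - b‖ ^ 2 ≤ (‖a‖ + ‖b‖) ^ 2 := pow_le_pow_left₀ (norm_nonneg _) h5 2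
        nlinarith [sq_nonneg (‖a‖ - ‖b‖)]
    _ = 2 * ∫ x in ball 0 ρ, ‖(x - 0) - P j x (x - 0)‖ ^ 2 ∂(μ j) +
          2 * ∫ x in ball 0 ρ, ‖(x - y) - P j x (x - y)‖ ^ 2 ∂(μ j) := by
        rw [integral_add (i1.const_mul 2) (i3.const_mul 2), integral_const_mul,
          integral_const_mul]
    _ ≤ _ := by linarith

/-- the subspace of the asymptotically tangential directions -/
def Sit.W (h : Sit l m κ μ P L G ν) : Submodule ℝ (E N) where
  carrier := WS l μ P
  zero_mem' := by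
    intro ρ _
    simp
  add_mem' := by
    have := h.fin
    intro a b ha hb ρ hρ
    have h3 := ((ha ρ hρ).const_mul 2).add ((hb ρ hρ).const_mul 2)
    rw [mul_zero, add_zero] at h3
    apply squeeze_zero (fun j => integral_nonneg fun x => by positivity) ?_ h3
    intro j
    have i1 := int_sq (μ := μ j) (h.stat j).meas (h.stat j).nrm a ρ
    have i2 := int_sq (μ := μ j) (h.stat j).meas (h.stat j).nrm b ρ
    rw [← integral_const_mul, ← integral_const_mul,
      ← integral_add (i1.const_mul 2) (i2.const_mul 2)]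
    apply setIntegral_mono_on (int_sq (h.stat j).meas (h.stat j).nrm (a + b) ρ)
      ((i1.const_mul 2).add (i2.const_mul 2)) measurableSet_ball
    intro x _
    have e : a + b - P j x (a + b) = (a - P j x a) + (b - P j x b) := by
      rw [map_add]
      abel
    rw [e]
    change _ ≤ 2 * ‖a - P j x a‖ ^ 2 + 2 * ‖b - P j x b‖ ^ 2
    have h5 := norm_add_le (a - P j x a) (b - P j x b)
    have h6 := pow_le_pow_left₀ (norm_nonneg _) h5 2
    nlinarith [sq_nonneg (‖a - P j x a‖ - ‖b - P j x b‖)]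
  smul_mem' := by
    intro c a ha ρ hρ
    have h3 := (ha ρ hρ).const_mul (c ^ 2)
    rw [mul_zero] at h3
    apply h3.congr
    intro j
    rw [← integral_const_mul]
    congr 1
    funext x
    rw [map_smul, ← smul_sub, norm_smul, mul_pow, Real.norm_eq_abs, sq_abs]

end Pool.Agent.Q160.FT
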