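import Pool.Agent.TH337.VF.Dens
import Mathlib.MeasureTheory.Measure.Haar.Unique
import Mathlib.Analysis.InnerProductSpace.PiL2

/-!
A measure which is invariant along a subspace `W` of positive measure and whose balls about `0`
have measure `κ s ^ m` is a multiple of Lebesgue measure on an `m`-dimensional subspace.
-/

set_option autoImplicit false

namespace Pool.Agent.Q160.FT

open MeasureTheory Set Filter Topology Metric Pool.Agent.TH337.VF
open scoped ENNReal NNReal RealInnerProductSpace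

variable {N : ℕ}

lemma pow_cmp {A κ : ℝ} (hA : 0 < A) {d m : ℕ} (h : ∀ s : ℝ, 0 < s → A * s ^ d ≤ κ * s ^ m) :
    d = m := by
  by_contra hne
  rcases lt_or_gt_of_ne hne with hlt | hgt
  · obtain ⟨k, rfl⟩ := Nat.exists_eq_add_of_lt hlt
    have h1 : ∀ s : ℝ, 0 < s → A ≤ κ * s ^ (k + 1) := by
      intro s hs
      have h2 := h s hs
      have h3 : κ * s ^ (d + k + 1) = (κ * s ^ (k + 1)) * s ^ d := by ring
      rw [h3] at h2
      exact le_of_mul_le_mul_right h2 (by positivity)
    have h4 : Tendsto (fun s : ℝ => κ * s ^ (k + 1)) (𝓝[>] 0) (𝓝 (κ * 0 ^ (k + 1))) := by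
      apply tendsto_nhdsWithin_of_tendsto_nhds
      have : Continuous fun s : ℝ => κ * s ^ (k + 1) := by fun_prop
      exact this.tendsto 0
    rw [zero_pow (by omega), mul_zero] at h4
    have h5 : A ≤ 0 := by
      apply ge_of_tendsto h4
      filter_upwards [self_mem_nhdsWithin] with s hs
      exact h1 s hs
    linarith
  · obtain ⟨k, rfl⟩ := Nat.exists_eq_add_of_lt hgt
    set s : ℝ := |κ| / A + 1 with hs
    have hs1 : 1 ≤ s := by
      have : 0 ≤ |κ| / A := by positivity
      linarith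
    have hs0 : 0 < s := by linarith
    have h2 := h s hs0
    have h3 : A * s ^ (m + k + 1) = (A * s ^ (k + 1)) * s ^ m := by ring
    rw [h3] at h2
    have h4 := le_of_mul_le_mul_right h2 (by positivity)
    have h5 : s ≤ s ^ (k + 1) := le_self_pow₀ hs1 (by omega)
    have h6 : A * s = |κ| + A := by
      rw [hs]
      field_simp
    have h7 : A * s ≤ A * s ^ (k + 1) := mul_le_mul_of_nonneg_left h5 hA.le
    linarith [le_abs_self κ]

/-- coordinates along a subspace -/
lemma exists_coord (W : Submodule ℝ (E N)) : ∃ (d : ℕ) (Lc : E d →ₗᵢ[ℝ] E N) (p : E N →L[ℝ] E d),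
    (∀ a, p (Lc a) = a) ∧ (∀ a, Lc a ∈ W) ∧ (∀ x ∈ W, Lc (p x) = x) ∧
    (∀ x, ‖p x‖ ≤ ‖x‖) ∧ (∀ x, ‖x - Lc (p x)‖ ≤ ‖x‖) := by
  set T := (stdOrthonormalBasis ℝ W).repr with hT
  refine ⟨Module.finrank ℝ W, W.subtypeₗᵢ.comp T.symm.toLinearIsometry,
    (T.toContinuousLinearEquiv : W →L[ℝ] _).comp W.orthogonalProjectionOnto, ?_, ?_, ?_, ?_, ?_⟩
  · intro a
    simp
  · intro a
    simp
  · intro x hx
    simp [Submodule.starProjection_eq_self_iff.2 hx]
  · intro x
    simp only [ContinuousLinearMap.coe_comp, Function.comp_apply]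
    have : ‖T (W.orthogonalProjectionOnto x)‖ = ‖W.orthogonalProjectionOnto x‖ := T.norm_map _
    refine (le_of_eq this).trans ?_
    exact W.norm_orthogonalProjectionOnto_apply_le x
  · intro x
    have e : (W.subtypeₗᵢ.comp T.symm.toLinearIsometry)
        (((T.toContinuousLinearEquiv : W →L[ℝ] _).comp W.orthogonalProjectionOnto) x) =
        W.starProjection x := by
      simp
    rw [e]
    have h1 : x - W.starProjection x = Wᗮ.starProjection x := by
      rw [sub_eq_iff_eq_add, add_comm]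
      exact (Submodule.starProjection_add_starProjection_orthogonal (K := W) x).symm
    rw [h1]
    exact Wᗮ.norm_orthogonalProjectionOnto_apply_le x

variable {d : ℕ} {Lc : E d →ₗᵢ[ℝ] E N} {p : E N →L[ℝ] E d} {ν : Measure (E N)}

/-- restrictions to invariant sets of bounded height are multiples of Lebesgue measure -/
lemma exists_scalar [IsFiniteMeasureOnCompacts ν] (hp : ∀ a, p (Lc a) = a)
    (hinv : ∀ a, ν.map (fun x => x + Lc a) = ν) {S : Set (E N)} (hS : MeasurableSet S)
    (hSinv : ∀ x a, x + Lc a ∈ S ↔ x ∈ S) {B : ℝ} (hB : ∀ x ∈ S, ‖x - Lc (p x)‖ ≤ B) :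
    ∃ c : ℝ≥0, ∀ A : Set (E d), MeasurableSet A → ν (p ⁻¹' A ∩ S) = c * volume A := by
  have hfin : IsFiniteMeasureOnCompacts ((ν.restrict S).map p) := by
    refine ⟨fun K hK => ?_⟩
    rw [Measure.map_apply p.measurable hK.measurableSet,
      Measure.restrict_apply (p.measurable hK.measurableSet)]
    obtain ⟨R, hR⟩ := hK.isBounded.subset_closedBall 0
    refine (measure_mono (t := closedBall (0 : E N) (R + B)) ?_).trans_lt
      (isCompact_closedBall _ _).measure_lt_top
    rintro x ⟨hx1, hx2⟩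
    have h1 := hR hx1
    rw [mem_closedBall_zero_iff] at h1 ⊢
    calc ‖x‖ = ‖Lc (p x) + (x - Lc (p x))‖ := by rw [add_sub_cancel]
      _ ≤ ‖Lc (p x)‖ + ‖x - Lc (p x)‖ := norm_add_le _ _
      _ ≤ R + B := by
        rw [Lc.norm_map]
        linarith [hB x hx2]
  have hleft : ((ν.restrict S).map p).IsAddLeftInvariant := by
    refine ⟨fun a => ?_⟩
    have hm1 : Measurable fun x : E N => x + Lc a := by fun_prop
    have h1 : (ν.restrict S).map (fun x => x + Lc a) = ν.restrict S := by
      have h2 := Measure.restrict_map (μ := ν) hm1 hS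
      rw [hinv a] at h2
      have h3 : (fun x : E N => x + Lc a) ⁻¹' S = S := by
        ext x
        exact hSinv x a
      rw [h3] at h2
      exact h2.symm
    rw [Measure.map_map (by fun_prop) p.measurable]
    conv_rhs => rw [← h1]
    rw [Measure.map_map p.measurable hm1]
    congr 1
    funext x
    simp only [Function.comp_apply, map_add, hp]
    rw [add_comm]
  have h4 := Measure.isAddLeftInvariant_eq_smul ((ν.restrict S).map p) volume
  refine ⟨Measure.addHaarScalarFactor ((ν.restrict S).map p) volume, fun A hA => ?_⟩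
  have h5 : ((ν.restrict S).map p) A = ν (p ⁻¹' A ∩ S) := by
    rw [Measure.map_apply p.measurable hA, Measure.restrict_apply (p.measurable hA)]
  rw [← h5]
  conv_lhs => rw [h4]
  rfl

lemma vol_ball (s : ℝ) (hs : 0 < s) :
    (volume : Measure (E d)).real (ball 0 s) =
      s ^ d * (volume : Measure (E d)).real (ball 0 1) := by
  rw [Measure.real, Measure.addHaar_ball_of_pos volume (0 : E d) hs, ENNReal.toReal_mul,
    ENNReal.toReal_ofReal (by positivity), finrank_euclideanSpace_fin]
  rfl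

theorem flat {m : ℕ} {κ : ℝ} [IsFiniteMeasureOnCompacts ν] (W : Submodule ℝ (E N))
    (hinv : ∀ e ∈ W, ν.map (fun x => x + e) = ν)
    (hup : ∀ s : ℝ, 0 < s → ν.real (closedBall 0 s) ≤ κ * s ^ m)
    (hlow : ∀ s : ℝ, 0 < s → κ * s ^ m ≤ ν.real (ball 0 s)) (hpos : ν (W : Set (E N)) ≠ 0) :
    ∃ (L : E m →ₗᵢ[ℝ] E N) (c : ℝ≥0), (c : ℝ) * (volume : Measure (E m)).real (ball 0 1) = κ ∧
      (∀ a, L a ∈ W) ∧ ν = (c : ℝ≥0∞) • (volume : Measure (E m)).map L := by
  obtain ⟨d, Lc, p, hp1, hp2, hp3, hp4, hp5⟩ := exists_coord W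
  have hmq : Measurable fun x : E N => ‖x - Lc (p x)‖ := by
    have : Continuous fun x : E N => ‖x - Lc (p x)‖ :=
      (continuous_id.sub (Lc.continuous.comp p.continuous)).norm
    exact this.measurable
  have hinv' : ∀ a, ν.map (fun x => x + Lc a) = ν := fun a => hinv _ (hp2 a)
  have hq : ∀ x a, (x + Lc a) - Lc (p (x + Lc a)) = x - Lc (p x) := by
    intro x a
    rw [map_add, hp1, map_add]
    abel
  have hWq : ∀ x, x ∈ W ↔ ‖x - Lc (p x)‖ = 0 := by
    intro x
    constructor
    · intro hx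
      rw [hp3 x hx, sub_self, norm_zero]
    · intro hx
      rw [norm_eq_zero, sub_eq_zero] at hx
      rw [hx]
      exact hp2 _
  have hWcl : IsClosed (W : Set (E N)) := W.closed_of_finiteDimensional
  have hbf : ∀ s : ℝ, ν (ball 0 s) ≠ ⊤ := fun s =>
    ((measure_mono ball_subset_closedBall).trans_lt
      (isCompact_closedBall (0 : E N) s).measure_lt_top).ne
  -- the part in `W`
  obtain ⟨c, hc⟩ := exists_scalar (ν := ν) hp1 hinv' hWcl.measurableSet
    (fun x a => by
      rw [SetLike.mem_coe, SetLike.mem_coe, hWq, hWq, hq]) (B := 0)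
    (fun x hx => ((hWq x).1 hx).le)
  have hc0 : 0 < c := by
    rw [pos_iff_ne_zero]
    rintro rfl
    apply hpos
    have h1 := hc univ MeasurableSet.univ
    rw [preimage_univ, univ_inter] at h1
    rw [h1]
    simp
  have hin : ∀ s : ℝ, (p ⁻¹' ball 0 s) ∩ (W : Set (E N)) = ball 0 s ∩ W := by
    intro s
    ext x
    simp only [mem_inter_iff, mem_preimage, mem_ball_zero_iff, SetLike.mem_coe]
    constructor
    · rintro ⟨h1, h2⟩
      refine ⟨?_, h2⟩
      rw [← hp3 x h2, Lc.norm_map]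
      exact h1
    · rintro ⟨h1, h2⟩
      exact ⟨(hp4 x).trans_lt h1, h2⟩
  have hcW : ∀ s : ℝ, 0 < s → ν.real (ball 0 s ∩ W) =
      c * (volume : Measure (E d)).real (ball 0 1) * s ^ d := by
    intro s hs
    have h1 := hc (ball 0 s) measurableSet_ball
    rw [hin s] at h1
    rw [Measure.real, h1, ENNReal.toReal_mul, ENNReal.coe_toReal]
    have h2 := vol_ball (d := d) s hs
    rw [Measure.real] at h2
    rw [h2]
    ring
  have hω : ∀ d : ℕ, 0 < (volume : Measure (E d)).real (ball 0 1) := fun d =>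
    ENNReal.toReal_pos (measure_ball_pos volume _ one_pos).ne' measure_ball_lt_top.ne
  have hA : 0 < (c : ℝ) * (volume : Measure (E d)).real (ball 0 1) :=
    mul_pos (by exact_mod_cast hc0) (hω d)
  have hle : ∀ s : ℝ, 0 < s → c * (volume : Measure (E d)).real (ball 0 1) * s ^ d ≤
      κ * s ^ m := by
    intro s hs
    rw [← hcW s hs]
    refine le_trans ?_ (hup s hs)
    exact measureReal_mono (inter_subset_left.trans ball_subset_closedBall)
      (isCompact_closedBall (0 : E N) s).measure_lt_top.ne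
  have hdm := pow_cmp hA hle
  subst hdm
  set ω := (volume : Measure (E d)).real (ball 0 1) with hωdef
  have hω0 : 0 < ω := hω d
  have hcκ : c * ω ≤ κ := by
    have := hle 1 one_pos
    simpa using this
  -- the part off `W`
  set S : ℕ → Set (E N) := fun n => {x | 0 < ‖x - Lc (p x)‖ ∧ ‖x - Lc (p x)‖ < 1 / ((n : ℝ) + 1)}
    with hSdef
  have hSm : ∀ n, MeasurableSet (S n) := fun n =>
    (measurableSet_lt measurable_const hmq).inter (measurableSet_lt hmq measurable_const)
  have hex : ∀ n, ∃ c : ℝ≥0, ∀ A : Set (E d), MeasurableSet A →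
      ν (p ⁻¹' A ∩ S n) = c * volume A := by
    intro n
    refine exists_scalar (ν := ν) hp1 hinv' (hSm n) (B := 1 / ((n : ℝ) + 1))
      (fun x a => ?_) (fun x hx => hx.2.le)
    simp only [hSdef, mem_ofPred_eq, hq]
  choose cn hcn using hex
  have hcn0 : Tendsto (fun n => (cn n : ℝ≥0∞) * volume (ball (0 : E d) 1)) atTop (𝓝 0) := by
    have h1 : Tendsto (fun n => ν (p ⁻¹' (ball 0 1) ∩ S n)) atTop
        (𝓝 (ν (⋂ n, p ⁻¹' (ball 0 1) ∩ S n))) := by
      apply tendsto_measure_iInter_atTop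
      · intro n
        exact ((p.measurable measurableSet_ball).inter (hSm n)).nullMeasurableSet
      · intro a b hab
        apply inter_subset_inter_right
        rintro x ⟨hx1, hx2⟩
        refine ⟨hx1, hx2.trans_le ?_⟩
        have : (a : ℝ) ≤ b := by exact_mod_cast hab
        gcongr
      · refine ⟨0, ?_⟩
        rw [hcn 0 _ measurableSet_ball]
        exact ENNReal.mul_ne_top ENNReal.coe_ne_top measure_ball_lt_top.ne
    have h2 : (⋂ n, p ⁻¹' (ball (0 : E d) 1) ∩ S n) = ∅ := by
      rw [eq_empty_iff_forall_notMem]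
      intro x hx
      rw [mem_iInter] at hx
      have h3 : 0 < ‖x - Lc (p x)‖ := (hx 0).2.1
      obtain ⟨n, hn⟩ := exists_nat_one_div_lt h3
      have h4 := (hx n).2.2
      linarith
    rw [h2, measure_empty] at h1
    refine h1.congr fun n => ?_
    exact hcn n _ measurableSet_ball
  have hκn : ∀ n, ENNReal.ofReal κ ≤ ENNReal.ofReal (c * ω) +
      (cn n : ℝ≥0∞) * volume (ball (0 : E d) 1) := by
    intro n
    set s : ℝ := 1 / ((n : ℝ) + 1) with hs
    have hs0 : 0 < s := by positivity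
    have h1 : ν (ball 0 s) ≤ ν (p ⁻¹' (ball 0 s) ∩ (W : Set (E N))) +
        ν (p ⁻¹' (ball 0 s) ∩ S n) := by
      refine (measure_mono ?_).trans (measure_union_le _ _)
      intro x hx
      rw [mem_ball_zero_iff] at hx
      have h2 : x ∈ p ⁻¹' (ball (0 : E d) s) := by
        rw [mem_preimage, mem_ball_zero_iff]
        exact (hp4 x).trans_lt hx
      by_cases hxW : x ∈ W
      · exact Or.inl ⟨h2, hxW⟩
      · refine Or.inr ⟨h2, ?_, (hp5 x).trans_lt hx⟩
        exact lt_of_le_of_ne (norm_nonneg _) fun h3 => hxW ((hWq x).2 h3.symm)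
    rw [hc _ measurableSet_ball, hcn n _ measurableSet_ball] at h1
    have h2 : volume (ball (0 : E d) s) = ENNReal.ofReal (s ^ d) * volume (ball (0 : E d) 1) := by
      rw [Measure.addHaar_ball_of_pos volume (0 : E d) hs0, finrank_euclideanSpace_fin]
    have h3 : ENNReal.ofReal (κ * s ^ d) ≤ ν (ball 0 s) := by
      rw [← ENNReal.ofReal_toReal (hbf s)]
      exact ENNReal.ofReal_le_ofReal (hlow s hs0)
    have h4 := h3.trans h1
    rw [h2, mul_comm κ, ENNReal.ofReal_mul (by positivity)] at h4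
    have h5 : (c : ℝ≥0∞) * (ENNReal.ofReal (s ^ d) * volume (ball (0 : E d) 1)) +
        (cn n : ℝ≥0∞) * (ENNReal.ofReal (s ^ d) * volume (ball (0 : E d) 1)) =
        ENNReal.ofReal (s ^ d) * ((c : ℝ≥0∞) * volume (ball (0 : E d) 1) +
          (cn n : ℝ≥0∞) * volume (ball (0 : E d) 1)) := by ring
    rw [h5] at h4
    have h6 := (ENNReal.mul_le_mul_iff_right (ENNReal.ofReal_pos.2 (by positivity)).ne'
      ENNReal.ofReal_ne_top).1 h4
    refine h6.trans (le_of_eq ?_)
    congr 1
    rw [ENNReal.ofReal_mul (by positivity), ENNReal.ofReal_coe_nnreal, hωdef, Measure.real,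
      ENNReal.ofReal_toReal measure_ball_lt_top.ne]
  have hκc : κ = c * ω := by
    refine le_antisymm ?_ hcκ
    have h1 : ENNReal.ofReal κ ≤ ENNReal.ofReal (c * ω) + 0 :=
      ge_of_tendsto' (hcn0.const_add _) hκn
    rw [add_zero] at h1
    exact (ENNReal.ofReal_le_ofReal_iff hA.le).1 h1
  -- the complement of `W` is null
  have hnull : ν (W : Set (E N))ᶜ = 0 := by
    have h1 : ∀ n : ℕ, ν (ball 0 ((n : ℝ) + 1) \ W) = 0 := by
      intro n
      have hs0 : (0:ℝ) < (n : ℝ) + 1 := by positivity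
      have h2 := measure_inter_add_sdiff (μ := ν) (ball (0 : E N) ((n : ℝ) + 1))
        hWcl.measurableSet
      have h3 : ν.real (ball 0 ((n : ℝ) + 1)) ≤ ν.real (ball 0 ((n : ℝ) + 1) ∩ W) := by
        rw [hcW _ hs0, ← hκc]
        refine le_trans ?_ (hup _ hs0)
        exact measureReal_mono ball_subset_closedBall
          (isCompact_closedBall (0 : E N) _).measure_lt_top.ne
      have h4 : ν (ball 0 ((n : ℝ) + 1) ∩ W) ≠ ⊤ :=
        ((measure_mono inter_subset_left).trans_lt (hbf _).lt_top).ne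
      have h5 : ν (ball 0 ((n : ℝ) + 1)) ≤ ν (ball 0 ((n : ℝ) + 1) ∩ W) :=
        (ENNReal.toReal_le_toReal (hbf _) h4).1 h3
      rw [← h2] at h5
      have h6 : ν (ball 0 ((n : ℝ) + 1) ∩ W) + ν (ball 0 ((n : ℝ) + 1) \ W) ≤
          ν (ball 0 ((n : ℝ) + 1) ∩ W) + 0 := by rwa [add_zero]
      exact le_antisymm ((ENNReal.add_le_add_iff_left h4).1 h6) bot_le
    have h2 : (W : Set (E N))ᶜ ⊆ ⋃ n : ℕ, ball 0 ((n : ℝ) + 1) \ (W : Set (E N)) := by
      intro x hx
      obtain ⟨n, hn⟩ := exists_nat_gt ‖x‖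
      refine mem_iUnion.2 ⟨n, ?_, hx⟩
      rw [mem_ball_zero_iff]
      linarith
    exact measure_mono_null h2 (measure_iUnion_null h1)
  refine ⟨Lc, c, hκc.symm, hp2, ?_⟩
  ext A hA'
  rw [Measure.smul_apply, smul_eq_mul, Measure.map_apply Lc.continuous.measurable hA',
    ← hc _ (Lc.continuous.measurable hA')]
  have h1 : p ⁻¹' (Lc ⁻¹' A) ∩ (W : Set (E N)) = A ∩ W := by
    ext x
    simp only [mem_inter_iff, mem_preimage, SetLike.mem_coe]
    constructor
    · rintro ⟨h1, h2⟩
      rw [hp3 x h2] at h1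
      exact ⟨h1, h2⟩
    · rintro ⟨h1, h2⟩
      refine ⟨?_, h2⟩
      rw [hp3 x h2]
      exact h1
  rw [h1]
  refine le_antisymm ?_ (measure_mono inter_subset_left)
  calc ν A ≤ ν (A ∩ W) + ν (A \ W) := by rw [measure_inter_add_sdiff A hWcl.measurableSet]
    _ ≤ ν (A ∩ W) + 0 := by
        gcongr
        exact (measure_mono_null (fun x hx => hx.2) hnull).le
    _ = ν (A ∩ W) := add_zero _

end Pool.Agent.Q160.FT
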