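import Pool.Agent.Q160.FT.Cone
import Mathlib.Analysis.Calculus.BumpFunction.FiniteDimension
import Mathlib.MeasureTheory.Measure.Haar.Unique

/-!
The limit measure is invariant under the translations along the asymptotically tangential
directions.
-/

set_option autoImplicit false

namespace Pool.Agent.Q160.FT

open MeasureTheory Set Filter Topology Metric Pool.Agent.TH337.VF
open scoped ENNReal RealInnerProductSpace

variable {N : ℕ}

variable {ι : Type*} {l : Filter ι} [l.NeBot] {m : ℕ} {κ : ℝ} {μ : ι → Measure (E N)}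
  {P : ι → E N → E N →L[ℝ] E N} {L : ι → ℝ} {G : ι → Set (E N)} {ν : Measure (E N)}

lemma exists_rad {φ : E N → ℝ} (hc : HasCompactSupport φ) :
    ∃ ρ : ℝ, 0 < ρ ∧ tsupport φ ⊆ ball 0 ρ := by
  obtain ⟨ρ, hρ⟩ := (show IsCompact (tsupport φ) from hc).isBounded.subset_ball 0
  exact ⟨max ρ 1, by positivity, hρ.trans (ball_subset_ball (le_max_left _ _))⟩

lemma fderiv_off {φ : E N → ℝ} {x : E N} (hx : x ∉ tsupport φ) : fderiv ℝ φ x = 0 := by
  by_contra hc
  exact hx (support_fderiv_subset ℝ (by simpa using hc))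

/-- directional derivatives along the asymptotically tangential directions have integral zero -/
lemma Sit.deriv_zero (h : Sit l m κ μ P L G ν) {e : E N} (he : e ∈ WS l μ P) {φ : E N → ℝ}
    (hφ : ContDiff ℝ 1 φ) (hc : HasCompactSupport φ) : ∫ x, fderiv ℝ φ x e ∂ν = 0 := by
  have := h.fin
  obtain ⟨ρ, hρ, hsub⟩ := exists_rad hc
  have hfd : Continuous (fun x => fderiv ℝ φ x) := hφ.continuous_fderiv one_ne_zero
  have hfc : HasCompactSupport (fun x => fderiv ℝ φ x) := hc.fderiv ℝ
  obtain ⟨C, hC⟩ := hfd.bounded_above_of_compact_support hfc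
  have hC0 : 0 ≤ C := (norm_nonneg _).trans (hC 0)
  have hz : ∀ x, x ∉ ball (0 : E N) ρ → fderiv ℝ φ x = 0 := fun x hx =>
    fderiv_off fun hx' => hx (hsub hx')
  have hmeasP : ∀ j, Measurable fun x => fderiv ℝ φ x (P j x e) := fun j =>
    isBoundedBilinearMap_apply.continuous.measurable.comp
      (hfd.measurable.prodMk (meas_app (h.stat j).meas measurable_const))
  have hbP : ∀ j x, ‖fderiv ℝ φ x (P j x e)‖ ≤ C * ‖e‖ := by
    intro j x
    refine ((fderiv ℝ φ x).le_opNorm _).trans ?_
    have h1 := (P j x).le_opNorm e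
    have h2 := (h.stat j).nrm x
    have h3 : ‖P j x e‖ ≤ ‖e‖ := by nlinarith [norm_nonneg e]
    exact mul_le_mul (hC x) h3 (norm_nonneg _) hC0
  have hintP : ∀ j, Integrable (fun x => fderiv ℝ φ x (P j x e)) (μ j) := fun j =>
    Integrable.of_bound (hmeasP j).aestronglyMeasurable (C * ‖e‖)
      (Eventually.of_forall (hbP j))
  have hcont : Continuous fun x => fderiv ℝ φ x e := hfd.clm_apply continuous_const
  have hcs : HasCompactSupport fun x => fderiv ℝ φ x e := by
    apply HasCompactSupport.intro (isCompact_closedBall (0 : E N) ρ)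
    intro x hx
    rw [hz x fun hx' => hx (ball_subset_closedBall hx')]
    rfl
  -- stationarity
  have h1 : ∀ᶠ j in l, ∫ x, fderiv ℝ φ x (P j x e) ∂(μ j) = 0 := by
    filter_upwards [h.sub 0 ρ] with j hj
    have hX : ContDiff ℝ 1 (fun x => φ x • e) := hφ.smul contDiff_const
    have hXc : HasCompactSupport (fun x => φ x • e) := hc.smul_right
    have hXs : tsupport (fun x => φ x • e) ⊆ ball 0 (L j) :=
      ((tsupport_smul_subset_left φ (fun _ => e)).trans hsub).trans
        (ball_subset_closedBall.trans hj)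
    have h2 := (h.stat j).stat _ hX hXc hXs
    rw [← h2]
    congr 1
    funext x
    have h3 : fderiv ℝ (fun x => φ x • e) x = (fderiv ℝ φ x).smulRight e :=
      (((hφ.differentiable one_ne_zero).differentiableAt (x := x)).hasFDerivAt.smul_const
        e).fderiv
    rw [h3, trc_rank]
  have hlim1 := h.vague _ hcont hcs
  have hlim2 : Tendsto (fun j => ∫ x, fderiv ℝ φ x e ∂(μ j)) l (𝓝 0) := by
    rw [Metric.tendsto_nhds]
    intro δ hδ
    set M := κ * ρ ^ m + 1 with hM
    have hMev : ∀ᶠ j in l, (μ j).real (ball 0 ρ) < M :=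
      (h.ratio ρ hρ).eventually (gt_mem_nhds (by linarith))
    have hM0 : 0 < M := by
      obtain ⟨j, hj⟩ := hMev.exists
      exact lt_of_le_of_lt measureReal_nonneg hj
    set ε := δ / (4 * (C + 1) * M) with hε
    have hε0 : 0 < ε := by positivity
    have hev : ∀ᶠ j in l, ∫ x in ball 0 ρ, ‖e - P j x e‖ ^ 2 ∂(μ j) <
        ε * δ / (4 * (C + 1)) := (he ρ hρ).eventually (gt_mem_nhds (by positivity))
    filter_upwards [h1, hMev, hev] with j hj1 hj2 hj3
    rw [dist_zero_right]
    have h7 : ∫ x, fderiv ℝ φ x e ∂(μ j) =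
        ∫ x in ball 0 ρ, fderiv ℝ φ x (e - P j x e) ∂(μ j) := by
      have h8 : ∫ x in ball 0 ρ, fderiv ℝ φ x (e - P j x e) ∂(μ j) =
          ∫ x, fderiv ℝ φ x (e - P j x e) ∂(μ j) := by
        apply setIntegral_eq_integral_of_forall_compl_eq_zero
        intro x hx
        rw [hz x hx]
        rfl
      rw [h8]
      simp_rw [map_sub]
      rw [integral_sub (hcont.integrable_of_hasCompactSupport hcs) (hintP j), hj1, sub_zero]
    rw [h7]
    have i1 := int_sq (μ := μ j) (h.stat j).meas (h.stat j).nrm e ρ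
    have i2 : IntegrableOn (fun _ : E N => C * ε) (ball 0 ρ) (μ j) :=
      integrableOn_const (measure_ne_top _ _) enorm_ne_top
    have h9 : ‖∫ x in ball 0 ρ, fderiv ℝ φ x (e - P j x e) ∂(μ j)‖ ≤
        ∫ x in ball 0 ρ, (C * ε + C / ε * ‖e - P j x e‖ ^ 2) ∂(μ j) := by
      apply norm_integral_le_of_norm_le (i2.add (i1.const_mul _))
      filter_upwards with x
      refine ((fderiv ℝ φ x).le_opNorm _).trans ?_
      have h10 := hC x
      set a := ‖e - P j x e‖ with ha
      have ha0 : 0 ≤ a := norm_nonneg _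
      have h11 : a ≤ ε + 1 / ε * a ^ 2 := by
        have h12 : 0 ≤ (a - ε) ^ 2 / ε := by positivity
        have h13 : (a - ε) ^ 2 / ε = 1 / ε * a ^ 2 - 2 * a + ε := by
          field_simp
          ring
        linarith
      calc ‖fderiv ℝ φ x‖ * a ≤ C * (ε + 1 / ε * a ^ 2) :=
            mul_le_mul h10 h11 ha0 hC0
        _ = C * ε + C / ε * a ^ 2 := by ring
    have h14 : ∫ x in ball 0 ρ, (C * ε + C / ε * ‖e - P j x e‖ ^ 2) ∂(μ j) =
        (μ j).real (ball 0 ρ) * (C * ε) + C / ε * ∫ x in ball 0 ρ, ‖e - P j x e‖ ^ 2 ∂(μ j) := by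
      rw [integral_add i2 (i1.const_mul _)]
      congr 1
      · rw [setIntegral_const, smul_eq_mul]
      · exact integral_const_mul _ _
    refine lt_of_le_of_lt (h9.trans_eq h14) ?_
    have h15 : (μ j).real (ball 0 ρ) * (C * ε) ≤ M * (C * ε) :=
      mul_le_mul_of_nonneg_right hj2.le (by positivity)
    have h16 : M * (C * ε) ≤ δ / 4 := by
      rw [hε]
      have : M * (C * (δ / (4 * (C + 1) * M))) = δ / 4 * (C / (C + 1)) := by
        field_simp
      rw [this]
      have h17 : C / (C + 1) ≤ 1 := by
        rw [div_le_one (by linarith)]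
        linarith
      nlinarith
    have h18 : C / ε * ∫ x in ball 0 ρ, ‖e - P j x e‖ ^ 2 ∂(μ j) ≤
        C / ε * (ε * δ / (4 * (C + 1))) :=
      mul_le_mul_of_nonneg_left hj3.le (by positivity)
    have h19 : C / ε * (ε * δ / (4 * (C + 1))) ≤ δ / 4 := by
      have : C / ε * (ε * δ / (4 * (C + 1))) = δ / 4 * (C / (C + 1)) := by
        field_simp
      rw [this]
      have h17 : C / (C + 1) ≤ 1 := by
        rw [div_le_one (by linarith)]
        linarith
      nlinarith
    linarith
  exact tendsto_nhds_unique hlim1 hlim2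

lemma Sit.transl (h : Sit l m κ μ P L G ν) {e : E N} (he : e ∈ WS l μ P) {φ : E N → ℝ}
    (hφ : ContDiff ℝ 1 φ) (hc : HasCompactSupport φ) :
    ∫ x, φ (x + e) ∂ν = ∫ x, φ x ∂ν := by
  have := h.locfin
  obtain ⟨ρ, hρ, hsub⟩ := exists_rad hc
  have hfd : Continuous (fun x => fderiv ℝ φ x) := hφ.continuous_fderiv one_ne_zero
  have hfc : HasCompactSupport (fun x => fderiv ℝ φ x) := hc.fderiv ℝ
  obtain ⟨C, hC⟩ := hfd.bounded_above_of_compact_support hfc
  have hC0 : 0 ≤ C := (norm_nonneg _).trans (hC 0)
  have hφc : ∀ t : ℝ, ContDiff ℝ 1 fun x => φ (x + t • e) := fun t =>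
    hφ.comp (contDiff_id.add contDiff_const)
  have hφs : ∀ t : ℝ, HasCompactSupport fun x => φ (x + t • e) := by
    intro t
    apply HasCompactSupport.intro (isCompact_closedBall (0 : E N) (ρ + ‖t • e‖))
    intro x hx
    apply image_eq_zero_of_notMem_tsupport
    intro hx'
    apply hx
    have h1 := hsub hx'
    rw [mem_ball_zero_iff] at h1
    rw [mem_closedBall_zero_iff]
    calc ‖x‖ = ‖(x + t • e) - t • e‖ := by rw [add_sub_cancel_right]
      _ ≤ ‖x + t • e‖ + ‖t • e‖ := norm_sub_le _ _
      _ ≤ _ := by linarith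
  have hfdt : ∀ (t : ℝ) (x : E N),
      fderiv ℝ (fun x => φ (x + t • e)) x = fderiv ℝ φ (x + t • e) := by
    intro t x
    exact fderiv_comp_add_right (t • e)
  have hder : ∀ t : ℝ, HasDerivAt (fun t : ℝ => ∫ x, φ (x + t • e) ∂ν) 0 t := by
    intro t
    set R := ρ + (|t| + 1) * ‖e‖ with hR
    have h1 := hasDerivAt_integral_of_dominated_loc_of_deriv_le (μ := ν) (x₀ := t)
      (s := Ioo (t - 1) (t + 1)) (F := fun t x => φ (x + t • e))
      (F' := fun t x => fderiv ℝ φ (x + t • e) e)
      (bound := (closedBall (0 : E N) R).indicator fun _ => C * ‖e‖)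
      (Ioo_mem_nhds (by linarith) (by linarith)) ?_ ?_ ?_ ?_ ?_ ?_
    · have h2 : ∫ x, fderiv ℝ φ (x + t • e) e ∂ν = 0 := by
        rw [← h.deriv_zero he (hφc t) (hφs t)]
        congr 1
        funext x
        rw [hfdt]
      have h3 := h1.2
      rw [h2] at h3
      exact h3
    · exact Eventually.of_forall fun s => (hφc s).continuous.aestronglyMeasurable
    · exact (hφc t).continuous.integrable_of_hasCompactSupport (hφs t)
    · apply Continuous.aestronglyMeasurable
      exact (hfd.comp (continuous_id.add continuous_const)).clm_apply continuous_const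
    · filter_upwards with x
      intro s hs
      by_cases hx : x ∈ closedBall (0 : E N) R
      · rw [indicator_of_mem hx]
        refine ((fderiv ℝ φ (x + s • e)).le_opNorm _).trans ?_
        exact mul_le_mul_of_nonneg_right (hC _) (norm_nonneg _)
      · rw [indicator_of_notMem hx]
        have h2 : fderiv ℝ φ (x + s • e) = 0 := by
          apply fderiv_off
          intro hx'
          apply hx
          have h3 := hsub hx'
          rw [mem_ball_zero_iff] at h3
          rw [mem_closedBall_zero_iff]
          have h4 : ‖s • e‖ ≤ (|t| + 1) * ‖e‖ := by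
            rw [norm_smul, Real.norm_eq_abs]
            apply mul_le_mul_of_nonneg_right _ (norm_nonneg _)
            have h5 : |s - t| ≤ 1 := by
              rw [abs_le]
              constructor <;> linarith [hs.1, hs.2]
            have h6 : |s| ≤ |s - t| + |t| := by
              have := abs_add_le (s - t) t
              rwa [sub_add_cancel] at this
            linarith
          calc ‖x‖ = ‖(x + s • e) - s • e‖ := by rw [add_sub_cancel_right]
            _ ≤ ‖x + s • e‖ + ‖s • e‖ := norm_sub_le _ _
            _ ≤ R := by linarith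
        rw [h2]
        simp
    · exact (integrable_indicator_iff measurableSet_closedBall).2
        (integrableOn_const (isCompact_closedBall (0 : E N) R).measure_lt_top.ne enorm_ne_top)
    · filter_upwards with x
      intro s _
      have h2 : HasFDerivAt φ (fderiv ℝ φ (x + s • e)) (x + s • e) :=
        ((hφ.differentiable one_ne_zero).differentiableAt).hasFDerivAt
      have h3 : HasDerivAt (fun s : ℝ => x + s • e) e s := by
        have h4 := ((hasDerivAt_id s).smul_const e).const_add x
        rw [one_smul] at h4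
        exact h4
      exact h2.comp_hasDerivAt s h3
  have h2 := is_const_of_deriv_eq_zero (fun t => (hder t).differentiableAt)
    (fun t => (hder t).deriv) 1 0
  simpa using h2

/-- invariance under translations -/
lemma Sit.map_eq (h : Sit l m κ μ P L G ν) {e : E N} (he : e ∈ WS l μ P) :
    ν.map (fun x => x + e) = ν := by
  have := h.locfin
  have hem : MeasurableEmbedding fun x : E N => x + e := (Homeomorph.addRight e).measurableEmbedding
  have hfin : IsFiniteMeasureOnCompacts (ν.map (fun x : E N => x + e)) := by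
    refine ⟨fun K hK => ?_⟩
    rw [hem.map_apply]
    exact ((Homeomorph.addRight e).isCompact_preimage.2 hK).measure_lt_top
  have := isLocallyFiniteMeasure_of_isFiniteMeasureOnCompacts (μ := ν)
  have := isLocallyFiniteMeasure_of_isFiniteMeasureOnCompacts
    (μ := ν.map (fun x : E N => x + e))
  apply Measure.OuterRegular.ext_isOpen_isBounded
  intro O hO hOb
  obtain ⟨f, f1, f2, f3⟩ := hO.exists_contDiff_support_eq (n := 1)
  have hf0 : ∀ x, 0 ≤ f x := fun x => (f3 ⟨x, rfl⟩).1
  have hf1 : ∀ x, f x ≤ 1 := fun x => (f3 ⟨x, rfl⟩).2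
  have hfz : ∀ x, x ∉ O → f x = 0 := by
    intro x hx
    by_contra hc
    exact hx (f1 ▸ hc)
  have hfp : ∀ x ∈ O, 0 < f x := by
    intro x hx
    rw [← f1] at hx
    exact lt_of_le_of_ne (hf0 x) (Ne.symm hx)
  have hcl : IsCompact (closure O) := hOb.isCompact_closure
  set g : ℕ → E N → ℝ := fun k x => 1 - (1 - f x) ^ (k + 1) with hg
  have hgC : ∀ k, ContDiff ℝ 1 (g k) := fun k =>
    contDiff_const.sub ((contDiff_const.sub f2).pow (k + 1))
  have hgz : ∀ k x, x ∉ O → g k x = 0 := by
    intro k x hx
    simp [hg, hfz x hx]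
  have hgS : ∀ k, HasCompactSupport (g k) := fun k =>
    HasCompactSupport.intro hcl fun x hx => hgz k x fun hx' => hx (subset_closure hx')
  have hgb : ∀ k x, 0 ≤ g k x ∧ g k x ≤ 1 := by
    intro k x
    have h1 : 0 ≤ (1 - f x) ^ (k + 1) := pow_nonneg (by linarith [hf1 x]) _
    have h2 : (1 - f x) ^ (k + 1) ≤ 1 := pow_le_one₀ (by linarith [hf1 x]) (by linarith [hf0 x])
    simp only [hg]
    constructor <;> linarith
  have hglim : ∀ x, Tendsto (fun k => g k x) atTop (𝓝 (O.indicator (fun _ => (1:ℝ)) x)) := by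
    intro x
    by_cases hx : x ∈ O
    · rw [indicator_of_mem hx]
      have h1 : Tendsto (fun k : ℕ => (1 - f x) ^ (k + 1)) atTop (𝓝 0) :=
        (tendsto_pow_atTop_nhds_zero_of_lt_one (by linarith [hf1 x])
          (by linarith [hfp x hx])).comp (tendsto_add_atTop_nat 1)
      have h2 := h1.const_sub 1
      rw [sub_zero] at h2
      exact h2
    · rw [indicator_of_notMem hx]
      simp only [hgz _ x hx]
      exact tendsto_const_nhds
  -- the integrals converge
  have key : ∀ (ν' : Measure (E N)), IsFiniteMeasureOnCompacts ν' →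
      Tendsto (fun k => ∫ x, g k x ∂ν') atTop (𝓝 (ν'.real O)) := by
    intro ν' hν'
    have hOt : ν' O ≠ ⊤ := ((measure_mono subset_closure).trans_lt hcl.measure_lt_top).ne
    have e1 : ν'.real O = ∫ x, O.indicator (fun _ => (1:ℝ)) x ∂ν' := by
      rw [integral_indicator hO.measurableSet]
      simp [Measure.real]
    rw [e1]
    apply tendsto_integral_of_dominated_convergence (O.indicator fun _ => (1:ℝ))
    · intro k
      exact (hgC k).continuous.aestronglyMeasurable
    · exact (integrable_indicator_iff hO.measurableSet).2 (integrableOn_const hOt (by simp))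
    · intro k
      filter_upwards with x
      by_cases hx : x ∈ O
      · rw [indicator_of_mem hx, Real.norm_eq_abs, abs_of_nonneg (hgb k x).1]
        exact (hgb k x).2
      · rw [indicator_of_notMem hx, hgz k x hx, norm_zero]
    · filter_upwards with x
      exact hglim x
  have h1 := key ν inferInstance
  have h2 := key _ hfin
  have h3 : ∀ k, ∫ x, g k x ∂(ν.map (fun x => x + e)) = ∫ x, g k x ∂ν := by
    intro k
    rw [hem.integral_map]
    exact h.transl he (hgC k) (hgS k)
  simp_rw [h3] at h2
  have h4 := tendsto_nhds_unique h1 h2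
  have hOt1 : ν O ≠ ⊤ := ((measure_mono subset_closure).trans_lt hcl.measure_lt_top).ne
  have hOt2 : (ν.map (fun x => x + e)) O ≠ ⊤ :=
    ((measure_mono subset_closure).trans_lt hcl.measure_lt_top).ne
  exact ((ENNReal.toReal_eq_toReal_iff' hOt1 hOt2).1 h4).symm

end Pool.Agent.Q160.FT
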