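import Pool.Agent.TH337.VF.Defs
import Mathlib.Analysis.InnerProductSpace.PiL2
import Mathlib.Analysis.InnerProductSpace.Projection.Basic

/-!
Comparison of planes.
-/

set_option autoImplicit false

namespace Pool.Agent.Q160.FT

open MeasureTheory Set Filter Topology Metric Pool.Agent.TH337.VF
open scoped ENNReal RealInnerProductSpace

variable {N m : ℕ}

/-- the projections of an orthonormal family have total square at most the dimension -/
lemma bessel_sum {ι : Type*} [Fintype ι] (T : Submodule ℝ (E N)) {e : ι → E N}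
    (he : Orthonormal ℝ e) : ∑ j, ‖T.starProjection (e j)‖ ^ 2 ≤ Module.finrank ℝ T := by
  classical
  set t := stdOrthonormalBasis ℝ T with ht
  have h1 : ∀ j, ‖T.starProjection (e j)‖ ^ 2 = ∑ k, ⟪e j, (t k : E N)⟫ ^ 2 := by
    intro j
    have h2 := t.sum_sq_norm_inner_right (T.orthogonalProjectionOnto (e j))
    have h3 : ‖T.starProjection (e j)‖ = ‖T.orthogonalProjectionOnto (e j)‖ := rfl
    rw [h3, ← h2]
    refine Finset.sum_congr rfl fun k _ => ?_
    rw [Real.norm_eq_abs, sq_abs]
    congr 1
    have h4 : ⟪t k, T.orthogonalProjectionOnto (e j)⟫ = ⟪(t k : E N), T.starProjection (e j)⟫ := rfl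
    rw [h4, real_inner_comm]
    have h5 := T.inner_starProjection_left_eq_right (e j) (t k : E N)
    rw [h5, Submodule.starProjection_eq_self_iff.2 (t k).2]
  simp_rw [h1]
  rw [Finset.sum_comm]
  calc ∑ k, ∑ j, ⟪e j, (t k : E N)⟫ ^ 2 ≤ ∑ k : Fin (Module.finrank ℝ T), (1 : ℝ) := by
        refine Finset.sum_le_sum fun k _ => ?_
        have h6 := he.sum_inner_products_le (s := Finset.univ) (t k : E N)
        have h7 : ‖(t k : E N)‖ = 1 := by
          have := t.orthonormal.1 k
          exact this
        rw [h7] at h6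
        simp only [Real.norm_eq_abs, sq_abs, one_pow] at h6
        exact h6
    _ = Module.finrank ℝ T := by simp

/-- if `T` nearly contains the plane spanned by `L`, then it is nearly orthogonal to the vectors
orthogonal to this plane -/
lemma proj_perp (T : Submodule ℝ (E N)) (hT : Module.finrank ℝ T = m) (L : E m →ₗᵢ[ℝ] E N)
    {u : E N} (hu : ∀ a, ⟪L a, u⟫ = 0) :
    ‖T.starProjection u‖ ^ 2 ≤
      (∑ i, ‖L (EuclideanSpace.single i 1) - T.starProjection (L (EuclideanSpace.single i 1))‖ ^ 2) *
        ‖u‖ ^ 2 := by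
  classical
  by_cases hu0 : u = 0
  · simp [hu0]
  have hun : 0 < ‖u‖ := norm_pos_iff.2 hu0
  set v : Fin m → E N := fun i => L (EuclideanSpace.single i 1) with hv
  have hvo : Orthonormal ℝ v := by
    have h1 : Orthonormal ℝ (fun i : Fin m => (EuclideanSpace.single i (1 : ℝ) : E m)) :=
      EuclideanSpace.orthonormal_single
    exact h1.comp_linearIsometry L
  set e : Option (Fin m) → E N := fun o => o.elim (‖u‖⁻¹ • u) v with he
  have heo : Orthonormal ℝ e := by
    rw [orthonormal_iff_ite]
    have hvo' := orthonormal_iff_ite.1 hvo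
    intro i j
    cases i with
    | none =>
      cases j with
      | none =>
        simp only [he, Option.elim, if_true]
        rw [real_inner_smul_left, real_inner_smul_right, real_inner_self_eq_norm_sq]
        field_simp
      | some j =>
        simp only [he, Option.elim, reduceCtorEq, if_false]
        rw [real_inner_smul_left, real_inner_comm, hu, mul_zero]
    | some i =>
      cases j with
      | none =>
        simp only [he, Option.elim, reduceCtorEq, if_false]
        rw [real_inner_smul_right, hu, mul_zero]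
      | some j =>
        simp only [he, Option.elim, Option.some.injEq]
        exact hvo' i j
  have h2 := bessel_sum T heo
  rw [Fintype.sum_option, hT] at h2
  simp only [he, Option.elim] at h2
  have h3 : ∀ i, ‖T.starProjection (v i)‖ ^ 2 = 1 - ‖v i - T.starProjection (v i)‖ ^ 2 := by
    intro i
    have h4 := T.norm_sq_eq_add_norm_sq_starProjection (v i)
    have h5 : Tᗮ.starProjection (v i) = v i - T.starProjection (v i) := by
      rw [eq_sub_iff_add_eq, add_comm]
      exact Submodule.starProjection_add_starProjection_orthogonal (K := T) (v i)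
    rw [h5, hvo.1 i] at h4
    linarith
  simp_rw [h3] at h2
  rw [Finset.sum_sub_distrib] at h2
  simp only [Finset.sum_const, Finset.card_univ, Fintype.card_fin, nsmul_eq_mul, mul_one] at h2
  rw [map_smul, norm_smul, norm_inv, norm_norm, mul_pow, inv_pow] at h2
  have h6 : (‖u‖ ^ 2)⁻¹ * ‖T.starProjection u‖ ^ 2 ≤
      ∑ i, ‖v i - T.starProjection (v i)‖ ^ 2 := by linarith
  rw [inv_mul_le_iff₀ (by positivity)] at h6
  linarith

lemma real_comp {z p q w S : ℝ} (hz : 0 ≤ z) (hp : 0 ≤ p) (hq : 0 ≤ q) (hw : w ≤ 1)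
    (hS : 0 ≤ S) (h1 : q ^ 2 ≤ S * z ^ 2) (h2 : z ^ 2 ≤ z * p + q * w) :
    z ^ 2 ≤ 2 * p ^ 2 + 2 * S := by
  set r := Real.sqrt S with hr
  have hr0 : 0 ≤ r := Real.sqrt_nonneg S
  have hr2 : r ^ 2 = S := Real.sq_sqrt hS
  have h3 : q ≤ r * z := by
    apply (pow_le_pow_iff_left₀ hq (by positivity) two_ne_zero).1
    rw [mul_pow, hr2]
    exact h1
  have h4 : q * w ≤ r * z := by nlinarith
  have h5 : z ≤ p + r := by
    rcases hz.eq_or_lt with h0 | h0
    · rw [← h0]; positivity
    · have : z * z ≤ z * (p + r) := by nlinarith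
      exact le_of_mul_le_mul_left this h0
  have h6 : z ^ 2 ≤ (p + r) ^ 2 := by gcongr
  nlinarith [sq_nonneg (p - r)]

/-- comparison: the distance of `w` to the plane spanned by `L` -/
lemma perp_le (T : Submodule ℝ (E N)) (hT : Module.finrank ℝ T = m) (L : E m →ₗᵢ[ℝ] E N)
    (w z : E N) (hz : ∀ a, ⟪L a, z⟫ = 0) (hwz : ⟪z, w⟫ = ‖z‖ ^ 2) (hw : ‖w‖ ≤ 1) :
    ‖z‖ ^ 2 ≤ 2 * ‖w - T.starProjection w‖ ^ 2 +
      2 * ∑ i, ‖L (EuclideanSpace.single i 1) -
        T.starProjection (L (EuclideanSpace.single i 1))‖ ^ 2 := by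
  have h1 := proj_perp T hT L hz
  have hS0 : 0 ≤ ∑ i, ‖L (EuclideanSpace.single i 1) -
        T.starProjection (L (EuclideanSpace.single i 1))‖ ^ 2 :=
    Finset.sum_nonneg fun i _ => by positivity
  generalize (∑ i, ‖L (EuclideanSpace.single i 1) -
        T.starProjection (L (EuclideanSpace.single i 1))‖ ^ 2) = S at h1 hS0 ⊢
  have e1 : ⟪z, w⟫ = ⟪z, w - T.starProjection w⟫ + ⟪T.starProjection z, w⟫ := by
    rw [inner_sub_right, T.inner_starProjection_left_eq_right z w]
    ring
  have h2 : ‖z‖ ^ 2 ≤ ‖z‖ * ‖w - T.starProjection w‖ + ‖T.starProjection z‖ * ‖w‖ := by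
    rw [← hwz, e1]
    exact add_le_add (real_inner_le_norm _ _) (real_inner_le_norm _ _)
  exact real_comp (norm_nonneg _) (norm_nonneg _) (norm_nonneg _) hw hS0 h1 h2

end Pool.Agent.Q160.FT
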