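import Pool.Agent.Q160.FT.Compact
import Mathlib.Algebra.Order.Chebyshev

/-!
The quantitative flatness theorem.
-/

set_option autoImplicit false

namespace Pool.Agent.Q160.FT

open MeasureTheory Set Filter Topology Metric Pool.Agent.TH337.VF
open scoped ENNReal NNReal RealInnerProductSpace

variable {N m : ℕ}

/-- `x` belongs to the support -/
def Supp (μ : Measure (E N)) (x : E N) : Prop := ∀ s : ℝ, 0 < s → μ (ball x s) ≠ 0

lemma exists_supp {μ : Measure (E N)} {O : Set (E N)} (h : μ O ≠ 0) : ∃ x ∈ O, Supp μ x := by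
  obtain ⟨x, hx, h1⟩ := exists_mem_forall_mem_nhdsWithin_pos_measure h
  exact ⟨x, hx, fun s hs => (h1 _ (mem_nhdsWithin_of_mem_nhds (ball_mem_nhds x hs))).ne'⟩

/-- mass bound at the points of the support -/
lemma supp_lower {U : Set (E N)} (hU : IsOpen U) {μ : Measure (E N)} {P : E N → E N →L[ℝ] E N}
    (hS : Stat m U μ P) {θ : ℝ≥0∞} (hθ : θ ≠ ⊤)
    (hd : ∀ᵐ x ∂(μ.restrict U), θ ≤ density m μ x) {x : E N} (hx : Supp μ x) {R : ℝ}
    (hR0 : 0 < R) (hR : ball x R ⊆ U) :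
    θ * (volume (ball (0 : EuclideanSpace ℝ (Fin m)) 1) * ENNReal.ofReal R ^ m) ≤
      μ (ball x R) := by
  apply lower hS hθ _ hR hR0
  intro δ hδ
  by_contra hcon
  push Not at hcon
  have h1 : μ (ball x (min δ R)) = 0 := by
    have h2 := (ae_restrict_iff' hU.measurableSet).1 hd
    apply measure_mono_null _ (ae_iff.1 h2)
    intro y hy
    simp only [mem_ofPred_eq, Classical.not_imp, not_le]
    exact ⟨hR (ball_subset_ball (min_le_right _ _) hy),
      hcon y (ball_subset_ball (min_le_left _ _) hy)⟩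
  exact hx _ (lt_min hδ hR0) h1

/-- the flatness of `μ` in the unit ball, up to `ε` -/
def Good (μ : Measure (E N)) (P : E N → E N →L[ℝ] E N) (q ε : ℝ) (f : E N → ℝ)
    (L : E m →ₗᵢ[ℝ] E N) : Prop :=
  (∀ x ∈ closedBall (0 : E N) 1, Supp μ x → ∃ a, ‖x - L a‖ < ε) ∧
  (∀ a : E m, ‖a‖ ≤ 1 → ∃ x, Supp μ x ∧ ‖x - L a‖ < ε) ∧
  (∀ a : E m, ‖a‖ ≤ 1 → ∫ x in ball 0 1, ‖L a - P x (L a)‖ ^ 2 ∂μ < ε) ∧
  |∫ x, f x ∂μ - q * ∫ a, f (L a)| < ε

lemma Sit.good1 {ι : Type*} {l : Filter ι} [l.NeBot] {κ : ℝ} {μ : ι → Measure (E N)}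
    {P : ι → E N → E N →L[ℝ] E N} {L : ι → ℝ} {G : ι → Set (E N)} {ν : Measure (E N)}
    (h : Sit l m κ μ P L G ν) {Li : E m →ₗᵢ[ℝ] E N} {c : ℝ≥0}
    (hν : ν = (c : ℝ≥0∞) • (volume : Measure (E m)).map Li) {ε η : ℝ} (hε : 0 < ε) (hη : 0 < η) :
    ∀ᶠ j in l, ∀ x ∈ closedBall (0 : E N) 1, (¬ ∃ a, ‖x - Li a‖ < ε) →
      (μ j).real (ball x (ε / 2)) ≤ η := by
  have := h.fin
  set π : Set (E N) := range Li with hπ
  have hπ0 : π.Nonempty := ⟨Li 0, 0, rfl⟩
  have hcont : Continuous fun x : E N => infDist x π := continuous_infDist_pt π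
  set K : Set (E N) := closedBall 0 (1 + ε) ∩ {x | ε / 2 ≤ infDist x π} with hK
  set O : Set (E N) := ball 0 (2 + ε) ∩ {x | ε / 4 < infDist x π} with hO
  have hKc : IsCompact K := (isCompact_closedBall 0 (1 + ε)).inter_right
    (isClosed_le continuous_const hcont)
  have hOo : IsOpen O := isOpen_ball.inter (isOpen_lt continuous_const hcont)
  have hKO : K ⊆ O := by
    rintro x ⟨h1, h2⟩
    refine ⟨closedBall_subset_ball (by linarith) h1, ?_⟩
    have h2' : ε / 2 ≤ infDist x π := h2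
    show ε / 4 < infDist x π
    linarith
  have hOν : ν O = 0 := by
    rw [hν, Measure.smul_apply, Measure.map_apply Li.continuous.measurable hOo.measurableSet]
    have : Li ⁻¹' O = ∅ := by
      rw [eq_empty_iff_forall_notMem]
      rintro a ⟨-, ha⟩
      have ha' : ε / 4 < infDist (Li a) π := ha
      rw [infDist_zero_of_mem (show Li a ∈ π from ⟨a, rfl⟩)] at ha'
      linarith
    rw [this, measure_empty, smul_zero]
  have h1 := ev_le h.vague hKc hOo hKO (by rw [hOν]; exact ENNReal.zero_ne_top) hη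
  filter_upwards [h1] with j hj
  intro x hx hno
  have h2 : ε ≤ infDist x π := by
    by_contra hcon
    rw [not_le, infDist_lt_iff hπ0] at hcon
    obtain ⟨_, ⟨a, rfl⟩, ha⟩ := hcon
    exact hno ⟨a, by rwa [← dist_eq_norm]⟩
  have h3 : ball x (ε / 2) ⊆ K := by
    intro y hy
    rw [mem_ball] at hy
    refine ⟨?_, ?_⟩
    · rw [mem_closedBall_zero_iff] at hx ⊢
      rw [dist_eq_norm] at hy
      calc ‖y‖ = ‖(y - x) + x‖ := by rw [sub_add_cancel]
        _ ≤ ‖y - x‖ + ‖x‖ := norm_add_le _ _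
        _ ≤ 1 + ε := by linarith
    · show ε / 2 ≤ infDist y π
      have h4 := infDist_le_infDist_add_dist (s := π) (x := x) (y := y)
      rw [dist_comm] at h4
      linarith
  refine (measureReal_mono h3 (measure_ne_top _ _)).trans (hj.trans ?_)
  rw [Measure.real, hOν]
  simp

lemma Sit.good2 {ι : Type*} {l : Filter ι} [l.NeBot] {κ : ℝ} {μ : ι → Measure (E N)}
    {P : ι → E N → E N →L[ℝ] E N} {L : ι → ℝ} {G : ι → Set (E N)} {ν : Measure (E N)}
    (h : Sit l m κ μ P L G ν) {Li : E m →ₗᵢ[ℝ] E N} {c : ℝ≥0} (hc : 0 < c)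
    (hν : ν = (c : ℝ≥0∞) • (volume : Measure (E m)).map Li) {ε : ℝ} (hε : 0 < ε) :
    ∀ᶠ j in l, ∀ a : E m, ‖a‖ ≤ 1 → ∃ x, Supp (μ j) x ∧ ‖x - Li a‖ < ε := by
  have := h.fin
  have := h.locfin
  have hpos : ∀ a : E m, ∀ᶠ j in l, (μ j) (ball (Li a) (ε / 2)) ≠ 0 := by
    intro a
    have h1 : 0 < ν.real (closedBall (Li a) (ε / 4)) := by
      refine ENNReal.toReal_pos ?_ (isCompact_closedBall _ _).measure_lt_top.ne
      rw [hν, Measure.smul_apply, Measure.map_apply Li.continuous.measurable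
        measurableSet_closedBall, smul_eq_mul]
      refine mul_ne_zero (by exact_mod_cast hc.ne') ?_
      have h2 : Li ⁻¹' closedBall (Li a) (ε / 4) = closedBall a (ε / 4) := by
        ext b
        rw [mem_preimage, mem_closedBall, mem_closedBall, Li.dist_map]
      rw [h2]
      exact (measure_closedBall_pos volume a (by positivity)).ne'
    have h2 := ev_ge h.vague (isCompact_closedBall (Li a) (ε / 4)) isOpen_ball
      (closedBall_subset_ball (show ε / 4 < ε / 2 by linarith)) (half_pos h1)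
    filter_upwards [h2] with j hj
    intro h0
    rw [Measure.real, Measure.real, h0, ENNReal.toReal_zero] at hj
    rw [Measure.real] at h1
    linarith
  obtain ⟨t, ht1, ht2⟩ := (isCompact_closedBall (0 : E m) 1).elim_nhds_subcover
    (fun a => ball a (ε / 2)) fun a _ => ball_mem_nhds a (half_pos hε)
  have h4 : ∀ᶠ j in l, ∀ a ∈ t, (μ j) (ball (Li a) (ε / 2)) ≠ 0 := by
    rw [Filter.eventually_all_finset]
    exact fun a _ => hpos a
  filter_upwards [h4] with j hj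
  intro a ha
  obtain ⟨b, hb, hab⟩ := mem_iUnion₂.1 (ht2 (mem_closedBall_zero_iff.2 ha))
  obtain ⟨x, hx1, hx2⟩ := exists_supp (hj b hb)
  refine ⟨x, hx2, ?_⟩
  rw [mem_ball, dist_eq_norm] at hx1 hab
  have e : x - Li a = (x - Li b) - Li (a - b) := by
    rw [map_sub]
    abel
  rw [e]
  refine (norm_sub_le _ _).trans_lt ?_
  rw [Li.norm_map]
  linarith

lemma tilt_le {P : E N →L[ℝ] E N} (Li : E m →ₗᵢ[ℝ] E N) {a : E m} (ha : ‖a‖ ≤ 1) :
    ‖Li a - P (Li a)‖ ^ 2 ≤ m * ∑ i, ‖Li (EuclideanSpace.basisFun (Fin m) ℝ i) -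
      P (Li (EuclideanSpace.basisFun (Fin m) ℝ i))‖ ^ 2 := by
  set b := EuclideanSpace.basisFun (Fin m) ℝ with hb
  have e : Li a - P (Li a) = ∑ i, ⟪b i, a⟫ • (Li (b i) - P (Li (b i))) := by
    have h1 : a = ∑ i, ⟪b i, a⟫ • b i := (b.sum_repr' a).symm
    conv_lhs => rw [h1]
    simp only [map_sum, map_smul, smul_sub, Finset.sum_sub_distrib]
  have h2 : ‖Li a - P (Li a)‖ ≤ ∑ i, ‖Li (b i) - P (Li (b i))‖ := by
    rw [e]
    refine (norm_sum_le _ _).trans (Finset.sum_le_sum fun i _ => ?_)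
    rw [norm_smul]
    have h3 : ‖⟪b i, a⟫‖ ≤ 1 := by
      have h4 := norm_inner_le_norm (𝕜 := ℝ) (b i) a
      have h5 : ‖b i‖ = 1 := b.orthonormal.1 i
      rw [h5, one_mul] at h4
      exact h4.trans ha
    exact mul_le_of_le_one_left (norm_nonneg _) h3
  have h3 := pow_le_pow_left₀ (norm_nonneg _) h2 2
  refine h3.trans ?_
  have h4 := sq_sum_le_card_mul_sum_sq (s := (Finset.univ : Finset (Fin m)))
    (f := fun i => ‖Li (b i) - P (Li (b i))‖)
  simpa using h4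

lemma Sit.good3 {ι : Type*} {l : Filter ι} [l.NeBot] {κ : ℝ} {μ : ι → Measure (E N)}
    {P : ι → E N → E N →L[ℝ] E N} {L : ι → ℝ} {G : ι → Set (E N)} {ν : Measure (E N)}
    (h : Sit l m κ μ P L G ν) {Li : E m →ₗᵢ[ℝ] E N} (hW : ∀ a, Li a ∈ WS l μ P)
    {ε : ℝ} (hε : 0 < ε) :
    ∀ᶠ j in l, ∀ a : E m, ‖a‖ ≤ 1 → ∫ x in ball 0 1, ‖Li a - P j x (Li a)‖ ^ 2 ∂(μ j) < ε := by
  have := h.fin
  set b := EuclideanSpace.basisFun (Fin m) ℝ with hb
  have h1 : Tendsto (fun j => (m : ℝ) * ∑ i, ∫ x in ball 0 1,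
      ‖Li (b i) - P j x (Li (b i))‖ ^ 2 ∂(μ j)) l (𝓝 (m * ∑ _i : Fin m, (0:ℝ))) :=
    (tendsto_finsetSum _ fun i _ => hW (b i) 1 one_pos).const_mul _
  rw [Finset.sum_const_zero, mul_zero] at h1
  filter_upwards [h1.eventually (gt_mem_nhds hε)] with j hj
  intro a ha
  refine lt_of_le_of_lt ?_ hj
  have i1 : ∀ v : E N, IntegrableOn (fun x => ‖v - P j x v‖ ^ 2) (ball 0 1) (μ j) := fun v =>
    int_sq (h.stat j).meas (h.stat j).nrm v 1
  rw [← integral_finsetSum _ fun i _ => i1 (Li (b i)), ← integral_const_mul]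
  apply integral_mono (i1 (Li a))
    ((integrable_finsetSum _ fun i _ => i1 (Li (b i))).const_mul _)
  intro x
  exact tilt_le Li ha

end Pool.Agent.Q160.FT
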