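import Pool.Agent.Q160.FT.Quant

/-!
The quantitative flatness theorem at scale one.
-/

set_option autoImplicit false

namespace Pool.Agent.Q160.FT

open MeasureTheory Set Filter Topology Metric Pool.Agent.TH337.VF
open scoped ENNReal NNReal RealInnerProductSpace

variable {N m : ℕ}

/-- the hypotheses at scale one -/
structure Hyp (N m : ℕ) (θ q c δ : ℝ) (μ : Measure (E N)) (P : E N → E N →L[ℝ] E N) : Prop where
  stat : Stat m (ball 0 δ⁻¹) μ P
  lower : ∀ᵐ x ∂(μ.restrict (ball 0 δ⁻¹)), ENNReal.ofReal θ ≤ density m μ x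
  center : ENNReal.ofReal q ≤ density m μ 0
  upper : μ (ball 0 δ⁻¹) ≤
    ENNReal.ofReal ((q + δ) * (volume : Measure (E m)).real (ball 0 1) * δ⁻¹ ^ m)
  many : ENNReal.ofReal c ≤ μ ({x | ENNReal.ofReal q ≤ density m μ x} ∩ ball 0 1)

theorem quant0 (hm : 1 ≤ m) {θ q c ε : ℝ} (hθ : 0 < θ) (hq : 0 < q) (hc : 0 < c) (hε : 0 < ε)
    {f : E N → ℝ} (hf : Continuous f) (hfc : HasCompactSupport f) :
    ∃ δ : ℝ, 0 < δ ∧ ∀ (μ : Measure (E N)) (P : E N → E N →L[ℝ] E N), Hyp N m θ q c δ μ P →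
      ∃ L : E m →ₗᵢ[ℝ] E N, Good μ P q ε f L := by
  by_contra hcon
  push Not at hcon
  choose μ P H hbad using fun j : ℕ => hcon ((j : ℝ) + 1)⁻¹ (by positivity)
  set ω := (volume : Measure (E m)).real (ball 0 1) with hω
  have hω0 : 0 < ω := ENNReal.toReal_pos (omega_pos m) (omega_lt m)
  have hωe : volume (ball (0 : EuclideanSpace ℝ (Fin m)) 1) = ENNReal.ofReal ω :=
    (ENNReal.ofReal_toReal (omega_lt m)).symm
  set κ := q * ω with hκ
  have Hst : ∀ j : ℕ, Stat m (ball 0 ((j : ℝ) + 1)) (μ j) (P j) := by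
    intro j
    have := (H j).stat
    rwa [inv_inv] at this
  have Hup : ∀ j : ℕ, μ j (ball 0 ((j : ℝ) + 1)) ≤
      ENNReal.ofReal ((q + ((j : ℝ) + 1)⁻¹) * ω * ((j : ℝ) + 1) ^ m) := by
    intro j
    have := (H j).upper
    rwa [inv_inv] at this
  have Hlo : ∀ j : ℕ, ∀ᵐ x ∂((μ j).restrict (ball 0 ((j : ℝ) + 1))),
      ENNReal.ofReal θ ≤ density m (μ j) x := by
    intro j
    have := (H j).lower
    rwa [inv_inv] at this
  set μ' : ℕ → Measure (E N) := fun j => (μ j).restrict (ball 0 ((j : ℝ) + 1)) with hμ'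
  have hfin : ∀ j, IsFiniteMeasure (μ' j) := by
    intro j
    refine ⟨?_⟩
    rw [hμ', Measure.restrict_apply_univ]
    exact (Hup j).trans_lt ENNReal.ofReal_lt_top
  have hfin2 : ∀ j, μ j (ball 0 ((j : ℝ) + 1)) ≠ ⊤ := fun j =>
    ((Hup j).trans_lt ENNReal.ofReal_lt_top).ne
  have hstat : ∀ j : ℕ, Stat m (ball 0 ((j : ℝ) + 1)) (μ' j) (P j) := fun j =>
    stat_restrict (Hst j) subset_rfl
  have hreal : ∀ (j : ℕ) (z : E N) (s : ℝ), ball z s ⊆ ball 0 ((j : ℝ) + 1) → (μ' j).real (ball z s) =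
      (μ j).real (ball z s) := by
    intro j z s h
    rw [hμ', measureReal_restrict_apply measurableSet_ball, inter_eq_left.2 h]
  have low : ∀ (j : ℕ) (z : E N) (s : ℝ), ENNReal.ofReal q ≤ density m (μ j) z → 0 < s →
      closedBall z s ⊆ ball 0 ((j : ℝ) + 1) → κ * s ^ m ≤ (μ' j).real (ball z s) := by
    intro j z s hz hs hsub
    rw [hreal j z s (ball_subset_closedBall.trans hsub)]
    have h1 := density_le (Hst j) hsub hs
    have h2 : ENNReal.ofReal q * (volume (ball (0 : EuclideanSpace ℝ (Fin m)) 1) *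
        ENNReal.ofReal s ^ m) ≤ μ j (ball z s) := (mul_le_mul_left hz _).trans h1
    have h3 : μ j (ball z s) ≠ ⊤ :=
      ((measure_mono (ball_subset_closedBall.trans hsub)).trans_lt (hfin2 j).lt_top).ne
    have h4 := ENNReal.toReal_mono h3 h2
    rw [ENNReal.toReal_mul, ENNReal.toReal_mul, ENNReal.toReal_pow, ENNReal.toReal_ofReal hs.le,
      ENNReal.toReal_ofReal hq.le] at h4
    calc κ * s ^ m = q * (ω * s ^ m) := by rw [hκ]; ring
      _ ≤ _ := h4
  have hlarge : Tendsto (fun j : ℕ => (j : ℝ) + 1) atTop atTop :=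
    tendsto_atTop_add_const_right _ _ tendsto_natCast_atTop_atTop
  have hev : ∀ (z : E N) (s : ℝ), ∀ᶠ j : ℕ in atTop, closedBall z s ⊆ ball 0 ((j : ℝ) + 1) := by
    intro z s
    filter_upwards [hlarge.eventually_gt_atTop (s + ‖z‖)] with j hj
    intro x hx
    rw [mem_closedBall, dist_eq_norm] at hx
    rw [mem_ball_zero_iff]
    calc ‖x‖ = ‖(x - z) + z‖ := by rw [sub_add_cancel]
      _ ≤ ‖x - z‖ + ‖z‖ := norm_add_le _ _
      _ < (j : ℝ) + 1 := by linarith
  have ratio : ∀ s : ℝ, 0 < s → Tendsto (fun j => (μ' j).real (ball 0 s)) atTop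
      (𝓝 (κ * s ^ m)) := by
    intro s hs
    have hlim : Tendsto (fun j : ℕ => (q + ((j : ℝ) + 1)⁻¹) * ω * (((j : ℝ) + 1) / j) ^ m * s ^ m)
        atTop (𝓝 ((q + 0) * ω * 1 ^ m * s ^ m)) := by
      apply Tendsto.mul_const
      apply Tendsto.mul
      · apply Tendsto.mul_const
        apply Tendsto.const_add
        exact tendsto_inv_atTop_zero.comp hlarge
      · apply Tendsto.pow
        have h1 : Tendsto (fun j : ℕ => 1 + 1 / (j : ℝ)) atTop (𝓝 (1 + 0)) :=
          tendsto_one_div_atTop_nhds_zero_nat.const_add 1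
        rw [add_zero] at h1
        apply h1.congr'
        filter_upwards [eventually_gt_atTop 0] with j hj
        have : (0:ℝ) < j := by exact_mod_cast hj
        field_simp
    have e : (q + 0) * ω * 1 ^ m * s ^ m = κ * s ^ m := by rw [hκ]; ring
    rw [e] at hlim
    refine tendsto_of_tendsto_of_tendsto_of_le_of_le' tendsto_const_nhds hlim ?_ ?_
    · filter_upwards [hev 0 s] with j hj
      exact low j 0 s (H j).center hs hj
    · filter_upwards [hev 0 s, tendsto_natCast_atTop_atTop.eventually_ge_atTop (max s 1)]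
        with j hj1 hj2
      have hj0 : (0:ℝ) < j := lt_of_lt_of_le one_pos ((le_max_right s 1).trans hj2)
      have hsj : s ≤ j := (le_max_left s 1).trans hj2
      rw [hreal j 0 s (ball_subset_closedBall.trans hj1)]
      have h1 := mono (Hst j) (a := 0) (R := j) (r := s)
        (closedBall_subset_ball (by linarith)) hs hsj
      have h2 : (μ j).real (ball 0 (j : ℝ)) ≤ (μ j).real (ball 0 ((j : ℝ) + 1)) :=
        measureReal_mono (ball_subset_ball (by linarith)) (hfin2 j)
      have h3 : (μ j).real (ball 0 ((j : ℝ) + 1)) ≤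
          (q + ((j : ℝ) + 1)⁻¹) * ω * ((j : ℝ) + 1) ^ m := by
        rw [Measure.real]
        exact ENNReal.toReal_le_of_le_ofReal (by positivity) (Hup j)
      rw [div_le_iff₀ (by positivity)] at h1
      calc (μ j).real (ball 0 s) ≤ (μ j).real (ball 0 (j : ℝ)) / (j : ℝ) ^ m * s ^ m := h1
        _ ≤ ((q + ((j : ℝ) + 1)⁻¹) * ω * ((j : ℝ) + 1) ^ m) / (j : ℝ) ^ m * s ^ m := by
            gcongr
            exact h2.trans h3
        _ = _ := by rw [div_pow]; ring
  set l : Ultrafilter ℕ := Ultrafilter.of atTop with hl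
  have hle : (l : Filter ℕ) ≤ atTop := Ultrafilter.of_le _
  obtain ⟨ν, hν, hV⟩ := exists_vague l μ' hfin (by
    intro ρ
    refine ⟨κ * (max ρ 1) ^ m + 1, ?_⟩
    have h1 : ∀ᶠ j in atTop, (μ' j).real (ball 0 (max ρ 1)) < κ * (max ρ 1) ^ m + 1 :=
      (ratio (max ρ 1) (by positivity)).eventually (gt_mem_nhds (lt_add_one _))
    filter_upwards [hle h1] with j hj
    exact (measureReal_mono (ball_subset_ball (le_max_left _ _)) (measure_ne_top _ _)).trans
      hj.le)
  have hsit : Sit (l : Filter ℕ) m κ μ' P (fun j : ℕ => (j : ℝ) + 1)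
      (fun j => {z | ENNReal.ofReal q ≤ density m (μ j) z}) ν := by
    refine ⟨hfin, hstat, hlarge.mono_left hle, hV, hν, fun s hs => (ratio s hs).mono_left hle, ?_⟩
    intro j z hz s hs hsub
    exact low j z s hz hs hsub
  have hG : ∃ᶠ j in (l : Filter ℕ), c ≤ (μ' j).real
      ({z | ENNReal.ofReal q ≤ density m (μ j) z} ∩ closedBall 0 1) := by
    apply Eventually.frequently
    filter_upwards [hle (hev 0 1)] with j hj
    rw [Measure.real]
    refine (ENNReal.ofReal_le_iff_le_toReal (measure_ne_top _ _)).1 ?_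
    refine (H j).many.trans ?_
    rw [hμ', Measure.restrict_apply' measurableSet_ball]
    apply measure_mono
    rintro x ⟨hx1, hx2⟩
    exact ⟨⟨hx1, ball_subset_closedBall hx2⟩, hj (ball_subset_closedBall hx2)⟩
  obtain ⟨Li, c', hc', hW, hνL⟩ := hsit.main hm hc hG
  have hcq : (c' : ℝ) = q := mul_right_cancel₀ hω0.ne' hc'
  have hc'0 : 0 < c' := by
    have : (0:ℝ) < c' := by rw [hcq]; exact hq
    exact_mod_cast this
  set η := θ * (ω * (ε / 2) ^ m) / 2 with hη
  have hη0 : 0 < η := by positivity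
  have g1 := hsit.good1 hνL hε hη0
  have g2 := hsit.good2 hc'0 hνL hε
  have g3 := hsit.good3 hW hε
  have g4 : ∀ᶠ j in (l : Filter ℕ), |∫ x, f x ∂(μ' j) - q * ∫ a, f (Li a)| < ε := by
    have h1 := hV f hf hfc
    have h2 : ∫ x, f x ∂ν = q * ∫ a, f (Li a) := by
      rw [hνL, integral_smul_measure, ENNReal.coe_toReal, hcq, smul_eq_mul,
        integral_map Li.continuous.measurable.aemeasurable hf.aestronglyMeasurable]
    rw [h2] at h1
    filter_upwards [(Metric.tendsto_nhds.1 h1) ε hε] with j hj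
    rwa [Real.dist_eq] at hj
  obtain ⟨ρ, hρ, hsub⟩ := exists_rad hfc
  have g5 : ∀ᶠ j : ℕ in (l : Filter ℕ), closedBall (0 : E N) ρ ⊆ ball 0 ((j : ℝ) + 1) :=
    hle (hev 0 ρ)
  have g6 : ∀ᶠ j : ℕ in (l : Filter ℕ), closedBall (0 : E N) (1 + ε) ⊆ ball 0 ((j : ℝ) + 1) :=
    hle (hev 0 (1 + ε))
  obtain ⟨j, hj1, hj2, hj3, hj4, hj5, hj6⟩ :=
    (g1.and (g2.and (g3.and (g4.and (g5.and g6))))).exists
  refine hbad j Li ⟨?_, ?_, ?_, ?_⟩
  · intro x hx hsx
    by_contra hno
    have h1 := hj1 x hx hno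
    have hb : ball x (ε / 2) ⊆ ball 0 ((j : ℝ) + 1) := by
      intro y hy
      apply hj6
      rw [mem_closedBall_zero_iff] at hx ⊢
      rw [mem_ball, dist_eq_norm] at hy
      calc ‖y‖ = ‖(y - x) + x‖ := by rw [sub_add_cancel]
        _ ≤ ‖y - x‖ + ‖x‖ := norm_add_le _ _
        _ ≤ 1 + ε := by linarith
    rw [hreal j x _ hb] at h1
    have h2 := supp_lower isOpen_ball (Hst j) ENNReal.ofReal_ne_top (Hlo j) hsx
      (half_pos hε) hb
    have h3 : μ j (ball x (ε / 2)) ≠ ⊤ := ((measure_mono hb).trans_lt (hfin2 j).lt_top).ne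
    have h4 := ENNReal.toReal_mono h3 h2
    rw [ENNReal.toReal_mul, ENNReal.toReal_mul, ENNReal.toReal_pow,
      ENNReal.toReal_ofReal (half_pos hε).le, ENNReal.toReal_ofReal hθ.le] at h4
    have h5 : θ * (ω * (ε / 2) ^ m) ≤ (μ j).real (ball x (ε / 2)) := h4
    linarith
  · intro a ha
    obtain ⟨x, hx1, hx2⟩ := hj2 a ha
    refine ⟨x, fun s hs h0 => hx1 s hs ?_, hx2⟩
    exact le_antisymm ((Measure.restrict_apply_le _ _).trans h0.le) bot_le
  · intro a ha
    have h1 := hj3 a ha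
    rwa [hμ', Measure.restrict_restrict_of_subset] at h1
    refine ball_subset_closedBall.trans (Subset.trans ?_ hj6)
    exact closedBall_subset_closedBall (by linarith)
  · have e : ∫ x, f x ∂(μ j) = ∫ x, f x ∂(μ' j) := by
      symm
      apply setIntegral_eq_integral_of_forall_compl_eq_zero
      intro x hx
      apply image_eq_zero_of_notMem_tsupport
      intro h1
      exact hx (hj5 (ball_subset_closedBall (hsub h1)))
    rw [e]
    exact hj4

end Pool.Agent.Q160.FT
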