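import Pool.Agent.Q160.FT.Quant2

/-!
The quantitative flatness theorem at all scales.
-/

set_option autoImplicit false

namespace Pool.Agent.Q160.FT

open MeasureTheory Set Filter Topology Metric Pool.Agent.TH337.VF
open scoped ENNReal NNReal RealInnerProductSpace

variable {N m : ℕ}

lemma limsup_scale_le (F : ℝ → ℝ≥0∞) {r : ℝ} (hr : 0 < r) :
    limsup (fun s => F (r * s)) (𝓝[>] 0) ≤ limsup F (𝓝[>] 0) := by
  have h : Tendsto (fun s : ℝ => r * s) (𝓝[>] 0) (𝓝[>] 0) := by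
    refine tendsto_nhdsWithin_iff.2 ⟨?_, ?_⟩
    · apply tendsto_nhdsWithin_of_tendsto_nhds
      have : Continuous fun s : ℝ => r * s := by fun_prop
      simpa using this.tendsto 0
    · filter_upwards [self_mem_nhdsWithin] with s hs
      exact mul_pos hr hs
  exact limsup_le_limsup_of_le (u := F) h

lemma limsup_scale (F : ℝ → ℝ≥0∞) {r : ℝ} (hr : 0 < r) :
    limsup (fun s => F (r * s)) (𝓝[>] 0) = limsup F (𝓝[>] 0) := by
  refine le_antisymm (limsup_scale_le F hr) ?_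
  have h := limsup_scale_le (fun s => F (r * s)) (inv_pos.2 hr)
  have e : (fun s => F (r * (r⁻¹ * s))) = F := by
    funext s
    rw [mul_inv_cancel_left₀ hr.ne']
  rwa [e] at h

lemma density_resc {x₀ : E N} {r : ℝ} (hr : 0 < r) (μ : Measure (E N)) (y : E N) :
    density m (resc m x₀ r μ) y = density m μ (x₀ + r • y) := by
  have h := limsup_scale (fun s : ℝ => μ (ball (x₀ + r • y) s) /
    (volume (ball (0 : EuclideanSpace ℝ (Fin m)) 1) * ENNReal.ofReal s ^ m)) hr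
  unfold density
  rw [← h]
  apply limsup_congr
  filter_upwards [self_mem_nhdsWithin] with s hs
  have hs0 : 0 < s := hs
  rw [resc_apply hr, pre_ball hr]
  have hrm : ENNReal.ofReal r ^ m ≠ 0 := pow_ne_zero _ (ENNReal.ofReal_pos.2 hr).ne'
  have hrm' : ENNReal.ofReal r ^ m ≠ ⊤ := ENNReal.pow_ne_top ENNReal.ofReal_ne_top
  have e1 : ENNReal.ofReal ((r ^ m)⁻¹) = (ENNReal.ofReal r ^ m)⁻¹ := by
    rw [ENNReal.ofReal_inv_of_pos (by positivity), ENNReal.ofReal_pow hr.le]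
  rw [e1, ENNReal.ofReal_mul hr.le, mul_pow, div_eq_mul_inv, div_eq_mul_inv,
    mul_left_comm (volume _), ENNReal.mul_inv (Or.inl hrm) (Or.inl hrm')]
  ring

lemma supp_resc {x₀ : E N} {r : ℝ} (hr : 0 < r) {μ : Measure (E N)} {x : E N}
    (h : Supp μ x) : Supp (resc m x₀ r μ) (r⁻¹ • (x - x₀)) := by
  intro s hs
  rw [resc_apply hr, pre_ball hr, back hr]
  exact mul_ne_zero (ENNReal.ofReal_pos.2 (by positivity)).ne' (h _ (mul_pos hr hs))

lemma supp_of_resc {x₀ : E N} {r : ℝ} (hr : 0 < r) {μ : Measure (E N)} {y : E N}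
    (h : Supp (resc m x₀ r μ) y) : Supp μ (x₀ + r • y) := by
  intro s hs h0
  apply h (r⁻¹ * s) (by positivity)
  rw [resc_apply hr, pre_ball hr, mul_inv_cancel_left₀ hr.ne', h0, mul_zero]

/-- flatness at the point `x₀` and the scale `r` -/
def FlatAt (m : ℕ) (ε q : ℝ) (f : E N → ℝ) (μ : Measure (E N)) (P : E N → E N →L[ℝ] E N)
    (x₀ : E N) (r : ℝ) : Prop :=
  ∃ L : E m →ₗᵢ[ℝ] E N,
    (∀ x ∈ closedBall x₀ r, Supp μ x → ∃ a, ‖x - (x₀ + L a)‖ < ε * r) ∧
    (∀ a : E m, ‖a‖ ≤ r → ∃ x, Supp μ x ∧ ‖x - (x₀ + L a)‖ < ε * r) ∧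
    (∀ a : E m, ‖a‖ ≤ 1 → (r ^ m)⁻¹ * ∫ x in ball x₀ r, ‖L a - P x (L a)‖ ^ 2 ∂μ < ε) ∧
    |(r ^ m)⁻¹ * ∫ x, f (r⁻¹ • (x - x₀)) ∂μ - q * ∫ a, f (L a)| < ε

theorem quant (hm : 1 ≤ m) {θ q c ε : ℝ} (hθ : 0 < θ) (hq : 0 < q) (hc : 0 < c) (hε : 0 < ε)
    {f : E N → ℝ} (hf : Continuous f) (hfc : HasCompactSupport f) :
    ∃ δ : ℝ, 0 < δ ∧ ∀ (U : Set (E N)), IsOpen U →
      ∀ (μ : Measure (E N)) (P : E N → E N →L[ℝ] E N), Stat m U μ P →
      ∀ (x₀ : E N) (r : ℝ), 0 < r → ball x₀ (r / δ) ⊆ U →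
      (∀ᵐ x ∂(μ.restrict (ball x₀ (r / δ))), ENNReal.ofReal θ ≤ density m μ x) →
      ENNReal.ofReal q ≤ density m μ x₀ →
      μ (ball x₀ (r / δ)) ≤
        ENNReal.ofReal ((q + δ) * (volume : Measure (E m)).real (ball 0 1) * (r / δ) ^ m) →
      ENNReal.ofReal (c * r ^ m) ≤ μ ({x | ENNReal.ofReal q ≤ density m μ x} ∩ ball x₀ r) →
      FlatAt m ε q f μ P x₀ r := by
  obtain ⟨δ, hδ, main⟩ := quant0 (N := N) hm hθ hq hc hε hf hfc
  refine ⟨δ, hδ, ?_⟩
  intro U hU μ P hS x₀ r hr hsub hlow hcen hup hmany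
  have hrd : r * δ⁻¹ = r / δ := (div_eq_mul_inv r δ).symm
  have hpre : (fun x : E N => r⁻¹ • (x - x₀)) ⁻¹' ball 0 δ⁻¹ = ball x₀ (r / δ) := by
    rw [pre_ball hr, smul_zero, add_zero, hrd]
  have hpre1 : (fun x : E N => r⁻¹ • (x - x₀)) ⁻¹' ball 0 1 = ball x₀ r := by
    rw [pre_ball hr, smul_zero, add_zero, mul_one]
  have hH : Hyp N m θ q c δ (resc m x₀ r μ) (fun y => P (x₀ + r • y)) := by
    refine ⟨?_, ?_, ?_, ?_, ?_⟩
    · refine (stat_resc hU hS x₀ hr).sub ?_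
      intro y hy
      apply hsub
      rw [← hpre, mem_preimage, add_sub_cancel_left, smul_smul, inv_mul_cancel₀ hr.ne', one_smul]
      exact hy
    · rw [ae_restrict_iff' measurableSet_ball, resc]
      apply Measure.ae_smul_measure
      have h1 := (ae_restrict_iff' measurableSet_ball).1 hlow
      refine (tau x₀ r hr.ne').measurableEmbedding.ae_map_iff.2 ?_
      filter_upwards [h1] with x hx
      intro hx2
      have hx3 : x ∈ ball x₀ (r / δ) := by
        rw [← hpre]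
        exact hx2
      have hb : x₀ + r • (tau x₀ r hr.ne' x) = x := back hr x
      have h2 := density_resc (m := m) (x₀ := x₀) hr μ (tau x₀ r hr.ne' x)
      rw [hb] at h2
      have h3 := hx hx3
      rw [← h2] at h3
      exact h3
    · rw [density_resc hr, smul_zero, add_zero]
      exact hcen
    · rw [resc_apply hr, hpre]
      refine (mul_le_mul_right hup _).trans (le_of_eq ?_)
      rw [← ENNReal.ofReal_mul (by positivity)]
      congr 1
      have e1 : (r / δ) ^ m = r ^ m * δ⁻¹ ^ m := by rw [div_eq_mul_inv, mul_pow]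
      have e2 : r ^ m ≠ 0 := by positivity
      rw [e1]
      field_simp
    · rw [resc_apply hr]
      have e : ENNReal.ofReal c = ENNReal.ofReal ((r ^ m)⁻¹) * ENNReal.ofReal (c * r ^ m) := by
        rw [← ENNReal.ofReal_mul (by positivity)]
        congr 1
        field_simp
      rw [e]
      refine (mul_le_mul_right hmany _).trans ?_
      gcongr
      rw [preimage_inter, hpre1]
      apply inter_subset_inter_left
      intro x hx
      change ENNReal.ofReal q ≤ density m (resc m x₀ r μ) (r⁻¹ • (x - x₀))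
      rw [density_resc hr, back hr]
      exact hx
  obtain ⟨L, g1, g2, g3, g4⟩ := main _ _ hH
  refine ⟨L, ?_, ?_, ?_, ?_⟩
  · intro x hx hsx
    obtain ⟨a, ha⟩ := g1 (r⁻¹ • (x - x₀)) (by
      rw [mem_closedBall_zero_iff, norm_smul, norm_inv, Real.norm_of_nonneg hr.le,
        inv_mul_le_one₀ hr, ← dist_eq_norm]
      exact hx) (supp_resc hr hsx)
    refine ⟨r • a, ?_⟩
    have e : x - (x₀ + L (r • a)) = r • (r⁻¹ • (x - x₀) - L a) := by
      rw [smul_sub, smul_smul, mul_inv_cancel₀ hr.ne', one_smul, map_smul]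
      abel
    rw [e, norm_smul, Real.norm_of_nonneg hr.le, mul_comm]
    exact mul_lt_mul_of_pos_right ha hr
  · intro a ha
    obtain ⟨y, hy1, hy2⟩ := g2 (r⁻¹ • a) (by
      rw [norm_smul, norm_inv, Real.norm_of_nonneg hr.le, inv_mul_le_one₀ hr]
      exact ha)
    refine ⟨x₀ + r • y, supp_of_resc hr hy1, ?_⟩
    have e : x₀ + r • y - (x₀ + L a) = r • (y - L (r⁻¹ • a)) := by
      rw [smul_sub, map_smul, smul_smul, mul_inv_cancel₀ hr.ne', one_smul]
      abel
    rw [e, norm_smul, Real.norm_of_nonneg hr.le, mul_comm]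
    exact mul_lt_mul_of_pos_right hy2 hr
  · intro a ha
    have h1 := g3 a ha
    rw [← integral_indicator measurableSet_ball, integral_resc hr] at h1
    have e1 : ∀ x, (ball (0 : E N) 1).indicator (fun y => ‖L a - P (x₀ + r • y) (L a)‖ ^ 2)
        (r⁻¹ • (x - x₀)) =
        (ball x₀ r).indicator (fun x => ‖L a - P x (L a)‖ ^ 2) x := by
      intro x
      have e2 : r⁻¹ • (x - x₀) ∈ ball (0 : E N) 1 ↔ x ∈ ball x₀ r := by
        rw [← hpre1]
        rfl
      by_cases hx : x ∈ ball x₀ r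
      · rw [indicator_of_mem hx, indicator_of_mem (e2.2 hx), back hr]
      · rw [indicator_of_notMem hx, indicator_of_notMem fun h => hx (e2.1 h)]
    simp_rw [e1] at h1
    rwa [integral_indicator measurableSet_ball] at h1
  · rw [integral_resc hr] at g4
    exact g4

/-- flatness at all small scales -/
theorem all_scales (hm : 1 ≤ m) {θ c ε : ℝ} (hθ : 0 < θ) (hc : 0 < c) (hε : 0 < ε)
    {f : E N → ℝ} (hf : Continuous f) (hfc : HasCompactSupport f) {U : Set (E N)} (hU : IsOpen U)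
    {μ : Measure (E N)} {P : E N → E N →L[ℝ] E N} (hS : Stat m U μ P) {x₀ : E N} (hx₀ : x₀ ∈ U)
    (hlow : ∀ᵐ x ∂(μ.restrict U), ENNReal.ofReal θ ≤ density m μ x)
    (h0 : density m μ x₀ ≠ 0)
    (hmany : ∀ᶠ r : ℝ in 𝓝[>] 0, ENNReal.ofReal (c * r ^ m) ≤
      μ ({x | density m μ x₀ ≤ density m μ x} ∩ ball x₀ r)) :
    ∀ᶠ r : ℝ in 𝓝[>] 0, FlatAt m ε (density m μ x₀).toReal f μ P x₀ r := by
  set Q := density m μ x₀ with hQ
  have hQt : Q ≠ ⊤ := density_lt_top hS hU hx₀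
  have hq : 0 < Q.toReal := ENNReal.toReal_pos h0 hQt
  have hQe : ENNReal.ofReal Q.toReal = Q := ENNReal.ofReal_toReal hQt
  obtain ⟨δ, hδ, main⟩ := quant (N := N) hm hθ hq hc hε hf hfc
  set ω := (volume : Measure (E m)).real (ball 0 1) with hω
  have hω0 : 0 < ω := ENNReal.toReal_pos (omega_pos m) (omega_lt m)
  obtain ⟨R₀, hR₀, hRU⟩ := Metric.isOpen_iff.1 hU x₀ hx₀
  have hdiv : Tendsto (fun r : ℝ => r / δ) (𝓝[>] 0) (𝓝[>] 0) := by
    refine tendsto_nhdsWithin_iff.2 ⟨?_, ?_⟩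
    · apply tendsto_nhdsWithin_of_tendsto_nhds
      have : Continuous fun s : ℝ => s / δ := by fun_prop
      simpa using this.tendsto 0
    · filter_upwards [self_mem_nhdsWithin] with s hs
      exact div_pos hs hδ
  have h1 : ∀ᶠ ρ : ℝ in 𝓝[>] 0, (ρ ^ m)⁻¹ * μ.real (ball x₀ ρ) < (Q.toReal + δ) * ω := by
    apply (ratio_tendsto hS hU hx₀).eventually (gt_mem_nhds _)
    rw [add_mul]
    have : 0 < δ * ω := mul_pos hδ hω0
    change Q.toReal * ω < Q.toReal * ω + δ * ω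
    linarith
  have h2 : ∀ᶠ ρ : ℝ in 𝓝[>] 0, ρ ∈ Ioo 0 R₀ := Ioo_mem_nhdsGT hR₀
  filter_upwards [hmany, hdiv.eventually h1, hdiv.eventually h2, self_mem_nhdsWithin]
    with r hr1 hr2 hr3 hr4
  have hr0 : 0 < r := hr4
  have hsub : ball x₀ (r / δ) ⊆ U := (ball_subset_ball hr3.2.le).trans hRU
  have hfin : μ (ball x₀ (r / δ)) ≠ ⊤ := by
    refine ((measure_mono ball_subset_closedBall).trans_lt
      (hS.fin _ ?_ (isCompact_closedBall x₀ _))).ne
    exact (closedBall_subset_ball hr3.2).trans hRU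
  refine main U hU μ P hS x₀ r hr0 hsub (ae_restrict_of_ae_restrict_of_subset hsub hlow) ?_ ?_ ?_
  · rw [hQe]
  · rw [← ENNReal.ofReal_toReal hfin]
    apply ENNReal.ofReal_le_ofReal
    have h3 : 0 < (r / δ) ^ m := by positivity
    rw [inv_mul_lt_iff₀ h3] at hr2
    have h4 : μ.real (ball x₀ (r / δ)) < (r / δ) ^ m * ((Q.toReal + δ) * ω) := hr2
    calc (μ (ball x₀ (r / δ))).toReal ≤ (r / δ) ^ m * ((Q.toReal + δ) * ω) := h4.le
      _ = _ := by ring
  · rw [hQe]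
    exact hr1

end Pool.Agent.Q160.FT
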