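import Pool.Agent.Q160.FT.Inv
import Pool.Agent.Q160.FT.Flat
import Pool.Agent.TH337.VF.Local

/-!
Rescaling of stationary varifolds and the flatness of blow-ups.
-/

set_option autoImplicit false

namespace Pool.Agent.Q160.FT

open MeasureTheory Set Filter Topology Metric Pool.Agent.TH337.VF
open scoped ENNReal NNReal RealInnerProductSpace

variable {N m : ℕ}

/-- `x ↦ (x - x₀) / r` as a homeomorphism -/
noncomputable def tau (x₀ : E N) (r : ℝ) (hr : r ≠ 0) : E N ≃ₜ E N where
  toFun x := r⁻¹ • (x - x₀)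
  invFun y := x₀ + r • y
  left_inv x := by simp [smul_smul, hr]
  right_inv y := by simp [smul_smul, hr]
  continuous_toFun := by fun_prop
  continuous_invFun := by fun_prop

/-- the rescaled measure -/
noncomputable def resc (m : ℕ) (x₀ : E N) (r : ℝ) (μ : Measure (E N)) : Measure (E N) :=
  ENNReal.ofReal ((r ^ m)⁻¹) • μ.map (fun x => r⁻¹ • (x - x₀))

lemma resc_apply {x₀ : E N} {r : ℝ} (hr : 0 < r) (μ : Measure (E N)) (S : Set (E N)) :
    resc m x₀ r μ S = ENNReal.ofReal ((r ^ m)⁻¹) * μ ((fun x => r⁻¹ • (x - x₀)) ⁻¹' S) := by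
  rw [resc, Measure.smul_apply, smul_eq_mul]
  congr 1
  exact (tau x₀ r hr.ne').measurableEmbedding.map_apply μ S

lemma integral_resc {x₀ : E N} {r : ℝ} (hr : 0 < r) (μ : Measure (E N)) (f : E N → ℝ) :
    ∫ y, f y ∂(resc m x₀ r μ) = (r ^ m)⁻¹ * ∫ x, f (r⁻¹ • (x - x₀)) ∂μ := by
  rw [resc, integral_smul_measure, ENNReal.toReal_ofReal (by positivity), smul_eq_mul]
  congr 1
  exact (tau x₀ r hr.ne').measurableEmbedding.integral_map f

lemma back {x₀ : E N} {r : ℝ} (hr : 0 < r) (x : E N) : x₀ + r • (r⁻¹ • (x - x₀)) = x := by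
  rw [smul_smul, mul_inv_cancel₀ hr.ne', one_smul, add_sub_cancel]

lemma pre_ball {x₀ z : E N} {r s : ℝ} (hr : 0 < r) :
    (fun x => r⁻¹ • (x - x₀)) ⁻¹' ball z s = ball (x₀ + r • z) (r * s) := by
  ext x
  rw [mem_preimage, mem_ball, mem_ball, dist_eq_norm, dist_eq_norm]
  have e : x - (x₀ + r • z) = r • (r⁻¹ • (x - x₀) - z) := by
    rw [smul_sub, smul_smul, mul_inv_cancel₀ hr.ne', one_smul]
    abel
  rw [e, norm_smul, Real.norm_of_nonneg hr.le, mul_lt_mul_iff_right₀ hr]

lemma stat_restrict {U : Set (E N)} {μ : Measure (E N)} {P : E N → E N →L[ℝ] E N}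
    (hS : Stat m U μ P) {x₀ : E N} {R : ℝ} (hR : ball x₀ R ⊆ U) :
    Stat m (ball x₀ R) (μ.restrict (ball x₀ R)) P where
  fin := by
    intro K hK hKc
    exact (Measure.restrict_apply_le _ _).trans_lt (hS.fin K (hK.trans hR) hKc)
  meas := hS.meas
  nrm := hS.nrm
  tr := by
    rw [Measure.restrict_restrict measurableSet_ball, inter_self]
    exact ae_restrict_of_ae_restrict_of_subset hR hS.tr
  stat := by
    intro X hX hc hXR
    have h1 := hS.stat X hX hc (hXR.trans hR)
    rw [← h1]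
    apply setIntegral_eq_integral_of_forall_compl_eq_zero
    intro x hx
    have : fderiv ℝ X x = 0 := by
      by_contra hcon
      exact hx (hXR (support_fderiv_subset ℝ (by simpa using hcon)))
    rw [this, ContinuousLinearMap.comp_zero, trc_zero]

lemma stat_resc {U : Set (E N)} (hU : IsOpen U) {μ : Measure (E N)}
    {P : E N → E N →L[ℝ] E N} (hS : Stat m U μ P) (x₀ : E N) {r : ℝ} (hr : 0 < r) :
    Stat m ((fun y => x₀ + r • y) ⁻¹' U) (resc m x₀ r μ) (fun y => P (x₀ + r • y)) where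
  fin := by
    intro K hK hKc
    rw [resc_apply hr]
    refine ENNReal.mul_lt_top ENNReal.ofReal_lt_top ?_
    have e : (fun x => r⁻¹ • (x - x₀)) ⁻¹' K = (fun y => x₀ + r • y) '' K := by
      ext x
      constructor
      · intro hx
        exact ⟨_, hx, back hr x⟩
      · rintro ⟨y, hy, rfl⟩
        rw [mem_preimage, add_sub_cancel_left, smul_smul, inv_mul_cancel₀ hr.ne', one_smul]
        exact hy
    rw [e]
    refine hS.fin _ ?_ (hKc.image (by fun_prop))
    rintro _ ⟨y, hy, rfl⟩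
    exact hK hy
  meas := hS.meas.comp (by fun_prop)
  nrm := fun y => hS.nrm _
  tr := by
    have hU' : MeasurableSet ((fun y : E N => x₀ + r • y) ⁻¹' U) :=
      (hU.preimage (by fun_prop)).measurableSet
    rw [ae_restrict_iff' hU', resc]
    apply Measure.ae_smul_measure
    have h1 : ∀ᵐ x ∂μ, x ∈ U → trc (P x) = m := (ae_restrict_iff' hU.measurableSet).1 hS.tr
    refine (tau x₀ r hr.ne').measurableEmbedding.ae_map_iff.2 ?_
    filter_upwards [h1] with x hx
    intro hx2
    have hb : x₀ + r • (tau x₀ r hr.ne' x) = x := back hr x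
    rw [mem_preimage, hb] at hx2
    rw [hb]
    exact hx hx2
  stat := by
    intro X hX hc hXU
    rw [integral_resc hr]
    have hτ : ContDiff ℝ 1 (fun x : E N => r⁻¹ • (x - x₀)) := by fun_prop
    have hX' : ContDiff ℝ 1 (fun x => X (r⁻¹ • (x - x₀))) := hX.comp hτ
    have hder : ∀ x, fderiv ℝ (fun x => X (r⁻¹ • (x - x₀))) x =
        r⁻¹ • fderiv ℝ X (r⁻¹ • (x - x₀)) := by
      intro x
      have h2 : HasFDerivAt (fun x : E N => r⁻¹ • (x - x₀))
          (r⁻¹ • ContinuousLinearMap.id ℝ (E N)) x :=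
        ((hasFDerivAt_id x).sub_const x₀).const_smul r⁻¹
      have h3 : HasFDerivAt X (fderiv ℝ X (r⁻¹ • (x - x₀))) (r⁻¹ • (x - x₀)) :=
        ((hX.differentiable one_ne_zero).differentiableAt).hasFDerivAt
      have h4 := h3.comp x h2
      have h5 : fderiv ℝ (fun x => X (r⁻¹ • (x - x₀))) x =
          (fderiv ℝ X (r⁻¹ • (x - x₀))).comp (r⁻¹ • ContinuousLinearMap.id ℝ (E N)) := h4.fderiv
      rw [h5]
      ext v
      simp
    have hsup : ∀ x, x ∈ tsupport (fun x => X (r⁻¹ • (x - x₀))) →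
        r⁻¹ • (x - x₀) ∈ tsupport X := by
      intro x hx
      have hcl : IsClosed ((fun x : E N => r⁻¹ • (x - x₀)) ⁻¹' tsupport X) :=
        (isClosed_tsupport X).preimage (by fun_prop)
      have : Function.support (fun x => X (r⁻¹ • (x - x₀))) ⊆
          (fun x : E N => r⁻¹ • (x - x₀)) ⁻¹' tsupport X := fun y hy => subset_tsupport X hy
      exact closure_minimal this hcl hx
    have hcs : HasCompactSupport (fun x => X (r⁻¹ • (x - x₀))) := by
      have hK : IsCompact ((fun y : E N => x₀ + r • y) '' tsupport X) :=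
        (show IsCompact (tsupport X) from hc).image (by fun_prop)
      refine HasCompactSupport.intro hK fun x hx => ?_
      apply image_eq_zero_of_notMem_tsupport
      intro h1
      exact hx ⟨_, h1, back hr x⟩
    have h1 := hS.stat _ hX' hcs (fun x hx => by
      have h2 := hXU (hsup x hx)
      rw [mem_preimage, back hr] at h2
      exact h2)
    simp_rw [hder, ContinuousLinearMap.comp_smul, trc_smul] at h1
    rw [integral_const_mul] at h1
    have h2 : ∫ x, trc (P x ∘L fderiv ℝ X (r⁻¹ • (x - x₀))) ∂μ = 0 := by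
      rcases mul_eq_zero.1 h1 with h3 | h3
      · exact absurd h3 (inv_ne_zero hr.ne')
      · exact h3
    simp_rw [back hr]
    rw [h2, mul_zero]

/-- the mass ratios converge to the density -/
lemma ratio_tendsto {U : Set (E N)} {μ : Measure (E N)} {P : E N → E N →L[ℝ] E N}
    (hS : Stat m U μ P) (hU : IsOpen U) {x₀ : E N} (hx₀ : x₀ ∈ U) :
    Tendsto (fun ρ : ℝ => (ρ ^ m)⁻¹ * μ.real (ball x₀ ρ)) (𝓝[>] 0)
      (𝓝 ((density m μ x₀).toReal * (volume : Measure (E m)).real (ball 0 1))) := by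
  set Q := density m μ x₀ with hQ
  have hQt : Q ≠ ⊤ := density_lt_top hS hU hx₀
  set ω := volume (ball (0 : EuclideanSpace ℝ (Fin m)) 1) with hω
  have hω0 : ω ≠ 0 := omega_pos m
  have hω1 : ω ≠ ⊤ := omega_lt m
  have hωp : 0 < ω.toReal := ENNReal.toReal_pos hω0 hω1
  change Tendsto _ _ (𝓝 (Q.toReal * ω.toReal))
  obtain ⟨R₀, hR₀, hRU⟩ := Metric.isOpen_iff.1 hU x₀ hx₀
  have hsub : ∀ ρ : ℝ, ρ < R₀ → closedBall x₀ ρ ⊆ U := fun ρ hρ =>
    (closedBall_subset_ball hρ).trans hRU
  rw [Metric.tendsto_nhds]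
  intro ε hε
  have h1 : Q < Q + ENNReal.ofReal (ε / (2 * ω.toReal)) :=
    ENNReal.lt_add_right hQt (ENNReal.ofReal_pos.2 (by positivity)).ne'
  have h2 : ∀ᶠ r : ℝ in 𝓝[>] 0, μ (ball x₀ r) / (ω * ENNReal.ofReal r ^ m) <
      Q + ENNReal.ofReal (ε / (2 * ω.toReal)) := eventually_lt_of_limsup_lt h1
  filter_upwards [h2, Ioo_mem_nhdsGT hR₀] with ρ hρ1 hρ2
  have hρ0 : 0 < ρ := hρ2.1
  have hfin : μ (ball x₀ ρ) ≠ ⊤ := ((measure_mono ball_subset_closedBall).trans_lt
    (hS.fin _ (hsub ρ hρ2.2) (isCompact_closedBall x₀ _))).ne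
  have hωρ : ω * ENNReal.ofReal ρ ^ m ≠ 0 :=
    mul_ne_zero hω0 (pow_ne_zero _ (ENNReal.ofReal_pos.2 hρ0).ne')
  have hωρ' : ω * ENNReal.ofReal ρ ^ m ≠ ⊤ :=
    ENNReal.mul_ne_top hω1 (ENNReal.pow_ne_top ENNReal.ofReal_ne_top)
  have hreal : (ω * ENNReal.ofReal ρ ^ m).toReal = ω.toReal * ρ ^ m := by
    rw [ENNReal.toReal_mul, ENNReal.toReal_pow, ENNReal.toReal_ofReal hρ0.le]
  have h3 := density_le hS (hsub ρ hρ2.2) hρ0
  have h4 : Q.toReal * (ω.toReal * ρ ^ m) ≤ μ.real (ball x₀ ρ) := by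
    rw [← hreal, ← ENNReal.toReal_mul]
    exact ENNReal.toReal_mono hfin h3
  have h5 : μ.real (ball x₀ ρ) ≤ (Q.toReal + ε / (2 * ω.toReal)) * (ω.toReal * ρ ^ m) := by
    have h6 := (ENNReal.div_lt_iff (Or.inl hωρ) (Or.inl hωρ')).1 hρ1
    have h7 : (Q + ENNReal.ofReal (ε / (2 * ω.toReal))) * (ω * ENNReal.ofReal ρ ^ m) ≠ ⊤ :=
      ENNReal.mul_ne_top (ENNReal.add_ne_top.2 ⟨hQt, ENNReal.ofReal_ne_top⟩) hωρ'
    have h8 := ENNReal.toReal_mono h7 h6.le
    rw [ENNReal.toReal_mul, hreal, ENNReal.toReal_add hQt ENNReal.ofReal_ne_top,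
      ENNReal.toReal_ofReal (by positivity)] at h8
    exact h8
  have hρm : 0 < ρ ^ m := by positivity
  rw [Real.dist_eq, abs_lt]
  have h9 : Q.toReal * ω.toReal ≤ (ρ ^ m)⁻¹ * μ.real (ball x₀ ρ) := by
    rw [inv_mul_eq_div, le_div_iff₀ hρm]
    linarith
  have h10 : (ρ ^ m)⁻¹ * μ.real (ball x₀ ρ) ≤ Q.toReal * ω.toReal + ε / 2 := by
    rw [inv_mul_eq_div, div_le_iff₀ hρm]
    have h11 : (Q.toReal + ε / (2 * ω.toReal)) * (ω.toReal * ρ ^ m) =
        (Q.toReal * ω.toReal + ε / 2) * ρ ^ m := by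
      field_simp
    linarith
  constructor <;> linarith

/-- `0` belongs to `Sg` -/
lemma Sit.zero_mem {ι : Type*} {l : Filter ι} [l.NeBot] {κ : ℝ} {μ : ι → Measure (E N)}
    {P : ι → E N → E N →L[ℝ] E N} {L : ι → ℝ} {G : ι → Set (E N)} {ν : Measure (E N)}
    (h : Sit l m κ μ P L G ν) :
    (0 : E N) ∈ Sg m κ ν := by
  have := h.fin
  have := h.locfin
  intro s hs
  have h1 : ∀ s' : ℝ, 0 < s' → s' < s → κ * s' ^ m ≤ ν.real (ball 0 s) := by
    intro s' hs' hss
    refine le_of_forall_pos_le_add fun ε hε => ?_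
    have h2 := ev_le h.vague (isCompact_closedBall (0 : E N) s') isOpen_ball
      (closedBall_subset_ball hss) (ball_fin 0 s) hε
    apply le_of_tendsto (h.ratio s' hs')
    filter_upwards [h2] with j hj
    exact (measureReal_mono ball_subset_closedBall (measure_ne_top _ _)).trans hj
  have h2 : Tendsto (fun s' : ℝ => κ * s' ^ m) (𝓝[<] s) (𝓝 (κ * s ^ m)) := by
    apply tendsto_nhdsWithin_of_tendsto_nhds
    have : Continuous fun s' : ℝ => κ * s' ^ m := by fun_prop
    exact this.tendsto s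
  apply le_of_tendsto h2
  filter_upwards [Ioo_mem_nhdsLT hs] with s' hs'
  exact h1 s' hs'.1 hs'.2

/-- the main theorem in the internal form -/
theorem core {U : Set (E N)} (hU : IsOpen U) (hm : 1 ≤ m) {μ : Measure (E N)}
    {P : E N → E N →L[ℝ] E N} (hS : Stat m U μ P) {x₀ : E N} (hx₀ : x₀ ∈ U)
    {ι : Type*} {l : Filter ι} [l.NeBot] {r : ι → ℝ} (hr : ∀ j, 0 < r j)
    (hr0 : Tendsto r l (𝓝 0))
    {ν : Measure (E N)} (hν : IsFiniteMeasureOnCompacts ν)
    (hlim : ∀ f : E N → ℝ, Continuous f → HasCompactSupport f →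
      Tendsto (fun j => (r j ^ m)⁻¹ * ∫ x, f ((r j)⁻¹ • (x - x₀)) ∂μ) l (𝓝 (∫ x, f x ∂ν)))
    {c : ℝ} (hc : 0 < c)
    (hG : ∃ᶠ j in l, ENNReal.ofReal (c * r j ^ m) ≤
      μ ({x | density m μ x₀ ≤ density m μ x} ∩ ball x₀ (r j))) :
    ∃ L : E m →ₗᵢ[ℝ] E N, ν = density m μ x₀ • (volume : Measure (E m)).map L ∧
      ∀ a : E m, ∀ ρ : ℝ, 0 < ρ → Tendsto (fun j => (r j ^ m)⁻¹ *
        ∫ x in ball x₀ (r j * ρ), ‖L a - P x (L a)‖ ^ 2 ∂μ) l (𝓝 0) := by
  obtain ⟨R₁, hR₁, hRU⟩ := Metric.isOpen_iff.1 hU x₀ hx₀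
  set R := R₁ / 2 with hRdef
  have hR : 0 < R := by positivity
  have hcU : closedBall x₀ R ⊆ U := (closedBall_subset_ball (by linarith)).trans hRU
  have hbU : ball x₀ R ⊆ U := ball_subset_closedBall.trans hcU
  set μ0 := μ.restrict (ball x₀ R) with hμ0
  have hfin0 : IsFiniteMeasure μ0 := ⟨by
    rw [hμ0, Measure.restrict_apply_univ]
    exact (measure_mono ball_subset_closedBall).trans_lt
      (hS.fin _ hcU (isCompact_closedBall x₀ R))⟩
  set Q := density m μ x₀ with hQ
  have hQt : Q ≠ ⊤ := density_lt_top hS hU hx₀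
  set ω := (volume : Measure (E m)).real (ball 0 1) with hω
  have hω0 : 0 < ω := ENNReal.toReal_pos (omega_pos m) (omega_lt m)
  set κ := Q.toReal * ω with hκ
  have hS0 := stat_restrict hS hbU
  have hrGT : Tendsto r l (𝓝[>] 0) :=
    tendsto_nhdsWithin_iff.2 ⟨hr0, Eventually.of_forall hr⟩
  have hpre : ∀ j, (fun y : E N => x₀ + r j • y) ⁻¹' ball x₀ R = ball 0 (R / r j) := by
    intro j
    ext y
    rw [mem_preimage, mem_ball, mem_ball_zero_iff, dist_eq_norm, add_sub_cancel_left, norm_smul,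
      Real.norm_of_nonneg (hr j).le, lt_div_iff₀ (hr j), mul_comm]
  -- real measures of balls
  have hball : ∀ j z s, closedBall z s ⊆ ball 0 (R / r j) →
      (resc m x₀ (r j) μ0).real (ball z s) =
        (r j ^ m)⁻¹ * μ.real (ball (x₀ + r j • z) (r j * s)) ∧
      (0 < s → closedBall (x₀ + r j • z) (r j * s) ⊆ ball x₀ R) := by
    intro j z s hzs
    have hb : 0 < s → closedBall (x₀ + r j • z) (r j * s) ⊆ ball x₀ R := by
      intro hs x hx
      have h1 : (r j)⁻¹ • (x - x₀) ∈ closedBall z s := by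
        rw [mem_closedBall, dist_eq_norm] at hx ⊢
        have e : x - (x₀ + r j • z) = r j • ((r j)⁻¹ • (x - x₀) - z) := by
          rw [smul_sub, smul_smul, mul_inv_cancel₀ (hr j).ne', one_smul]
          abel
        rw [e, norm_smul, Real.norm_of_nonneg (hr j).le] at hx
        exact le_of_mul_le_mul_left hx (hr j)
      have h2 := hzs h1
      rw [← hpre j, mem_preimage, back (hr j)] at h2
      exact h2
    refine ⟨?_, hb⟩
    rw [Measure.real, resc_apply (hr j), pre_ball (hr j), ENNReal.toReal_mul,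
      ENNReal.toReal_ofReal (by have := hr j; positivity)]
    congr 1
    rw [hμ0, Measure.restrict_apply measurableSet_ball]
    rcases le_or_gt s 0 with hs | hs
    · have : r j * s ≤ 0 := mul_nonpos_of_nonneg_of_nonpos (hr j).le hs
      rw [ball_eq_empty.2 this]
      simp
    · rw [inter_eq_left.2 (ball_subset_closedBall.trans (hb hs))]
      rfl
  have hlarge : Tendsto (fun j => R / r j) l atTop := by
    have h1 : Tendsto (fun j => (r j)⁻¹) l atTop := tendsto_inv_nhdsGT_zero.comp hrGT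
    exact h1.const_mul_atTop hR
  have hev : ∀ (z : E N) (s : ℝ), ∀ᶠ j in l, closedBall z s ⊆ ball 0 (R / r j) := by
    intro z s
    filter_upwards [hlarge.eventually_gt_atTop (s + ‖z‖)] with j hj
    intro x hx
    rw [mem_closedBall, dist_eq_norm] at hx
    rw [mem_ball_zero_iff]
    calc ‖x‖ = ‖(x - z) + z‖ := by rw [sub_add_cancel]
      _ ≤ ‖x - z‖ + ‖z‖ := norm_add_le _ _
      _ < R / r j := by linarith
  have hsit : Sit l m κ (fun j => resc m x₀ (r j) μ0) (fun j y => P (x₀ + r j • y))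
      (fun j => R / r j) (fun j => {z | Q ≤ density m μ (x₀ + r j • z)}) ν := by
    refine ⟨?_, ?_, hlarge, ?_, hν, ?_, ?_⟩
    · intro j
      refine ⟨?_⟩
      rw [resc_apply (hr j)]
      exact ENNReal.mul_lt_top ENNReal.ofReal_lt_top (measure_lt_top _ _)
    · intro j
      have h1 := stat_resc isOpen_ball hS0 x₀ (hr j)
      rw [hpre j] at h1
      exact h1
    · intro f hf hc'
      apply (hlim f hf hc').congr'
      obtain ⟨ρ, hρ, hsub⟩ := exists_rad hc'
      filter_upwards [hev 0 ρ] with j hj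
      rw [integral_resc (hr j)]
      congr 1
      symm
      apply setIntegral_eq_integral_of_forall_compl_eq_zero
      intro x hx
      apply image_eq_zero_of_notMem_tsupport
      intro h1
      apply hx
      have h2 := hj (ball_subset_closedBall (hsub h1))
      rw [← hpre j, mem_preimage, back (hr j)] at h2
      exact h2
    · intro s hs
      have h1 : Tendsto (fun j => r j * s) l (𝓝[>] 0) := by
        refine tendsto_nhdsWithin_iff.2 ⟨?_, Eventually.of_forall fun j => mul_pos (hr j) hs⟩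
        have := hr0.mul_const s
        rwa [zero_mul] at this
      have h2 := ((ratio_tendsto hS hU hx₀).comp h1).mul_const (s ^ m)
      apply h2.congr'
      filter_upwards [hev 0 s] with j hj
      rw [(hball j 0 s hj).1, smul_zero, add_zero, Function.comp_apply, mul_pow]
      have := hr j
      field_simp
    · intro j z hz s hs hzs
      obtain ⟨h1, h2⟩ := hball j z s hzs
      rw [h1]
      have h3 := h2 hs
      have hrs : 0 < r j * s := mul_pos (hr j) hs
      have h4 := density_le hS (h3.trans hbU) hrs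
      have hft : μ (ball (x₀ + r j • z) (r j * s)) ≠ ⊤ :=
        ((measure_mono ball_subset_closedBall).trans_lt
          (hS.fin _ (h3.trans hbU) (isCompact_closedBall _ _))).ne
      have h5 : Q * (volume (ball (0 : EuclideanSpace ℝ (Fin m)) 1) *
          ENNReal.ofReal (r j * s) ^ m) ≤ μ (ball (x₀ + r j • z) (r j * s)) :=
        (mul_le_mul_left hz _).trans h4
      have h6 := ENNReal.toReal_mono hft h5
      rw [ENNReal.toReal_mul, ENNReal.toReal_mul, ENNReal.toReal_pow,
        ENNReal.toReal_ofReal hrs.le] at h6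
      have hrm : 0 < r j ^ m := pow_pos (hr j) m
      rw [inv_mul_eq_div, le_div_iff₀ hrm]
      calc κ * s ^ m * r j ^ m = Q.toReal * (ω * (r j * s) ^ m) := by
            rw [hκ, mul_pow]; ring
        _ ≤ _ := h6
  have hG' : ∃ᶠ j in l, c ≤ (resc m x₀ (r j) μ0).real
      ({z | Q ≤ density m μ (x₀ + r j • z)} ∩ closedBall 0 1) := by
    apply (hG.and_eventually (hev 0 1)).mono
    rintro j ⟨hj1, hj2⟩
    have := hsit.fin j
    have hrm : 0 < r j ^ m := pow_pos (hr j) m
    have h1 : ENNReal.ofReal c ≤ resc m x₀ (r j) μ0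
        ({z | Q ≤ density m μ (x₀ + r j • z)} ∩ closedBall 0 1) := by
      rw [resc_apply (hr j), hμ0, Measure.restrict_apply' measurableSet_ball]
      have h2 : {x | Q ≤ density m μ x} ∩ ball x₀ (r j) ⊆
          (fun x => (r j)⁻¹ • (x - x₀)) ⁻¹' ({z | Q ≤ density m μ (x₀ + r j • z)} ∩
            closedBall 0 1) ∩ ball x₀ R := by
        rintro x ⟨hx1, hx2⟩
        have h3 : (r j)⁻¹ • (x - x₀) ∈ closedBall (0 : E N) 1 := by
          rw [mem_closedBall_zero_iff, norm_smul, norm_inv, Real.norm_of_nonneg (hr j).le,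
            inv_mul_le_one₀ (hr j), ← dist_eq_norm]
          exact (mem_ball.1 hx2).le
        refine ⟨⟨?_, h3⟩, ?_⟩
        · change Q ≤ density m μ (x₀ + r j • ((r j)⁻¹ • (x - x₀)))
          rw [back (hr j)]
          exact hx1
        · have h4 := hj2 h3
          rw [← hpre j, mem_preimage, back (hr j)] at h4
          exact h4
      calc ENNReal.ofReal c = ENNReal.ofReal ((r j ^ m)⁻¹) * ENNReal.ofReal (c * r j ^ m) := by
            rw [← ENNReal.ofReal_mul (by positivity)]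
            congr 1
            field_simp
        _ ≤ ENNReal.ofReal ((r j ^ m)⁻¹) * μ ({x | Q ≤ density m μ x} ∩ ball x₀ (r j)) := by
            gcongr
        _ ≤ _ := by
            gcongr
    rw [Measure.real]
    exact (ENNReal.ofReal_le_iff_le_toReal (measure_ne_top _ _)).1 h1
  have hSg := hsit.pos hc hG'
  have h0 := hsit.zero_mem
  have hsubW := hsit.Sg_sub hm h0
  obtain ⟨L, c', h1, hLW, h2⟩ := flat (m := m) (κ := κ) (ν := ν) hsit.W
    (fun e he => hsit.map_eq he) (fun s hs => hsit.upper 0 hs) (fun s hs => h0 s hs)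
    (fun h3 => hSg (measure_mono_null hsubW h3))
  refine ⟨L, ?_, ?_⟩
  swap
  · intro a ρ hρ
    have h5 : Tendsto (fun j => ∫ y in ball 0 ρ, ‖L a - P (x₀ + r j • y) (L a)‖ ^ 2
        ∂(resc m x₀ (r j) μ0)) l (𝓝 0) := hLW a ρ hρ
    apply h5.congr'
    filter_upwards [hev 0 ρ] with j hj
    rw [← integral_indicator measurableSet_ball, integral_resc (hr j)]
    congr 1
    have hb := (hball j 0 ρ hj).2 hρ
    rw [smul_zero, add_zero] at hb
    have e1 : ∀ x, (ball (0 : E N) ρ).indicator (fun y => ‖L a - P (x₀ + r j • y) (L a)‖ ^ 2)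
        ((r j)⁻¹ • (x - x₀)) =
        (ball x₀ (r j * ρ)).indicator (fun x => ‖L a - P x (L a)‖ ^ 2) x := by
      intro x
      have e2 : (r j)⁻¹ • (x - x₀) ∈ ball (0 : E N) ρ ↔ x ∈ ball x₀ (r j * ρ) := by
        have := pre_ball (x₀ := x₀) (z := (0 : E N)) (s := ρ) (hr j)
        rw [smul_zero, add_zero] at this
        rw [← this]
        rfl
      by_cases hx : x ∈ ball x₀ (r j * ρ)
      · rw [indicator_of_mem hx, indicator_of_mem (e2.2 hx), back (hr j)]
      · rw [indicator_of_notMem hx, indicator_of_notMem fun h => hx (e2.1 h)]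
    simp_rw [e1]
    rw [integral_indicator measurableSet_ball, hμ0,
      Measure.restrict_restrict_of_subset (ball_subset_closedBall.trans hb)]
  have h3 : (c' : ℝ) = Q.toReal := mul_right_cancel₀ hω0.ne' h1
  have h4 : (c' : ℝ≥0∞) = Q := by
    rw [← ENNReal.ofReal_toReal hQt, ← h3, ENNReal.ofReal_coe_nnreal]
  rw [← h4]
  exact h2

end Pool.Agent.Q160.FT
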