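import Pool.Agent.TH337.VF.Defs
import Mathlib.MeasureTheory.Covering.Vitali

/-!
A maximal inequality from the Vitali covering lemma.
-/

set_option autoImplicit false

namespace Pool.Agent.Q160.FT

open MeasureTheory Set Filter Topology Metric Pool.Agent.TH337.VF
open scoped ENNReal

variable {N : ℕ}

theorem maximal {μ lam : Measure (E N)} {S Ω : Set (E N)} (hΩ : MeasurableSet Ω) {K : ℝ≥0∞} {R : ℝ}
    (h : ∀ x ∈ S, ∃ s : ℝ, 0 < s ∧ s ≤ R ∧ closedBall x s ⊆ Ω ∧
      μ (closedBall x (5 * s)) ≤ K * lam (closedBall x s)) :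
    μ S ≤ K * lam Ω := by
  classical
  choose! s hs0 hsR hsΩ hs using h
  obtain ⟨u, hu, hdisj, hcov⟩ := Vitali.exists_disjoint_subfamily_covering_enlargement_closedBall
    S (fun x : E N => x) s R hsR 5 (by norm_num)
  have hcount : u.Countable := by
    apply hdisj.countable_of_nonempty_interior
    intro x hx
    exact ⟨x, by
      rw [mem_interior_iff_mem_nhds]
      exact closedBall_mem_nhds x (hs0 x (hu hx))⟩
  have h1 : S ⊆ ⋃ x ∈ u, closedBall x (5 * s x) := by
    intro x hx
    obtain ⟨b, hb, hsub⟩ := hcov x hx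
    exact mem_biUnion hb (hsub (mem_closedBall_self (hs0 x hx).le))
  have : Countable u := hcount
  calc μ S ≤ μ (⋃ x ∈ u, closedBall x (5 * s x)) := measure_mono h1
    _ ≤ ∑' x : u, μ (closedBall (x : E N) (5 * s x)) := measure_biUnion_le μ hcount _
    _ ≤ ∑' x : u, K * lam (closedBall (x : E N) (s x)) :=
        ENNReal.tsum_le_tsum fun x => hs x (hu x.2)
    _ = K * ∑' x : u, lam (closedBall (x : E N) (s x)) := ENNReal.tsum_mul_left
    _ = K * lam (⋃ x : u, closedBall (x : E N) (s x)) := by
        rw [measure_iUnion]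
        · intro x y hxy
          exact hdisj x.2 y.2 (fun h => hxy (Subtype.ext h))
        · exact fun x => isClosed_closedBall.measurableSet
    _ ≤ K * lam Ω := by
        gcongr
        exact iUnion_subset fun x => hsΩ x (hu x.2)

end Pool.Agent.Q160.FT
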