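import Pool.Agent.Q160.FT.Quant3
import Pool.Agent.Q160.FT.Vit
import Pool.Agent.Q160.FT.Plane

/-!
From flatness and a small tilt to the closeness of the support to a fixed plane.
-/

set_option autoImplicit false

namespace Pool.Agent.Q160.FT

open MeasureTheory Set Filter Topology Metric Pool.Agent.TH337.VF
open scoped ENNReal NNReal RealInnerProductSpace

variable {N m : ℕ}

/-- the total tilt with respect to the plane of `L` -/
noncomputable def sm (T : E N → Submodule ℝ (E N)) (L : E m →ₗᵢ[ℝ] E N) (x : E N) : ℝ :=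
  ∑ i, ‖L (EuclideanSpace.single i 1) -
    (T x).starProjection (L (EuclideanSpace.single i 1))‖ ^ 2

lemma sm_nonneg (T : E N → Submodule ℝ (E N)) (L : E m →ₗᵢ[ℝ] E N) (x : E N) : 0 ≤ sm T L x :=
  Finset.sum_nonneg fun i _ => by positivity

lemma meas_tilt {T : E N → Submodule ℝ (E N)} (hT : Measurable fun x => (T x).starProjection)
    (v : E N) : Measurable fun x => ‖v - (T x).starProjection v‖ ^ 2 :=
  (measurable_const.sub (meas_app hT measurable_const)).norm.pow_const 2

lemma meas_sm {T : E N → Submodule ℝ (E N)} (hT : Measurable fun x => (T x).starProjection)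
    (L : E m →ₗᵢ[ℝ] E N) : Measurable (sm T L) := by
  unfold sm
  exact Finset.measurable_sum _ fun i _ => meas_tilt hT _

lemma tilt_bd (T : Submodule ℝ (E N)) (v : E N) : ‖v - T.starProjection v‖ ^ 2 ≤ ‖v‖ ^ 2 := by
  have h1 : v - T.starProjection v = Tᗮ.starProjection v := by
    rw [sub_eq_iff_eq_add, add_comm]
    exact (Submodule.starProjection_add_starProjection_orthogonal (K := T) v).symm
  rw [h1]
  have h2 : ‖Tᗮ.starProjection v‖ ≤ ‖v‖ := by
    have h3 := (Tᗮ.starProjection).le_opNorm v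
    have h4 := Tᗮ.starProjection_norm_le
    nlinarith [norm_nonneg v]
  gcongr

lemma int_tilt {μ : Measure (E N)} {T : E N → Submodule ℝ (E N)}
    (hT : Measurable fun x => (T x).starProjection) (v : E N) {A : Set (E N)} (hA : μ A ≠ ⊤) :
    IntegrableOn (fun x => ‖v - (T x).starProjection v‖ ^ 2) A μ := by
  have : IsFiniteMeasure (μ.restrict A) := ⟨by rw [Measure.restrict_apply_univ]; exact hA.lt_top⟩
  refine Integrable.of_bound (C := ‖v‖ ^ 2) (meas_tilt hT v).aestronglyMeasurable ?_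
  filter_upwards with x
  rw [Real.norm_eq_abs, abs_of_nonneg (by positivity)]
  exact tilt_bd (T x) v

lemma int_sm {μ : Measure (E N)} {T : E N → Submodule ℝ (E N)}
    (hT : Measurable fun x => (T x).starProjection) (L : E m →ₗᵢ[ℝ] E N) {A : Set (E N)}
    (hA : μ A ≠ ⊤) : IntegrableOn (sm T L) A μ := by
  unfold sm
  exact integrable_finsetSum _ fun i _ => int_tilt hT _ hA

/-- closeness of the support to a fixed plane -/
lemma flat_dir {μ : Measure (E N)} {T : E N → Submodule ℝ (E N)}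
    (hT : Measurable fun x => (T x).starProjection) {x : E N} {t κ ε₁ η β q : ℝ} {f : E N → ℝ}
    (ht : 0 < t) (hfin : μ (ball x t) ≠ ⊤)
    (hdim : ∀ᵐ z ∂(μ.restrict (ball x t)), Module.finrank ℝ (T z) = m) (hκ : 0 < κ)
    (hlow : κ * t ^ m ≤ μ.real (ball x t))
    (hflat : FlatAt m ε₁ q f μ (fun z => (T z).starProjection) x t) (hε₁ : ε₁ ≤ 1)
    (L : E m →ₗᵢ[ℝ] E N) (htilt : ∫ z in ball x t, sm T L z ∂μ ≤ η * t ^ m) (hβ : 0 ≤ β)
    (hc : 2 * (ε₁ + η) ≤ κ * β ^ 2) {y : E N} (hy : y ∈ closedBall x t) (hyS : Supp μ y) :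
    ‖(LinearMap.range L.toLinearMap)ᗮ.starProjection (y - x)‖ ≤ (ε₁ + 2 * β) * t := by
  set W := LinearMap.range L.toLinearMap with hW
  obtain ⟨M, g1, -, g3, -⟩ := hflat
  obtain ⟨a, ha⟩ := g1 y hy hyS
  have hyx : ‖y - x‖ ≤ t := by
    rw [← dist_eq_norm]
    exact hy
  have hε0 : 0 < ε₁ := by
    have h1 := (norm_nonneg _).trans_lt ha
    exact pos_of_mul_pos_left h1 ht.le
  have ha1 : ‖a‖ ≤ 2 * t := by
    rw [← M.norm_map a]
    have e : M a = (y - x) - (y - (x + M a)) := by abel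
    rw [e]
    refine (norm_sub_le _ _).trans ?_
    nlinarith
  set b : E m := (2 * t)⁻¹ • a with hb
  have hb1 : ‖b‖ ≤ 1 := by
    rw [hb, norm_smul, norm_inv, Real.norm_of_nonneg (by positivity), inv_mul_le_iff₀ (by positivity)]
    linarith
  set w := M b with hw
  set z := Wᗮ.starProjection w with hz
  have hw1 : ‖w‖ ≤ 1 := by
    rw [hw, M.norm_map]
    exact hb1
  have hz0 : ∀ c, ⟪L c, z⟫ = 0 := by
    intro c
    apply Submodule.inner_right_of_mem_orthogonal (K := W)
    · exact ⟨c, rfl⟩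
    · exact Submodule.starProjection_apply_mem _ _
  have hzw : ⟪z, w⟫ = ‖z‖ ^ 2 := by
    rw [← real_inner_self_eq_norm_sq, hz]
    have h1 := Wᗮ.inner_starProjection_left_eq_right w (Wᗮ.starProjection w)
    have h2 : Wᗮ.starProjection (Wᗮ.starProjection w) = Wᗮ.starProjection w :=
      Submodule.starProjection_eq_self_iff.2 (Submodule.starProjection_apply_mem _ _)
    rw [h2] at h1
    rw [h1, real_inner_comm]
  have hpt : ∀ᵐ p ∂(μ.restrict (ball x t)), ‖z‖ ^ 2 ≤
      2 * ‖w - (T p).starProjection w‖ ^ 2 + 2 * sm T L p := by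
    filter_upwards [hdim] with p hp
    exact perp_le (T p) hp L w z hz0 hzw hw1
  have hi1 := int_tilt hT w hfin
  have hi2 := int_sm hT L hfin
  have : IsFiniteMeasure (μ.restrict (ball x t)) :=
    ⟨by rw [Measure.restrict_apply_univ]; exact hfin.lt_top⟩
  have h1 : ‖z‖ ^ 2 * μ.real (ball x t) ≤
      2 * ∫ p in ball x t, ‖w - (T p).starProjection w‖ ^ 2 ∂μ + 2 * ∫ p in ball x t, sm T L p ∂μ := by
    have hsum : Integrable (fun p => 2 * ‖w - (T p).starProjection w‖ ^ 2 + 2 * sm T L p)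
        (μ.restrict (ball x t)) := (hi1.const_mul 2).add (hi2.const_mul 2)
    have h2 := integral_mono_ae (integrable_const (‖z‖ ^ 2)) hsum hpt
    rw [integral_const, smul_eq_mul] at h2
    have h3 : (μ.restrict (ball x t)).real univ = μ.real (ball x t) := by
      simp [Measure.real]
    rw [h3] at h2
    have h4 : ∫ p in ball x t, (2 * ‖w - (T p).starProjection w‖ ^ 2 + 2 * sm T L p) ∂μ =
        2 * ∫ p in ball x t, ‖w - (T p).starProjection w‖ ^ 2 ∂μ +
          2 * ∫ p in ball x t, sm T L p ∂μ := by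
      rw [integral_add (hi1.const_mul 2) (hi2.const_mul 2), integral_const_mul, integral_const_mul]
    rw [h4] at h2
    linarith
  have h6 := g3 b hb1
  have htm : 0 < t ^ m := by positivity
  rw [inv_mul_lt_iff₀ htm] at h6
  have h7 : ‖z‖ ^ 2 * (κ * t ^ m) ≤ κ * β ^ 2 * t ^ m := by
    calc ‖z‖ ^ 2 * (κ * t ^ m) ≤ ‖z‖ ^ 2 * μ.real (ball x t) := by gcongr
      _ ≤ _ := h1
      _ ≤ 2 * (t ^ m * ε₁) + 2 * (η * t ^ m) := by
        gcongr
      _ = 2 * (ε₁ + η) * t ^ m := by ring
      _ ≤ κ * β ^ 2 * t ^ m := by gcongr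
  have h8 : ‖z‖ ≤ β := by
    have h9 : ‖z‖ ^ 2 * (κ * t ^ m) ≤ β ^ 2 * (κ * t ^ m) := by linarith
    have h10 := le_of_mul_le_mul_right h9 (by positivity)
    exact (pow_le_pow_iff_left₀ (norm_nonneg _) hβ two_ne_zero).1 h10
  have h11 : Wᗮ.starProjection (M a) = (2 * t) • z := by
    rw [hz, hw, hb, map_smul, map_smul, smul_smul, mul_inv_cancel₀ (by positivity), one_smul]
  have e2 : y - x = (y - (x + M a)) + M a := by abel
  rw [e2, map_add, h11]
  refine (norm_add_le _ _).trans ?_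
  rw [norm_smul, Real.norm_of_nonneg (by positivity)]
  have h12 : ‖Wᗮ.starProjection (y - (x + M a))‖ ≤ ε₁ * t := by
    have h13 := (Wᗮ.starProjection).le_opNorm (y - (x + M a))
    have h14 := Wᗮ.starProjection_norm_le
    nlinarith [norm_nonneg (y - (x + M a))]
  nlinarith

end Pool.Agent.Q160.FT
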