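import Pool.Agent.Q160.FT.Single1
import Pool.Agent.Q160.FT.Scale

/-!
The tilt with respect to the plane of the unique tangent cone tends to zero.
-/

set_option autoImplicit false

namespace Pool.Agent.Q160.FT

open MeasureTheory Set Filter Topology Metric Pool.Agent.TH337.VF
open scoped ENNReal NNReal RealInnerProductSpace

variable {N m : ℕ}

lemma many {U : Set (E N)} (hU : IsOpen U) {μ : Measure (E N)}
    {P : E N → E N →L[ℝ] E N} (hS : Stat m U μ P) {x₀ : E N} (hx₀ : x₀ ∈ U)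
    (h0 : density m μ x₀ ≠ 0)
    (hD : Tendsto (fun ρ : ℝ => μ ({x | density m μ x ≠ density m μ x₀} ∩ ball x₀ ρ) /
        ENNReal.ofReal ρ ^ m) (𝓝[>] 0) (𝓝 0)) :
    ∃ c : ℝ, 0 < c ∧ ∀ᶠ r : ℝ in 𝓝[>] 0, ENNReal.ofReal (c * r ^ m) ≤
      μ ({x | density m μ x₀ ≤ density m μ x} ∩ ball x₀ r) := by
  set Q := density m μ x₀ with hQ
  have hQt : Q ≠ ⊤ := density_lt_top hS hU hx₀
  set q := Q.toReal with hq
  have hq0 : 0 < q := ENNReal.toReal_pos h0 hQt
  have hQe : ENNReal.ofReal q = Q := ENNReal.ofReal_toReal hQt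
  set ω := (volume : Measure (E m)).real (ball 0 1) with hω
  have hω0 : 0 < ω := ENNReal.toReal_pos (omega_pos m) (omega_lt m)
  have hωe : volume (ball (0 : EuclideanSpace ℝ (Fin m)) 1) = ENNReal.ofReal ω :=
    (ENNReal.ofReal_toReal (omega_lt m)).symm
  set κ := q * ω with hκ
  have hκ0 : 0 < κ := mul_pos hq0 hω0
  obtain ⟨R₀, hR₀, hRU⟩ := Metric.isOpen_iff.1 hU x₀ hx₀
  refine ⟨κ / 2, by positivity, ?_⟩
  have h2 : ∀ᶠ ρ : ℝ in 𝓝[>] 0, ρ ∈ Ioo 0 R₀ := Ioo_mem_nhdsGT hR₀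
  have h3 : ∀ᶠ ρ : ℝ in 𝓝[>] 0, μ ({x | density m μ x ≠ Q} ∩ ball x₀ ρ) /
      ENNReal.ofReal ρ ^ m < ENNReal.ofReal (κ / 2) :=
    hD.eventually (gt_mem_nhds (ENNReal.ofReal_pos.2 (by positivity)))
  filter_upwards [h2, h3] with t ht r3
  have ht0 : 0 < t := ht.1
  have a1 : ENNReal.ofReal t ^ m ≠ 0 := pow_ne_zero _ (ENNReal.ofReal_pos.2 ht0).ne'
  have a2 : ENNReal.ofReal t ^ m ≠ ⊤ := ENNReal.pow_ne_top ENNReal.ofReal_ne_top
  have a3 := ((ENNReal.div_lt_iff (Or.inl a1) (Or.inl a2)).1 r3).le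
  rw [← ENNReal.ofReal_pow ht0.le, ← ENNReal.ofReal_mul (by positivity)] at a3
  have f2 := density_le hS ((closedBall_subset_ball ht.2).trans hRU) ht0
  rw [← hQ, ← hQe, hωe, ← ENNReal.ofReal_pow ht0.le, ← ENNReal.ofReal_mul hω0.le,
    ← ENNReal.ofReal_mul hq0.le, ← mul_assoc, ← hκ] at f2
  have f1 : μ (ball x₀ t) ≤ μ ({z | Q ≤ density m μ z} ∩ ball x₀ t) +
      μ ({x | density m μ x ≠ Q} ∩ ball x₀ t) := by
    refine (measure_mono ?_).trans (measure_union_le _ _)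
    intro z hz
    by_cases hzQ : density m μ z = Q
    · exact Or.inl ⟨hzQ.ge, hz⟩
    · exact Or.inr ⟨hzQ, hz⟩
  have f3 := f2.trans (f1.trans (add_le_add le_rfl a3))
  have f4 : ENNReal.ofReal (κ * t ^ m) = ENNReal.ofReal (κ / 2 * t ^ m) +
      ENNReal.ofReal (κ / 2 * t ^ m) := by
    rw [← ENNReal.ofReal_add (by positivity) (by positivity)]
    congr 1
    ring
  rw [f4] at f3
  exact (ENNReal.add_le_add_iff_right ENNReal.ofReal_ne_top).1 f3

/-- the plane is determined by the Lebesgue measure on it -/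
lemma range_sub {L L' : E m →ₗᵢ[ℝ] E N} {Q : ℝ≥0∞} (hQ : Q ≠ 0)
    (h : Q • (volume : Measure (E m)).map L = Q • (volume : Measure (E m)).map L') (a : E m) :
    ∃ b, L' b = L a := by
  have hcl : IsClosed (range L') := L'.isometry.isClosedEmbedding.isClosed_range
  have h1 : (volume : Measure (E m)) (L ⁻¹' (range L')ᶜ) = 0 := by
    have h2 : (Q • (volume : Measure (E m)).map L) (range L')ᶜ = 0 := by
      rw [h, Measure.smul_apply, Measure.map_apply L'.continuous.measurable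
        hcl.isOpen_compl.measurableSet]
      have : L' ⁻¹' (range L')ᶜ = ∅ := by
        ext x
        simp
      rw [this, measure_empty, smul_zero]
    rw [Measure.smul_apply, Measure.map_apply L.continuous.measurable
      hcl.isOpen_compl.measurableSet, smul_eq_mul] at h2
    exact (mul_eq_zero.1 h2).resolve_left hQ
  have h3 : L ⁻¹' (range L')ᶜ = ∅ :=
    (hcl.isOpen_compl.preimage L.continuous).eq_empty_of_measure_zero h1
  by_contra hcon
  have : a ∈ L ⁻¹' (range L')ᶜ := by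
    intro h4
    exact hcon h4
  rw [h3] at this
  exact this

theorem tilt_tendsto (hm : 1 ≤ m) {U : Set (E N)} (hU : IsOpen U) {μ : Measure (E N)}
    {T : E N → Submodule ℝ (E N)} (hS : Stat m U μ (fun x => (T x).starProjection))
    {x₀ : E N} (hx₀ : x₀ ∈ U) (h0 : density m μ x₀ ≠ 0) (L : E m →ₗᵢ[ℝ] E N)
    (hcone : ∀ f : E N → ℝ, Continuous f → HasCompactSupport f →
      Tendsto (fun r : ℝ => (r ^ m)⁻¹ * ∫ x, f (r⁻¹ • (x - x₀)) ∂μ) (𝓝[>] 0)
        (𝓝 ((density m μ x₀).toReal * ∫ a, f (L a))))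
    (hD : Tendsto (fun ρ : ℝ => μ ({x | density m μ x ≠ density m μ x₀} ∩ ball x₀ ρ) /
        ENNReal.ofReal ρ ^ m) (𝓝[>] 0) (𝓝 0)) :
    Tendsto (fun r : ℝ => (r ^ m)⁻¹ * ∫ x in ball x₀ r, sm T L x ∂μ) (𝓝[>] 0) (𝓝 0) := by
  obtain ⟨c, hc, hmany⟩ := many hU hS hx₀ h0 hD
  set Q := density m μ x₀ with hQ
  have hQt : Q ≠ ⊤ := density_lt_top hS hU hx₀
  set ρ : ℝ → ℝ := fun r => if 0 < r then r else 1 with hρ
  have hρpos : ∀ r, 0 < ρ r := by
    intro r
    simp only [hρ]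
    split_ifs with h
    · exact h
    · exact one_pos
  have hρeq : ∀ r ∈ Ioi (0 : ℝ), ρ r = r := by
    intro r hr
    simp only [hρ, if_pos (show 0 < r from hr)]
  have hev : ∀ᶠ r : ℝ in 𝓝[>] 0, ρ r = r := by
    filter_upwards [self_mem_nhdsWithin] with r hr
    exact hρeq r hr
  have hρ0 : Tendsto ρ (𝓝[>] 0) (𝓝 0) := by
    have h1 : Tendsto (fun r : ℝ => r) (𝓝[>] 0) (𝓝 0) := tendsto_nhdsWithin_of_tendsto_nhds tendsto_id
    refine h1.congr' ?_
    filter_upwards [hev] with r hr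
    exact hr.symm
  have hfin : IsFiniteMeasureOnCompacts (Q • (volume : Measure (E m)).map L) := by
    refine ⟨fun K hK => ?_⟩
    rw [Measure.smul_apply, Measure.map_apply L.continuous.measurable hK.measurableSet, smul_eq_mul]
    refine ENNReal.mul_lt_top hQt.lt_top ?_
    obtain ⟨R, hR⟩ := hK.isBounded.subset_closedBall 0
    refine (measure_mono (t := closedBall (0 : E m) R) ?_).trans_lt
      (isCompact_closedBall _ _).measure_lt_top
    intro a ha
    have := hR ha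
    rw [mem_closedBall_zero_iff] at this ⊢
    rwa [L.norm_map] at this
  have hlim : ∀ f : E N → ℝ, Continuous f → HasCompactSupport f →
      Tendsto (fun j => (ρ j ^ m)⁻¹ * ∫ x, f ((ρ j)⁻¹ • (x - x₀)) ∂μ) (𝓝[>] 0)
        (𝓝 (∫ x, f x ∂(Q • (volume : Measure (E m)).map L))) := by
    intro f hf hfc
    rw [integral_smul_measure, L.isometry.isClosedEmbedding.measurableEmbedding.integral_map,
      smul_eq_mul]
    refine (hcone f hf hfc).congr' ?_
    filter_upwards [hev] with r hr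
    rw [hr]
  obtain ⟨L', hL', ht⟩ := core hU hm hS hx₀ hρpos hρ0 hfin hlim hc (by
    apply Eventually.frequently
    filter_upwards [hmany, hev] with r hr1 hr2
    rw [hr2]
    exact hr1)
  have h1 : ∀ i : Fin m, Tendsto (fun r : ℝ => (r ^ m)⁻¹ * ∫ x in ball x₀ r,
      ‖L (EuclideanSpace.single i 1) -
        (T x).starProjection (L (EuclideanSpace.single i 1))‖ ^ 2 ∂μ) (𝓝[>] 0) (𝓝 0) := by
    intro i
    obtain ⟨b, hb⟩ := range_sub h0 hL' (EuclideanSpace.single i (1 : ℝ))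
    refine (ht b 1 one_pos).congr' ?_
    filter_upwards [hev] with r hr
    rw [hr, mul_one, hb]
  have h2 := tendsto_finsetSum Finset.univ fun i _ => h1 i
  rw [Finset.sum_const_zero] at h2
  refine h2.congr' ?_
  obtain ⟨R₀, hR₀, hRU⟩ := Metric.isOpen_iff.1 hU x₀ hx₀
  filter_upwards [Ioo_mem_nhdsGT hR₀] with r hr
  have hfb : μ (ball x₀ r) ≠ ⊤ := ((measure_mono ball_subset_closedBall).trans_lt
    (hS.fin _ ((closedBall_subset_ball hr.2).trans hRU) (isCompact_closedBall x₀ r))).ne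
  rw [← Finset.mul_sum]
  congr 1
  unfold sm
  rw [integral_finsetSum]
  intro i _
  exact int_tilt hS.meas _ hfb

end Pool.Agent.Q160.FT
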