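import Pool.Agent.TH337.VF.Dens
import Mathlib.MeasureTheory.Covering.Besicovitch
import Mathlib.MeasureTheory.Covering.BesicovitchVectorSpace
import Mathlib.MeasureTheory.Covering.Differentiation

/-!
The shadow of a set in a Lipschitz graph.
-/

set_option autoImplicit false

namespace Pool.Agent.Q160.FT

open MeasureTheory Set Filter Topology Metric Pool.Agent.TH337.VF
open scoped ENNReal NNReal RealInnerProductSpace

variable {N m : ℕ}

theorem shadow {μ : Measure (E N)} {G : Set (E N)} (hGfin : μ G ≠ ⊤) (x₀ : E N)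
    (p : E N →L[ℝ] E m) {K K₁ C R : ℝ} (hKK : K < K₁) (hK : 0 < K) (hR : 0 < R) (hC : 0 ≤ C)
    (hG : ∀ x ∈ G, ∀ y ∈ G, ‖y - x‖ ≤ K * ‖p (y - x)‖)
    (hb : ∀ x ∈ G, ∀ t : ℝ, 0 < t → t ≤ R → μ (ball x t) ≤ ENNReal.ofReal (C * t ^ m) *
      volume (ball (0 : EuclideanSpace ℝ (Fin m)) 1)) :
    μ G ≤ ENNReal.ofReal (C * K₁ ^ m) * volume ((fun x => p (x - x₀)) '' G) := by
  have hK₁ : 0 < K₁ := hK.trans hKK
  have hpm : Measurable fun x : E N => p (x - x₀) := by fun_prop
  set S := (fun x => p (x - x₀)) '' G with hS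
  set ρ := (μ.restrict G).map (fun x => p (x - x₀)) with hρ
  have hfin : IsFiniteMeasure (μ.restrict G) :=
    ⟨by rw [Measure.restrict_apply_univ]; exact hGfin.lt_top⟩
  have hρfin : IsFiniteMeasure ρ := by
    rw [hρ]; infer_instance
  have h1 : μ G ≤ ρ S := by
    rw [← measure_toMeasurable S, hρ, Measure.map_apply hpm (measurableSet_toMeasurable _ _),
      Measure.restrict_apply (hpm (measurableSet_toMeasurable _ _))]
    apply measure_mono
    intro x hx
    exact ⟨subset_toMeasurable _ _ ⟨x, hx, rfl⟩, hx⟩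
  refine h1.trans ?_
  have hν : IsLocallyFiniteMeasure (ENNReal.ofReal (C * K₁ ^ m) • (volume : Measure (E m))) :=
    ⟨fun x => ⟨ball x 1, ball_mem_nhds x one_pos, by
      rw [Measure.smul_apply, smul_eq_mul]
      exact ENNReal.mul_lt_top ENNReal.ofReal_lt_top measure_ball_lt_top⟩⟩
  have hac : ρ ≪ ρ + (volume : Measure (E m)) := by
    apply Measure.absolutelyContinuous_of_le
    exact Measure.le_add_right le_rfl
  have h2 := (Besicovitch.vitaliFamily (ρ + (volume : Measure (E m)))).measure_le_of_frequently_le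
    (ENNReal.ofReal (C * K₁ ^ m) • (volume : Measure (E m))) hac S ?_
  · rwa [Measure.smul_apply, smul_eq_mul] at h2
  rintro a ⟨x, hx, rfl⟩
  apply (Besicovitch.tendsto_filterAt (ρ + (volume : Measure (E m))) (p (x - x₀))).frequently
  apply Eventually.frequently
  filter_upwards [Ioo_mem_nhdsGT (show 0 < R / K₁ by positivity)] with t ht
  have ht0 : 0 < t := ht.1
  have htR : K₁ * t ≤ R := by
    have := ht.2.le
    rw [le_div_iff₀ hK₁] at this
    linarith
  have h3 : ρ (closedBall (p (x - x₀)) t) ≤ μ (ball x (K₁ * t)) := by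
    rw [hρ, Measure.map_apply hpm isClosed_closedBall.measurableSet,
      Measure.restrict_apply (hpm isClosed_closedBall.measurableSet)]
    apply measure_mono
    rintro y ⟨hy1, hy2⟩
    have h4 := hG x hx y hy2
    have h5 : ‖p (y - x)‖ ≤ t := by
      have h6 : p (y - x) = p (y - x₀) - p (x - x₀) := by
        rw [← map_sub]
        congr 1
        abel
      rw [h6, ← dist_eq_norm]
      exact hy1
    rw [mem_ball, dist_eq_norm]
    calc ‖y - x‖ ≤ K * ‖p (y - x)‖ := h4
      _ ≤ K * t := by gcongr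
      _ < K₁ * t := by gcongr
  refine h3.trans ((hb x hx (K₁ * t) (by positivity) htR).trans (le_of_eq ?_))
  rw [Measure.smul_apply, smul_eq_mul, Measure.addHaar_closedBall _ _ ht0.le, finrank_euclideanSpace_fin,
    mul_pow, ← mul_assoc C, ENNReal.ofReal_mul (by positivity), mul_assoc]

end Pool.Agent.Q160.FT
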