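import Pool.Agent.Q160.FT.Single1

/-!
The support near a point with the two properties of the question: a single sheet up to a small set.
-/

set_option autoImplicit false

namespace Pool.Agent.Q160.FT

open MeasureTheory Set Filter Topology Metric Pool.Agent.TH337.VF
open scoped ENNReal NNReal RealInnerProductSpace

variable {N m : ℕ}

lemma exists_K'' (q δ : ℝ) (hδ : 0 < δ) (B : ℝ) : ∃ K : ℝ, 1 ≤ K ∧ B ≤ K ∧
    (q + δ / 2) * ((K + 1) / K) ^ m ≤ q + δ := by
  have h1 : Tendsto (fun K : ℝ => (q + δ / 2) * (1 + K⁻¹) ^ m) atTop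
      (𝓝 ((q + δ / 2) * (1 + 0) ^ m)) :=
    (((tendsto_inv_atTop_zero).const_add 1).pow m).const_mul _
  rw [add_zero, one_pow, mul_one] at h1
  have h2 := h1.eventually (gt_mem_nhds (show q + δ / 2 < q + δ by linarith))
  obtain ⟨K, hK1, hK2, hK3⟩ := (h2.and ((eventually_ge_atTop (1 : ℝ)).and
    (eventually_ge_atTop B))).exists
  refine ⟨K, hK2, hK3, ?_⟩
  have e : (K + 1) / K = 1 + K⁻¹ := by field_simp
  rw [e]
  exact hK1.le

theorem single_lin (hm : 1 ≤ m) {θ q ε : ℝ} (hθ : 0 < θ) (hq0 : 0 < q) (hε : 0 < ε) :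
    ∃ δ₀ C : ℝ, 0 < δ₀ ∧ δ₀ ≤ 1 / 2 ∧ 0 < C ∧ ∀ (U : Set (E N)), IsOpen U →
      ∀ (μ : Measure (E N))
      (T : E N → Submodule ℝ (E N)), Stat m U μ (fun x => (T x).starProjection) →
      (∀ᵐ x ∂(μ.restrict U), Module.finrank ℝ (T x) = m) →
      ∀ (x₀ : E N) (r : ℝ) (L : E m →ₗᵢ[ℝ] E N), 0 < r → closedBall x₀ (r / δ₀) ⊆ U →
      (∀ᵐ x ∂(μ.restrict (ball x₀ (r / δ₀))), ENNReal.ofReal θ ≤ density m μ x) →
      μ.real (ball x₀ (r / δ₀)) ≤
        (q + δ₀) * (volume : Measure (E m)).real (ball 0 1) * (r / δ₀) ^ m →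
    ∃ G ⊆ ball x₀ r, μ (ball x₀ r \ G) ≤ ENNReal.ofReal C *
        (μ ({x | density m μ x < ENNReal.ofReal q} ∩ ball x₀ (4 * r)) +
          ENNReal.ofReal (∫ x in ball x₀ (4 * r), sm T L x ∂μ)) ∧
      ∀ x ∈ G, ENNReal.ofReal q ≤ density m μ x ∧
        (∀ y ∈ ball x₀ r, Supp μ y →
          ‖(LinearMap.range L.toLinearMap)ᗮ.starProjection (y - x)‖ ≤ ε * ‖y - x‖) ∧
        ∀ t : ℝ, 0 < t → t ≤ r →
          μ.real (ball x t) ≤ (q + ε) *
            (volume : Measure (E m)).real (ball 0 1) * t ^ m ∧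
          ∫ z in ball x t, sm T L z ∂μ ≤ ε * t ^ m := by
  set ω := (volume : Measure (E m)).real (ball 0 1) with hω
  have hω0 : 0 < ω := ENNReal.toReal_pos (omega_pos m) (omega_lt m)
  have hωe : volume (ball (0 : EuclideanSpace ℝ (Fin m)) 1) = ENNReal.ofReal ω :=
    (ENNReal.ofReal_toReal (omega_lt m)).symm
  set κ := q * ω with hκ
  have hκ0 : 0 < κ := mul_pos hq0 hω0
  set β := ε / 4 with hβ
  have hβ0 : 0 < β := by positivity
  set ε₁ := min (min 1 (ε / 2)) (κ * β ^ 2 / 4) with hε₁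
  have hε₁0 : 0 < ε₁ := by positivity
  have hε₁a : ε₁ ≤ 1 := (min_le_left _ _).trans (min_le_left _ _)
  have hε₁b : ε₁ ≤ ε / 2 := (min_le_left _ _).trans (min_le_right _ _)
  have hε₁c : ε₁ ≤ κ * β ^ 2 / 4 := min_le_right _ _
  set η := min ε (κ * β ^ 2 / 4) with hη
  have hη0 : 0 < η := by positivity
  have hηa : η ≤ ε := min_le_left _ _
  have hηb : η ≤ κ * β ^ 2 / 4 := min_le_right _ _
  obtain ⟨δ, hδ, main⟩ := quant (N := N) (f := fun _ => 0) hm hθ hq0
    (show 0 < κ / 2 by positivity) hε₁0 continuous_const (HasCompactSupport.zero)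
  set δ' := min δ ε with hδ'
  have hδ'0 : 0 < δ' := lt_min hδ hε
  obtain ⟨K, hK1, hKB, hK⟩ := exists_K'' (m := m) q δ' hδ'0 (max 12 (2 / δ))
  have hK12 : 12 ≤ K := (le_max_left _ _).trans hKB
  have hKδ : 2 / δ ≤ K := (le_max_right _ _).trans hKB
  have hK0 : 0 < K := by linarith
  set M := (q + δ') * ω with hM
  have hM0 : 0 < M := by positivity
  set K₁ := M * 6 ^ m / (κ / 2) with hK₁
  set K₂ := M * 6 ^ m / η with hK₂
  have hK₁0 : 0 < K₁ := by positivity
  have hK₂0 : 0 < K₂ := by positivity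
  have hK10 : 0 < K + 1 := by linarith
  set δ₀ := min (δ' / 2) (1 / (K + 1)) with hδ₀
  have hδ₀0 : 0 < δ₀ := by positivity
  have hδ₀a : δ₀ ≤ δ' / 2 := min_le_left _ _
  have hδ₀b : δ₀ ≤ 1 / (K + 1) := min_le_right _ _
  have hδ₀d : δ₀ ≤ 1 / 2 := hδ₀b.trans (by
    rw [div_le_div_iff₀ hK10 (by norm_num)]
    linarith)
  refine ⟨δ₀, 1 + K₁ + K₂, hδ₀0, hδ₀d, by positivity, ?_⟩
  intro U hU μ T hS hT x₀ r L hr0 hcU hlow hmass
  have hKr : (K + 1) * r ≤ r / δ₀ := by
    rw [le_div_iff₀ hδ₀0]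
    rw [le_div_iff₀ hK10] at hδ₀b
    nlinarith
  have hfinR : ∀ A : Set (E N), A ⊆ closedBall x₀ ((K + 1) * r) → μ A ≠ ⊤ := by
    intro A hA
    exact ((measure_mono hA).trans_lt (hS.fin _ ((closedBall_subset_closedBall hKr).trans hcU)
      (isCompact_closedBall x₀ _))).ne
  have hsub : ∀ x ∈ ball x₀ r, ∀ t : ℝ, t ≤ K * r → closedBall x t ⊆ closedBall x₀ ((K + 1) * r) := by
    intro x hx t ht
    apply closedBall_subset_closedBall'
    rw [mem_ball] at hx
    linarith
  have hsubU : ∀ x ∈ ball x₀ r, ∀ t : ℝ, t ≤ K * r → closedBall x t ⊆ U := fun x hx t ht =>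
    (hsub x hx t ht).trans ((closedBall_subset_closedBall hKr).trans hcU)
  have hsubB : ∀ x ∈ ball x₀ r, ∀ t : ℝ, t ≤ K * r → ball x t ⊆ ball x₀ (r / δ₀) := by
    intro x hx t ht
    apply ball_subset_ball'
    rw [mem_ball] at hx
    linarith
  have hup : ∀ x ∈ ball x₀ r, ∀ t : ℝ, 0 < t → t ≤ K * r → μ.real (ball x t) ≤ M * t ^ m := by
    intro x hx t ht0 ht
    have hKr' : 0 < K * r := by positivity
    have g1 := mono hS (hsubU x hx (K * r) le_rfl) ht0 ht
    have g2 : μ.real (ball x (K * r)) ≤ μ.real (ball x₀ ((K + 1) * r)) := by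
      apply measureReal_mono
      · apply ball_subset_ball'
        rw [mem_ball] at hx
        linarith
      · exact hfinR _ ball_subset_closedBall
    have hp1 : 0 < ((K + 1) * r) ^ m := by positivity
    have hp0 : 0 < (r / δ₀) ^ m := by positivity
    have g3 : μ.real (ball x₀ ((K + 1) * r)) ≤ (q + δ' / 2) * ω * ((K + 1) * r) ^ m := by
      have g30 := mono hS hcU (show 0 < (K + 1) * r by positivity) hKr
      have g31 : μ.real (ball x₀ (r / δ₀)) / (r / δ₀) ^ m ≤ (q + δ' / 2) * ω := by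
        rw [div_le_iff₀ hp0]
        refine hmass.trans ?_
        gcongr
      exact (div_le_iff₀ hp1).1 (g30.trans g31)
    have hp2 : 0 < (K * r) ^ m := by positivity
    have g4 : μ.real (ball x (K * r)) / (K * r) ^ m ≤ M := by
      rw [div_le_iff₀ hp2]
      refine g2.trans (g3.trans ?_)
      have e1 : ((K + 1) * r) ^ m = ((K + 1) / K) ^ m * (K * r) ^ m := by
        rw [← mul_pow]
        congr 1
        field_simp
      rw [e1, hM]
      calc (q + δ' / 2) * ω * (((K + 1) / K) ^ m * (K * r) ^ m) =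
            ((q + δ' / 2) * ((K + 1) / K) ^ m) * (ω * (K * r) ^ m) := by ring
        _ ≤ (q + δ') * (ω * (K * r) ^ m) := by gcongr
        _ = _ := by ring
    have hp3 : 0 < t ^ m := by positivity
    exact (div_le_iff₀ hp3).1 (g1.trans g4)
  set D := {x | density m μ x < ENNReal.ofReal q} with hDdef
  have hsub4 : ∀ x ∈ ball x₀ r, ∀ s : ℝ, s ≤ 2 * r → closedBall x s ⊆ ball x₀ (4 * r) := by
    intro x hx s hs
    apply closedBall_subset_ball'
    rw [mem_ball] at hx
    linarith
  have h2K : 2 * r ≤ K * r := by gcongr; linarith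
  have hmeas := hS.meas
  set Bad₁ := {x ∈ ball x₀ r | ∃ s : ℝ, 0 < s ∧ s ≤ 2 * r ∧
    ENNReal.ofReal (κ / 2 * s ^ m) < μ (D ∩ closedBall x s)} with hBad₁
  set Bad₂ := {x ∈ ball x₀ r | ∃ s : ℝ, 0 < s ∧ s ≤ 2 * r ∧
    η * s ^ m < ∫ z in closedBall x s, sm T L z ∂μ} with hBad₂
  have h6up : ∀ x ∈ ball x₀ r, ∀ s : ℝ, 0 < s → s ≤ 2 * r →
      μ (closedBall x (5 * s)) ≤ ENNReal.ofReal (M * 6 ^ m * s ^ m) := by
    intro x hx s hs hs2
    have b1 : closedBall x (5 * s) ⊆ ball x (6 * s) := closedBall_subset_ball (by linarith)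
    have b2 : 6 * s ≤ K * r := by nlinarith
    have b3 := hup x hx (6 * s) (by positivity) b2
    have b4 : μ (ball x (6 * s)) ≠ ⊤ :=
      hfinR _ (ball_subset_closedBall.trans (hsub x hx _ b2))
    refine (measure_mono b1).trans ?_
    rw [← ENNReal.ofReal_toReal b4]
    apply ENNReal.ofReal_le_ofReal
    calc (μ (ball x (6 * s))).toReal ≤ M * (6 * s) ^ m := b3
      _ = M * 6 ^ m * s ^ m := by rw [mul_pow]; ring
  have hB1 : μ Bad₁ ≤ ENNReal.ofReal K₁ * μ (D ∩ ball x₀ (4 * r)) := by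
    have c1 : μ Bad₁ ≤ ENNReal.ofReal K₁ * (μ.restrict D) (ball x₀ (4 * r)) := by
      apply maximal (R := 2 * r) measurableSet_ball
      rintro x ⟨hx, s, hs0, hs2, hs⟩
      refine ⟨s, hs0, hs2, hsub4 x hx s hs2, (h6up x hx s hs0 hs2).trans ?_⟩
      rw [Measure.restrict_apply isClosed_closedBall.measurableSet, inter_comm]
      refine le_trans (le_of_eq ?_) (mul_le_mul_right hs.le _)
      rw [← ENNReal.ofReal_mul hK₁0.le]
      congr 1
      rw [hK₁]
      field_simp
    refine c1.trans (le_of_eq ?_)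
    rw [Measure.restrict_apply measurableSet_ball, inter_comm]
  have hwd : ∀ A : Set (E N), MeasurableSet A → μ A ≠ ⊤ →
      (μ.withDensity fun x => ENNReal.ofReal (sm T L x)) A =
        ENNReal.ofReal (∫ z in A, sm T L z ∂μ) := by
    intro A hA hfA
    rw [withDensity_apply _ hA, ofReal_integral_eq_lintegral_ofReal (int_sm hmeas L hfA)
      (Eventually.of_forall fun x => sm_nonneg T L x)]
  have h4K : 4 * r ≤ (K + 1) * r := by gcongr; linarith
  have hfin4 : μ (ball x₀ (4 * r)) ≠ ⊤ :=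
    hfinR _ (ball_subset_closedBall.trans (closedBall_subset_closedBall h4K))
  have hB2 : μ Bad₂ ≤ ENNReal.ofReal K₂ *
      ENNReal.ofReal (∫ x in ball x₀ (4 * r), sm T L x ∂μ) := by
    have c1 : μ Bad₂ ≤ ENNReal.ofReal K₂ *
        (μ.withDensity fun x => ENNReal.ofReal (sm T L x)) (ball x₀ (4 * r)) := by
      apply maximal (R := 2 * r) measurableSet_ball
      rintro x ⟨hx, s, hs0, hs2, hs⟩
      refine ⟨s, hs0, hs2, hsub4 x hx s hs2, (h6up x hx s hs0 hs2).trans ?_⟩
      rw [hwd _ isClosed_closedBall.measurableSet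
        (hfinR _ (hsub x hx s (hs2.trans h2K)))]
      refine le_trans (le_of_eq ?_) (mul_le_mul_right (ENNReal.ofReal_le_ofReal hs.le) _)
      rw [← ENNReal.ofReal_mul hK₂0.le]
      congr 1
      rw [hK₂]
      field_simp
    refine c1.trans (le_of_eq ?_)
    rw [hwd _ measurableSet_ball hfin4]
  refine ⟨{x ∈ ball x₀ r | ENNReal.ofReal q ≤ density m μ x ∧
    (∀ s : ℝ, 0 < s → s ≤ 2 * r → μ (D ∩ closedBall x s) ≤ ENNReal.ofReal (κ / 2 * s ^ m)) ∧
    ∀ s : ℝ, 0 < s → s ≤ 2 * r → ∫ z in closedBall x s, sm T L z ∂μ ≤ η * s ^ m},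
    fun x hx => hx.1, ?_, ?_⟩
  · -- the exceptional set is small
    have d1 : ball x₀ r \ {x ∈ ball x₀ r | ENNReal.ofReal q ≤ density m μ x ∧
        (∀ s : ℝ, 0 < s → s ≤ 2 * r → μ (D ∩ closedBall x s) ≤ ENNReal.ofReal (κ / 2 * s ^ m)) ∧
        ∀ s : ℝ, 0 < s → s ≤ 2 * r → ∫ z in closedBall x s, sm T L z ∂μ ≤ η * s ^ m} ⊆
        (D ∩ ball x₀ (4 * r)) ∪ (Bad₁ ∪ Bad₂) := by
      rintro x ⟨hx, hnot⟩
      by_cases c1 : ENNReal.ofReal q ≤ density m μ x
      · by_cases c2 : ∀ s : ℝ, 0 < s → s ≤ 2 * r →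
            μ (D ∩ closedBall x s) ≤ ENNReal.ofReal (κ / 2 * s ^ m)
        · right; right
          by_contra c3
          apply hnot
          refine ⟨hx, c1, c2, ?_⟩
          intro s hs0 hs2
          by_contra c4
          exact c3 ⟨hx, s, hs0, hs2, not_le.1 c4⟩
        · right; left
          push Not at c2
          obtain ⟨s, hs0, hs2, hs⟩ := c2
          exact ⟨hx, s, hs0, hs2, hs⟩
      · left
        exact ⟨not_le.1 c1, ball_subset_ball (by linarith) hx⟩
    refine (measure_mono d1).trans ((measure_union_le _ _).trans ?_)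
    refine (add_le_add le_rfl ((measure_union_le _ _).trans (add_le_add hB1 hB2))).trans ?_
    rw [ENNReal.ofReal_add (by positivity) hK₂0.le, ENNReal.ofReal_add zero_le_one hK₁0.le,
      ENNReal.ofReal_one]
    generalize μ (D ∩ ball x₀ (4 * r)) = a
    generalize ENNReal.ofReal (∫ x in ball x₀ (4 * r), sm T L x ∂μ) = b
    generalize ENNReal.ofReal K₁ = k1
    generalize ENNReal.ofReal K₂ = k2
    have e : (1 + k1 + k2) * (a + b) = (a + (k1 * a + k2 * b)) + (k2 * a + (b + k1 * b)) := by ring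
    rw [e]
    exact le_self_add
  · rintro x ⟨hx, hxQ, hx1, hx2⟩
    refine ⟨hxQ, ?_, ?_⟩
    · intro y hy hyS
      by_cases hxy : y = x
      · rw [hxy, sub_self, map_zero, norm_zero, mul_zero]
      set t := ‖y - x‖ with ht
      have ht0 : 0 < t := norm_pos_iff.2 (sub_ne_zero.2 hxy)
      have ht2 : t ≤ 2 * r := by
        rw [ht, ← dist_eq_norm]
        have f1 := dist_triangle_right y x x₀
        rw [mem_ball] at hx hy
        linarith
      have htK : t ≤ K * r := ht2.trans h2K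
      have htδ : t / δ ≤ K * r := by
        calc t / δ ≤ 2 * r / δ := by gcongr
          _ = 2 / δ * r := by ring
          _ ≤ K * r := by gcongr
      have htδ0 : 0 < t / δ := div_pos ht0 hδ
      have hsubδ : ball x (t / δ) ⊆ U := ball_subset_closedBall.trans (hsubU x hx _ htδ)
      have hfint : μ (ball x t) ≠ ⊤ := hfinR _ (ball_subset_closedBall.trans (hsub x hx _ htK))
      have hlowt : κ * t ^ m ≤ μ.real (ball x t) := by
        have f1 := (mul_le_mul_left hxQ _).trans (density_le hS (hsubU x hx t htK) ht0)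
        rw [hωe, ← ENNReal.ofReal_pow ht0.le, ← ENNReal.ofReal_mul hω0.le,
          ← ENNReal.ofReal_mul hq0.le] at f1
        rw [hκ, mul_assoc]
        exact (ENNReal.ofReal_le_iff_le_toReal hfint).1 f1
      have hmany : ENNReal.ofReal (κ / 2 * t ^ m) ≤
          μ ({z | ENNReal.ofReal q ≤ density m μ z} ∩ ball x t) := by
        have f1 : μ (ball x t) ≤ μ ({z | ENNReal.ofReal q ≤ density m μ z} ∩ ball x t) +
            μ (D ∩ closedBall x t) := by
          refine (measure_mono ?_).trans (measure_union_le _ _)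
          intro z hz
          by_cases hzQ : ENNReal.ofReal q ≤ density m μ z
          · exact Or.inl ⟨hzQ, hz⟩
          · exact Or.inr ⟨not_le.1 hzQ, ball_subset_closedBall hz⟩
        have f2 : ENNReal.ofReal (κ * t ^ m) ≤ μ (ball x t) := by
          rw [ENNReal.ofReal_le_iff_le_toReal hfint]
          exact hlowt
        have f3 := f2.trans (f1.trans (add_le_add le_rfl (hx1 t ht0 ht2)))
        have f4 : ENNReal.ofReal (κ * t ^ m) = ENNReal.ofReal (κ / 2 * t ^ m) +
            ENNReal.ofReal (κ / 2 * t ^ m) := by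
          rw [← ENNReal.ofReal_add (by positivity) (by positivity)]
          congr 1
          ring
        rw [f4] at f3
        exact (ENNReal.add_le_add_iff_right ENNReal.ofReal_ne_top).1 f3
      have hflat := main U hU μ _ hS x t ht0 hsubδ
        (ae_restrict_of_ae_restrict_of_subset (hsubB x hx _ htδ) hlow) hxQ (by
          have f1 := hup x hx (t / δ) htδ0 htδ
          have f2 : μ (ball x (t / δ)) ≠ ⊤ :=
            hfinR _ (ball_subset_closedBall.trans (hsub x hx _ htδ))
          rw [← ENNReal.ofReal_toReal f2]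
          apply ENNReal.ofReal_le_ofReal
          refine f1.trans ?_
          rw [hM]
          have : δ' ≤ δ := min_le_left _ _
          change (q + δ') * ω * (t / δ) ^ m ≤ (q + δ) * ω * (t / δ) ^ m
          gcongr) hmany
      have htl : ∫ z in ball x t, sm T L z ∂μ ≤ η * t ^ m := by
        refine le_trans ?_ (hx2 t ht0 ht2)
        apply setIntegral_mono_set (int_sm hmeas L (hfinR _ (hsub x hx _ htK)))
          (Eventually.of_forall fun z => sm_nonneg T L z)
        exact (ball_subset_closedBall).eventuallyLE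
      have hball : ball x t ⊆ U := ball_subset_closedBall.trans (hsubU x hx t htK)
      have hfd := flat_dir hmeas ht0 hfint (ae_restrict_of_ae_restrict_of_subset hball hT) hκ0
        hlowt hflat hε₁a L htl hβ0.le (by nlinarith) (y := y)
        (by rw [mem_closedBall, dist_eq_norm]) hyS
      refine hfd.trans ?_
      gcongr
      rw [hβ]
      linarith
    · intro t ht0 htr
      have htK : t ≤ K * r := by nlinarith
      refine ⟨?_, ?_⟩
      · refine (hup x hx t ht0 htK).trans ?_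
        rw [hM]
        have : δ' ≤ ε := min_le_right _ _
        gcongr
      · have ht2 : t ≤ 2 * r := by linarith
        refine (le_trans ?_ (hx2 t ht0 ht2)).trans (by gcongr)
        apply setIntegral_mono_set (int_sm hmeas L (hfinR _ (hsub x hx _ htK)))
          (Eventually.of_forall fun z => sm_nonneg T L z)
        exact (ball_subset_closedBall).eventuallyLE

end Pool.Agent.Q160.FT
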