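import Pool.Agent.TH337.VF.Dens

/-!
Vague limits of stationary varifolds with converging mass ratios at `0`.
-/

set_option autoImplicit false

namespace Pool.Agent.Q160.FT

open MeasureTheory Set Filter Topology Metric Pool.Agent.TH337.VF
open scoped ENNReal RealInnerProductSpace

variable {N : ℕ}

/-- vague convergence -/
def VC {ι : Type*} (l : Filter ι) (μ : ι → Measure (E N)) (ν : Measure (E N)) : Prop :=
  ∀ f : E N → ℝ, Continuous f → HasCompactSupport f →
    Tendsto (fun j => ∫ x, f x ∂(μ j)) l (𝓝 (∫ x, f x ∂ν))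

lemma exists_cut {K O : Set (E N)} (hK : IsCompact K) (hO : IsOpen O) (hKO : K ⊆ O) :
    ∃ f : E N → ℝ, Continuous f ∧ HasCompactSupport f ∧ (∀ x ∈ K, f x = 1) ∧
      (∀ x, x ∉ O → f x = 0) ∧ ∀ x, 0 ≤ f x ∧ f x ≤ 1 := by
  obtain ⟨f, h1, h2, h3, h4⟩ := exists_continuous_one_zero_of_isCompact hK hO.isClosed_compl
    (disjoint_compl_right_iff_subset.2 hKO)
  exact ⟨f, f.continuous, h3, fun x hx => h1 hx, fun x hx => h2 hx, fun x => h4 x⟩

lemma real_le_integral {μ : Measure (E N)} [IsFiniteMeasureOnCompacts μ] {K : Set (E N)}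
    (hK : IsCompact K) {f : E N → ℝ} (hf : Continuous f) (hc : HasCompactSupport f)
    (h1 : ∀ x ∈ K, f x = 1) (h0 : ∀ x, 0 ≤ f x) : μ.real K ≤ ∫ x, f x ∂μ := by
  have hi : Integrable f μ := hf.integrable_of_hasCompactSupport hc
  rw [← integral_indicator_one hK.measurableSet]
  refine integral_mono ?_ hi ?_
  · exact (integrable_indicator_iff hK.measurableSet).2
      (integrableOn_const (by exact hK.measure_lt_top.ne) (by simp))
  · intro x
    by_cases hx : x ∈ K
    · simp [hx, h1 x hx]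
    · simp [hx, h0 x]

lemma integral_le_real {μ : Measure (E N)} {O : Set (E N)}
    (hO : MeasurableSet O) (hOf : μ O ≠ ⊤) {f : E N → ℝ}
    (h1 : ∀ x, f x ≤ 1) (h0 : ∀ x, 0 ≤ f x) (hz : ∀ x, x ∉ O → f x = 0) :
    ∫ x, f x ∂μ ≤ μ.real O := by
  rw [← integral_indicator_one hO]
  refine integral_mono_of_nonneg (Eventually.of_forall h0) ?_ (Eventually.of_forall ?_)
  · exact (integrable_indicator_iff hO).2 (integrableOn_const hOf (by simp))
  · intro x
    by_cases hx : x ∈ O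
    · simp [hx, h1 x]
    · simp [hx, hz x hx]

lemma ev_le {ι : Type*} {l : Filter ι} {μ : ι → Measure (E N)} {ν : Measure (E N)}
    [∀ j, IsFiniteMeasure (μ j)]
    (hv : VC l μ ν) {K O : Set (E N)} (hK : IsCompact K) (hO : IsOpen O)
    (hKO : K ⊆ O) (hOf : ν O ≠ ⊤) {ε : ℝ} (hε : 0 < ε) :
    ∀ᶠ j in l, (μ j).real K ≤ ν.real O + ε := by
  obtain ⟨f, f1, f2, f3, f4, f5⟩ := exists_cut hK hO hKO
  have h1 : ∫ x, f x ∂ν ≤ ν.real O :=
    integral_le_real hO.measurableSet hOf (fun x => (f5 x).2) (fun x => (f5 x).1) f4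
  have h2 : ∀ᶠ j in l, ∫ x, f x ∂(μ j) < ν.real O + ε :=
    (hv f f1 f2).eventually (gt_mem_nhds (by linarith))
  filter_upwards [h2] with j hj
  exact (real_le_integral hK f1 f2 f3 fun x => (f5 x).1).trans hj.le

lemma ev_ge {ι : Type*} {l : Filter ι} {μ : ι → Measure (E N)} {ν : Measure (E N)}
    [∀ j, IsFiniteMeasure (μ j)]
    [IsFiniteMeasureOnCompacts ν]
    (hv : VC l μ ν) {K O : Set (E N)} (hK : IsCompact K) (hO : IsOpen O)
    (hKO : K ⊆ O) {ε : ℝ} (hε : 0 < ε) :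
    ∀ᶠ j in l, ν.real K ≤ (μ j).real O + ε := by
  obtain ⟨f, f1, f2, f3, f4, f5⟩ := exists_cut hK hO hKO
  have h1 : ν.real K ≤ ∫ x, f x ∂ν := real_le_integral hK f1 f2 f3 fun x => (f5 x).1
  have h2 : ∀ᶠ j in l, ν.real K - ε < ∫ x, f x ∂(μ j) :=
    (hv f f1 f2).eventually (lt_mem_nhds (by linarith))
  filter_upwards [h2] with j hj
  have h3 : ∫ x, f x ∂(μ j) ≤ (μ j).real O :=
    integral_le_real hO.measurableSet (measure_ne_top _ _) (fun x => (f5 x).2)
      (fun x => (f5 x).1) f4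
  linarith

/-- the situation: finite measures `μ j`, stationary in larger and larger balls, converging
vaguely to `ν`, with mass ratios at `0` converging to `κ` and at least `κ` at the points of the
sets `G j` and at `0` -/
structure Sit {ι : Type*} (l : Filter ι) (m : ℕ) (κ : ℝ) (μ : ι → Measure (E N))
    (P : ι → E N → E N →L[ℝ] E N) (L : ι → ℝ) (G : ι → Set (E N)) (ν : Measure (E N)) : Prop where
  fin : ∀ j, IsFiniteMeasure (μ j)
  stat : ∀ j, Stat m (ball 0 (L j)) (μ j) (P j)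
  large : Tendsto L l atTop
  vague : VC l μ ν
  locfin : IsFiniteMeasureOnCompacts ν
  ratio : ∀ s : ℝ, 0 < s → Tendsto (fun j => (μ j).real (ball 0 s)) l (𝓝 (κ * s ^ m))
  lower : ∀ j, ∀ z ∈ G j, ∀ s : ℝ, 0 < s → closedBall z s ⊆ ball 0 (L j) →
    κ * s ^ m ≤ (μ j).real (ball z s)

variable {ι : Type*} {l : Filter ι} [l.NeBot] {m : ℕ} {κ : ℝ} {μ : ι → Measure (E N)}
  {P : ι → E N → E N →L[ℝ] E N} {L : ι → ℝ} {G : ι → Set (E N)} {ν : Measure (E N)}

lemma ball_fin [IsFiniteMeasureOnCompacts ν] (y : E N) (s : ℝ) : ν (ball y s) ≠ ⊤ :=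
  ((measure_mono ball_subset_closedBall).trans_lt (isCompact_closedBall y s).measure_lt_top).ne

lemma Sit.sub (h : Sit l m κ μ P L G ν) (y : E N) (s : ℝ) :
    ∀ᶠ j in l, closedBall y s ⊆ ball 0 (L j) := by
  filter_upwards [h.large.eventually_gt_atTop (s + ‖y‖)] with j hj
  intro x hx
  rw [mem_closedBall, dist_eq_norm] at hx
  rw [mem_ball_zero_iff]
  calc ‖x‖ = ‖(x - y) + y‖ := by rw [sub_add_cancel]
    _ ≤ ‖x - y‖ + ‖y‖ := norm_add_le _ _
    _ < L j := by linarith

/-- upper bound for all balls -/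
lemma Sit.upper (h : Sit l m κ μ P L G ν) (y : E N) {s : ℝ} (hs : 0 < s) :
    ν.real (closedBall y s) ≤ κ * s ^ m := by
  have := h.fin
  have := h.locfin
  have hκ : ∀ s' R : ℝ, s < s' → s' ≤ R → ∀ ε : ℝ, 0 < ε →
      ν.real (closedBall y s) ≤ (s' / R) ^ m * (κ * (R + ‖y‖) ^ m) + ε := by
    intro s' R hs' hR ε hε
    have hs0 : 0 < s' := hs.trans hs'
    have hR0 : 0 < R := hs0.trans_le hR
    have h1 := ev_ge h.vague (isCompact_closedBall y s) isOpen_ball
      (closedBall_subset_ball hs') (half_pos hε)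
    have h2 : ∀ᶠ j in l, (s' / R) ^ m * (μ j).real (ball 0 (R + ‖y‖)) <
        (s' / R) ^ m * (κ * (R + ‖y‖) ^ m) + ε / 2 :=
      ((h.ratio (R + ‖y‖) (by positivity)).const_mul _).eventually (gt_mem_nhds (by linarith))
    obtain ⟨j, hj1, hj2, hj3⟩ := (h1.and (h2.and (h.sub y R))).exists
    have h3 := mono (h.stat j) hj3 hs0 hR
    have h4 : (μ j).real (ball y R) ≤ (μ j).real (ball 0 (R + ‖y‖)) := by
      apply measureReal_mono _ (measure_ne_top _ _)
      apply ball_subset_ball'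
      rw [dist_zero_right]
    have h5 : (μ j).real (ball y s') ≤ (s' / R) ^ m * (μ j).real (ball y R) := by
      rw [div_le_iff₀ (by positivity)] at h3
      rw [div_pow]
      calc (μ j).real (ball y s') ≤ (μ j).real (ball y R) / R ^ m * s' ^ m := h3
        _ = s' ^ m / R ^ m * (μ j).real (ball y R) := by ring
    have h6 : (s' / R) ^ m * (μ j).real (ball y R) ≤
        (s' / R) ^ m * (μ j).real (ball 0 (R + ‖y‖)) :=
      mul_le_mul_of_nonneg_left h4 (by positivity)
    linarith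
  -- R → ∞
  have h1 : ∀ s' : ℝ, s < s' → ∀ ε : ℝ, 0 < ε → ν.real (closedBall y s) ≤ κ * s' ^ m + ε := by
    intro s' hs' ε hε
    have hs0 : 0 < s' := hs.trans hs'
    have hlim : Tendsto (fun R : ℝ => s' ^ m * κ * (1 + ‖y‖ / R) ^ m + ε) atTop
        (𝓝 (s' ^ m * κ * (1 + 0) ^ m + ε)) := by
      apply Tendsto.add_const
      apply Tendsto.const_mul
      apply Tendsto.pow
      apply Tendsto.const_add
      exact tendsto_const_nhds.div_atTop tendsto_id
    have h2 : ν.real (closedBall y s) ≤ s' ^ m * κ * (1 + 0) ^ m + ε := by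
      apply ge_of_tendsto hlim
      filter_upwards [eventually_ge_atTop s'] with R hR
      have hR0 : 0 < R := hs0.trans_le hR
      refine (hκ s' R hs' hR ε hε).trans (le_of_eq ?_)
      have e : 1 + ‖y‖ / R = (R + ‖y‖) / R := by field_simp
      rw [e, div_pow, div_pow]
      ring
    rw [add_zero, one_pow, mul_one] at h2
    linarith
  have h2 : ∀ s' : ℝ, s < s' → ν.real (closedBall y s) ≤ κ * s' ^ m := by
    intro s' hs'
    exact le_of_forall_pos_le_add fun ε hε => h1 s' hs' ε hε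
  have h3 : Tendsto (fun s' : ℝ => κ * s' ^ m) (𝓝[>] s) (𝓝 (κ * s ^ m)) := by
    apply tendsto_nhdsWithin_of_tendsto_nhds
    have : Continuous fun s' : ℝ => κ * s' ^ m := by fun_prop
    exact this.tendsto s
  apply ge_of_tendsto h3
  filter_upwards [self_mem_nhdsWithin] with s' hs'
  exact h2 s' hs'

/-- the points where the mass ratio is at least `κ` in all balls -/
def Sg (m : ℕ) (κ : ℝ) (ν : Measure (E N)) : Set (E N) :=
  {y | ∀ s : ℝ, 0 < s → κ * s ^ m ≤ ν.real (ball y s)}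

lemma Sit.ball_eq (h : Sit l m κ μ P L G ν) {y : E N} (hy : y ∈ Sg m κ ν) {s : ℝ} (hs : 0 < s) :
    ν.real (ball y s) = κ * s ^ m := by
  have := h.locfin
  refine le_antisymm ?_ (hy s hs)
  refine le_trans ?_ (h.upper y hs)
  exact measureReal_mono ball_subset_closedBall (isCompact_closedBall y s).measure_lt_top.ne

lemma Sit.far (h : Sit l m κ μ P L G ν) {y : E N} (hy : y ∉ Sg m κ ν) :
    ∃ δ : ℝ, 0 < δ ∧ ∀ᶠ j in l, ∀ z ∈ G j, z ∉ ball y δ := by
  have := h.fin
  have := h.locfin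
  simp only [Sg, mem_ofPred_eq, not_forall, not_le] at hy
  obtain ⟨s, hs, hlt⟩ := hy
  -- choose δ
  have h1 : Tendsto (fun δ : ℝ => κ * (s - 2 * δ) ^ m) (𝓝[>] 0) (𝓝 (κ * (s - 2 * 0) ^ m)) := by
    apply tendsto_nhdsWithin_of_tendsto_nhds
    have : Continuous fun δ : ℝ => κ * (s - 2 * δ) ^ m := by fun_prop
    exact this.tendsto 0
  rw [mul_zero, sub_zero] at h1
  obtain ⟨δ, h2, h3⟩ := ((h1.eventually (lt_mem_nhds hlt)).and
    (Ioo_mem_nhdsGT (show (0:ℝ) < s / 4 by positivity))).exists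
  obtain ⟨hδ0, hδ1⟩ := h3
  have hs' : 0 < s - 2 * δ := by linarith
  refine ⟨δ, hδ0, ?_⟩
  obtain ⟨ε, hε, hε2⟩ : ∃ ε : ℝ, 0 < ε ∧ ν.real (ball y s) + ε < κ * (s - 2 * δ) ^ m :=
    ⟨(κ * (s - 2 * δ) ^ m - ν.real (ball y s)) / 2, by linarith, by linarith⟩
  have h4 := ev_le h.vague (isCompact_closedBall y (s - δ)) isOpen_ball
    (closedBall_subset_ball (show s - δ < s by linarith)) (ball_fin y s) hε
  filter_upwards [h4, h.sub y s] with j hj1 hj2
  intro z hz hzy
  rw [mem_ball] at hzy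
  have h5 : closedBall z (s - 2 * δ) ⊆ closedBall y (s - δ) := by
    apply closedBall_subset_closedBall'
    linarith
  have h6 := h.lower j z hz (s - 2 * δ) hs'
    ((h5.trans (closedBall_subset_closedBall (by linarith))).trans hj2)
  have h7 : (μ j).real (ball z (s - 2 * δ)) ≤ (μ j).real (closedBall y (s - δ)) :=
    measureReal_mono (ball_subset_closedBall.trans h5) (measure_ne_top _ _)
  linarith

lemma isClosed_Sg [IsFiniteMeasureOnCompacts ν] : IsClosed (Sg m κ ν) := by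
  apply isClosed_of_closure_subset
  intro y hy s hs
  have h1 : Tendsto (fun δ : ℝ => κ * (s - δ) ^ m) (𝓝[>] 0) (𝓝 (κ * (s - 0) ^ m)) := by
    apply tendsto_nhdsWithin_of_tendsto_nhds
    have : Continuous fun δ : ℝ => κ * (s - δ) ^ m := by fun_prop
    exact this.tendsto 0
  rw [sub_zero] at h1
  apply le_of_tendsto h1
  filter_upwards [Ioo_mem_nhdsGT hs] with δ hδ
  obtain ⟨z, hz, hzy⟩ := Metric.mem_closure_iff.1 hy δ hδ.1
  refine (hz (s - δ) (by linarith [hδ.2])).trans ?_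
  apply measureReal_mono _ (ball_fin y s)
  apply ball_subset_ball'
  rw [dist_comm] at hzy
  linarith

/-- if the sets `G j` have a definite amount of measure, so has `Sg` -/
lemma Sit.pos (h : Sit l m κ μ P L G ν) {c : ℝ} (hc : 0 < c)
    (hG : ∃ᶠ j in l, c ≤ (μ j).real (G j ∩ closedBall 0 1)) : ν (Sg m κ ν) ≠ 0 := by
  have := h.fin
  have := h.locfin
  intro h0
  -- an open neighbourhood of small measure
  have h1 : ν (Sg m κ ν ∩ closedBall 0 1) = 0 := measure_mono_null inter_subset_left h0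
  obtain ⟨O, hO1, hO2, hO3⟩ := (Sg m κ ν ∩ closedBall (0 : E N) 1).exists_isOpen_lt_of_lt
    (μ := ν) (ENNReal.ofReal (c / 4)) (by rw [h1]; exact ENNReal.ofReal_pos.2 (by positivity))
  have hcS : IsCompact (Sg m κ ν ∩ closedBall (0 : E N) 1) :=
    (isCompact_closedBall 0 1).inter_left isClosed_Sg
  obtain ⟨O', hO'1, hO'2, hO'3, hO'4⟩ := exists_open_between_and_isCompact_closure hcS hO2 hO1
  -- finitely many balls around the rest
  have hcK : IsCompact (closedBall (0 : E N) 1 \ O') := (isCompact_closedBall 0 1).diff hO'1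
  have h2 : ∀ y ∈ closedBall (0 : E N) 1 \ O', ∃ δ : ℝ, 0 < δ ∧
      ∀ᶠ j in l, ∀ z ∈ G j, z ∉ ball y δ := by
    intro y hy
    exact h.far fun hy' => hy.2 (hO'2 ⟨hy', hy.1⟩)
  choose! δ hδ0 hδ using h2
  obtain ⟨t, ht1, ht2⟩ := hcK.elim_nhds_subcover (fun y => ball y (δ y))
    fun y hy => ball_mem_nhds y (hδ0 y hy)
  have h3 : ∀ᶠ j in l, ∀ z ∈ G j, z ∉ closedBall (0 : E N) 1 \ O' := by
    have h4 : ∀ᶠ j in l, ∀ y ∈ t, ∀ z ∈ G j, z ∉ ball y (δ y) := by
      rw [Filter.eventually_all_finset]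
      intro y hy
      exact hδ y (ht1 y hy)
    filter_upwards [h4] with j hj z hz hz2
    obtain ⟨y, hy, hzy⟩ := mem_iUnion₂.1 (ht2 hz2)
    exact hj y hy z hz hzy
  have hfO : ν O ≠ ⊤ := (hO3.trans_le le_top).ne
  have h5 := ev_le h.vague hO'4 hO2 hO'3 hfO (show (0:ℝ) < c / 4 by positivity)
  obtain ⟨j, hj1, hj2, hj3⟩ := (hG.and_eventually (h3.and h5)).exists
  have h6 : (μ j).real (G j ∩ closedBall 0 1) ≤ (μ j).real (closure O') := by
    apply measureReal_mono _ (measure_ne_top _ _)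
    intro z hz
    apply subset_closure
    by_contra hcon
    exact hj2 z hz.1 ⟨hz.2, hcon⟩
  have h7 : ν.real O ≤ c / 4 := ENNReal.toReal_le_of_le_ofReal (by positivity) hO3.le
  linarith

end Pool.Agent.Q160.FT
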